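import Pool.Agent.P.MP_cb22e8_co.AC.Defs

/-!
The weighted number of patterns in conflict with a given one.
-/

open Finset

namespace Pool.Agent.P.MP_cb22e8_co.AC

namespace ConfAux

variable {G : Type} [DecidableEq G]

theorem weight_le (S U : Finset G) {j L e : ℕ} {ρ : ℝ} (hS : S.card = j) (hU : U.card ≤ L)
    (h0 : 0 ≤ ρ) (h1 : L * ρ ≤ 1) (he : ∀ P ⊆ S ∩ U, P.card < j → e ≤ j - P.card) :
    ∑ S' ∈ (powersetCard j U).filter (fun S' => S' ≠ S), ρ ^ (S' \ S).card ≤
      2 ^ j * (L * ρ) ^ e := by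
  have hσ : (0 : ℝ) ≤ L * ρ := by positivity
  have hmap : ∀ S' ∈ (powersetCard j U).filter (fun S' => S' ≠ S),
      S' ∩ S ∈ (powerset (S ∩ U)).filter (fun P => P.card < j) := fun S' hS' => by
    rw [mem_filter, mem_powersetCard] at hS'
    obtain ⟨⟨h2, h3⟩, h4⟩ := hS'
    rw [mem_filter, mem_powerset]
    refine ⟨fun t ht => mem_inter.mpr ⟨(mem_inter.mp ht).2, h2 (mem_inter.mp ht).1⟩, ?_⟩
    by_contra h5
    have h6 : S' ∩ S = S' := eq_of_subset_of_card_le inter_subset_left (by omega)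
    have h7 : S' ∩ S = S := eq_of_subset_of_card_le inter_subset_right (by omega)
    exact h4 (h6.symm.trans h7)
  rw [← sum_fiberwise_of_maps_to hmap]
  have hfib : ∀ P ∈ (powerset (S ∩ U)).filter (fun P => P.card < j),
      ∑ S' ∈ ((powersetCard j U).filter (fun S' => S' ≠ S)).filter (fun S' => S' ∩ S = P),
        ρ ^ (S' \ S).card ≤ (L * ρ) ^ e := fun P hP => by
    rw [mem_filter, mem_powerset] at hP
    have hc : ∀ S' ∈ ((powersetCard j U).filter (fun S' => S' ≠ S)).filter (fun S' => S' ∩ S = P),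
        (S' \ S).card = j - P.card := fun S' hS' => by
      rw [mem_filter, mem_filter, mem_powersetCard] at hS'
      have := card_sdiff_add_card_inter S' S
      rw [hS'.2, hS'.1.1.2] at this
      omega
    have hcard : (((powersetCard j U).filter (fun S' => S' ≠ S)).filter
        (fun S' => S' ∩ S = P)).card ≤ L ^ (j - P.card) := by
      refine (card_le_card_of_injOn (t := powersetCard (j - P.card) U) (fun S' => S' \ S)
        (fun S' hS' => ?_) (fun S₁ h₁ S₂ h₂ h => ?_)).trans ?_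
      · have h2 := hc S' (mem_coe.mp hS')
        have h3 := mem_coe.mp hS'
        rw [mem_filter, mem_filter, mem_powersetCard] at h3
        exact mem_coe.mpr (mem_powersetCard.mpr ⟨sdiff_subset.trans h3.1.1.1, h2⟩)
      · have h3 := (mem_filter.mp (mem_coe.mp h₁)).2
        have h4 := (mem_filter.mp (mem_coe.mp h₂)).2
        have h5 : S₁ \ S = S₂ \ S := h
        rw [← sdiff_union_inter S₁ S, ← sdiff_union_inter S₂ S, h3, h4, h5]
      · rw [card_powersetCard]
        exact (Nat.choose_le_pow _ _).trans (Nat.pow_le_pow_left hU _)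
    rw [sum_congr rfl fun S' hS' => by rw [hc S' hS'], sum_const, nsmul_eq_mul]
    calc _ ≤ (L : ℝ) ^ (j - P.card) * ρ ^ (j - P.card) :=
          mul_le_mul_of_nonneg_right (by exact_mod_cast hcard) (by positivity)
      _ = (L * ρ) ^ (j - P.card) := (mul_pow _ _ _).symm
      _ ≤ (L * ρ) ^ e := pow_le_pow_of_le_one hσ h1 (he P hP.1 hP.2)
  refine (sum_le_card_nsmul _ _ _ hfib).trans ?_
  rw [nsmul_eq_mul]
  refine mul_le_mul_of_nonneg_right ?_ (by positivity)
  have : ((powerset (S ∩ U)).filter (fun P => P.card < j)).card ≤ 2 ^ j := by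
    refine (card_filter_le _ _).trans ?_
    rw [card_powerset]
    exact Nat.pow_le_pow_right (by norm_num) ((card_le_card inter_subset_left).trans hS.le)
  exact_mod_cast this

theorem weight_le' (S U : Finset G) {j L : ℕ} {ρ : ℝ} (hS : S.card = j) (hU : U.card ≤ L)
    (h0 : 0 ≤ ρ) (h1 : L * ρ ≤ 1) :
    ∑ S' ∈ (powersetCard j U).filter (fun S' => S' ≠ S), ρ ^ (S' \ S).card ≤
      2 ^ j * ((L * ρ) ^ j + (if 1 ≤ (S ∩ U).card then (L * ρ) ^ (j - 1) else 0)
        + (if 2 ≤ (S ∩ U).card then L * ρ else 0)) := by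
  have hσ : (0 : ℝ) ≤ L * ρ := by positivity
  have p1 : (0 : ℝ) ≤ (L * ρ) ^ j := by positivity
  have p2 : (0 : ℝ) ≤ (L * ρ) ^ (j - 1) := by positivity
  split_ifs with ha hb hb
  · refine (weight_le S U (e := 1) hS hU h0 h1 fun P _ hP => by omega).trans ?_
    rw [pow_one]
    exact mul_le_mul_of_nonneg_left (by linarith) (by positivity)
  · refine (weight_le S U (e := j - 1) hS hU h0 h1 fun P hP _ => ?_).trans ?_
    · have := card_le_card hP
      omega
    · exact mul_le_mul_of_nonneg_left (by linarith) (by positivity)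
  · omega
  · refine (weight_le S U (e := j) hS hU h0 h1 fun P hP _ => ?_).trans ?_
    · have := card_le_card hP
      omega
    · exact mul_le_mul_of_nonneg_left (by linarith) (by positivity)

theorem card_le_of_cover {α β : Type} [DecidableEq β] (Y : Finset β) (I : Finset α)
    (F : α → Finset β) {m : ℕ} (hF : ∀ i ∈ I, (F i).card ≤ m) (hY : ∀ y ∈ Y, ∃ i ∈ I, y ∈ F i) :
    Y.card ≤ I.card * m :=
  (card_le_card fun y hy => mem_biUnion.mpr (hY y hy)).trans (card_biUnion_le_card_mul I F m hF)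

end ConfAux

open ConfAux

theorem pConf : StConf := by
  intro G _ _ _ A T X R j L N Δ Λ ρ hLam hT hSel h0 h1 c hc
  obtain ⟨x, S⟩ := c
  simp only [fam, mem_filter, mem_univ, true_and] at hc
  obtain ⟨hxX, hSR, hS⟩ := hc
  obtain ⟨-, -, -, hlink⟩ := hSel x hxX
  have hσ : (0 : ℝ) ≤ L * ρ := by positivity
  have hconf : ∀ c' : G × Finset G, Conf (x, S) c' → ∃ t₀ ∈ S, ∃ t ∈ c'.2, x - t₀ = c'.1 - t :=
    fun c' h => by
      obtain ⟨a, ha, ha'⟩ := not_disjoint_iff.mp h.2
      obtain ⟨t₀, ht₀, e₀⟩ := mem_image.mp ha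
      obtain ⟨t, ht, e⟩ := mem_image.mp ha'
      exact ⟨t₀, ht₀, t, ht, e₀.trans e.symm⟩
  set F := (fam X R j).filter (Conf (x, S)) with hF
  rw [← sum_filter_add_sum_filter_not F (fun c' => c'.2 = S)]
  refine add_le_add ?_ ?_
  · have e1 : ∑ c' ∈ F.filter (fun c' => c'.2 = S), ρ ^ (c'.2 \ S).card =
        ((F.filter (fun c' => c'.2 = S)).card : ℝ) := by
      rw [sum_congr rfl (g := fun _ => (1 : ℝ)) fun c' hc' => by
        rw [(mem_filter.mp hc').2]; simp]
      simp
    rw [e1]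
    have : (F.filter (fun c' => c'.2 = S)).card ≤ (S ×ˢ S).card * 1 := by
      refine card_le_of_cover _ _ (fun q : G × G => {(x - q.1 + q.2, S)}) (fun _ _ => by simp)
        fun c' hc' => ?_
      obtain ⟨h2, h3⟩ := mem_filter.mp hc'
      obtain ⟨t₀, ht₀, t, ht, e⟩ := hconf c' (mem_filter.mp h2).2
      refine ⟨(t₀, t), mem_product.mpr ⟨ht₀, h3 ▸ ht⟩, mem_singleton.mpr (Prod.ext ?_ h3)⟩
      simp only [e, sub_add_cancel]
    rw [card_product, hS, mul_one, ← sq] at this
    exact_mod_cast this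
  · set Y : Finset G := univ.filter fun y => y ∉ X ∧ ∃ t₀ ∈ S, ∃ t ∈ R y, x - t₀ = y - t with hY
    have hmap : ∀ c' ∈ F.filter (fun c' => ¬ c'.2 = S), c'.1 ∈ Y := fun c' hc' => by
      obtain ⟨h2, h3⟩ := mem_filter.mp (mem_filter.mp hc').1
      simp only [fam, mem_filter, mem_univ, true_and] at h2
      obtain ⟨t₀, ht₀, t, ht, e⟩ := hconf c' h3
      exact mem_filter.mpr ⟨mem_univ _, h2.1, t₀, ht₀, t, h2.2.1 ht, e⟩
    rw [← sum_fiberwise_of_maps_to hmap]
    have hfib : ∀ y ∈ Y, ∑ c' ∈ (F.filter (fun c' => ¬ c'.2 = S)).filter (fun c' => c'.1 = y),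
        ρ ^ (c'.2 \ S).card ≤
        2 ^ j * ((L * ρ) ^ j + (if 1 ≤ (S ∩ R y).card then (L * ρ) ^ (j - 1) else 0)
          + (if 2 ≤ (S ∩ R y).card then L * ρ else 0)) := fun y hy => by
      have hyX := (mem_filter.mp hy).2.1
      refine le_trans ?_ (weight_le' S (R y) hS (hSel y hyX).2.1 h0 h1)
      rw [← sum_image (g := fun c' : G × Finset G => c'.2) (f := fun S' => ρ ^ (S' \ S).card)
        (fun c₁ h₁ c₂ h₂ h => ?_)]
      refine sum_le_sum_of_subset_of_nonneg (fun S' hS' => ?_) (fun _ _ _ => by positivity)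
      swap
      · exact Prod.ext ((mem_filter.mp (mem_coe.mp h₁)).2.trans
          (mem_filter.mp (mem_coe.mp h₂)).2.symm) h
      · obtain ⟨c', hc', rfl⟩ := mem_image.mp hS'
        obtain ⟨h2, h3⟩ := mem_filter.mp hc'
        obtain ⟨h4, h5⟩ := mem_filter.mp h2
        have h6 := (mem_filter.mp h4).1
        simp only [fam, mem_filter, mem_univ, true_and] at h6
        exact mem_filter.mpr ⟨mem_powersetCard.mpr ⟨h3 ▸ h6.2.1, h6.2.2⟩, h5⟩
    refine (sum_le_sum hfib).trans ?_
    rw [← mul_sum, sum_add_distrib, sum_add_distrib, sum_const, ← sum_filter, ← sum_filter,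
      sum_const, sum_const, nsmul_eq_mul, nsmul_eq_mul, nsmul_eq_mul]
    have hrep : ∀ y ∈ Y, ∀ t ∈ R y, t ∈ T ∧ y - t ∈ A := fun y hy t ht =>
      mem_filter.mp ((hSel y (mem_filter.mp hy).2.1).1 ht)
    have c0 : Y.card ≤ j * N := by
      have : Y.card ≤ S.card * N := by
        refine card_le_of_cover _ _ (fun t₀ => T.image fun t => x - t₀ + t)
          (fun _ _ => card_image_le.trans hT) fun y hy => ?_
        obtain ⟨t₀, ht₀, t, ht, e⟩ := (mem_filter.mp hy).2.2
        exact ⟨t₀, ht₀, mem_image.mpr ⟨t, (hrep y hy t ht).1, by rw [e, sub_add_cancel]⟩⟩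
      rwa [hS] at this
    have c1 : (Y.filter fun y => 1 ≤ (S ∩ R y).card).card ≤ j ^ 2 * Δ := by
      have : (Y.filter fun y => 1 ≤ (S ∩ R y).card).card ≤ (S ×ˢ S).card * Δ := by
        refine card_le_of_cover _ _
          (fun q : G × G => (A.filter fun a => q.1 + q.2 - x + a ∈ T).image fun a => q.1 + a)
          (fun q hq => card_image_le.trans ?_) fun y hy => ?_
        · have h2 := hlink q.1 (hSR (mem_product.mp hq).1) q.2 (hSR (mem_product.mp hq).2)
          simp only [Zs, mem_filter, mem_univ, true_and, not_lt] at h2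
          exact h2
        · obtain ⟨h2, h3⟩ := mem_filter.mp hy
          obtain ⟨t₀, ht₀, t', ht', e⟩ := (mem_filter.mp h2).2.2
          obtain ⟨t, ht⟩ := card_pos.mp h3
          refine ⟨(t, t₀), mem_product.mpr ⟨(mem_inter.mp ht).1, ht₀⟩, mem_image.mpr
            ⟨y - t, mem_filter.mpr ⟨(hrep y h2 t (mem_inter.mp ht).2).2, ?_⟩, by simp⟩⟩
          have e' : t + t₀ - x + (y - t) = t' := by
            have : y = x - t₀ + t' := by rw [e, sub_add_cancel]
            rw [this]; abel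
          rw [e']
          exact (hrep y h2 t' ht').1
      rwa [card_product, hS, ← sq] at this
    have c2 : (Y.filter fun y => 2 ≤ (S ∩ R y).card).card ≤ j ^ 2 * Λ := by
      have : (Y.filter fun y => 2 ≤ (S ∩ R y).card).card ≤ S.offDiag.card * Λ := by
        refine card_le_of_cover _ _
          (fun q : G × G => (A.filter fun a => a + (q.1 - q.2) ∈ A).image fun a => q.1 + a)
          (fun q hq => card_image_le.trans (hLam _ (sub_ne_zero.mpr (mem_offDiag.mp hq).2.2)))
          fun y hy => ?_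
        obtain ⟨h2, h3⟩ := mem_filter.mp hy
        obtain ⟨t, ht, t', ht', hne⟩ := one_lt_card.mp h3
        refine ⟨(t, t'), mem_offDiag.mpr ⟨(mem_inter.mp ht).1, (mem_inter.mp ht').1, hne⟩,
          mem_image.mpr ⟨y - t, mem_filter.mpr ⟨(hrep y h2 t (mem_inter.mp ht).2).2, ?_⟩, by simp⟩⟩
        rw [show y - t + (t - t') = y - t' by abel]
        exact (hrep y h2 t' (mem_inter.mp ht').2).2
      refine this.trans (Nat.mul_le_mul_right _ ?_)
      rw [offDiag_card, hS, sq]
      exact Nat.sub_le _ _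
    have r0 : (Y.card : ℝ) ≤ j * N := by exact_mod_cast c0
    have r1 : ((Y.filter fun y => 1 ≤ (S ∩ R y).card).card : ℝ) ≤ j ^ 2 * Δ := by
      exact_mod_cast c1
    have r2 : ((Y.filter fun y => 2 ≤ (S ∩ R y).card).card : ℝ) ≤ j ^ 2 * Λ + 1 := by
      have : ((Y.filter fun y => 2 ≤ (S ∩ R y).card).card : ℝ) ≤ j ^ 2 * Λ := by exact_mod_cast c2
      linarith
    gcongr

end Pool.Agent.P.MP_cb22e8_co.AC
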