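import Pool.Agent.P.MP_cb22e8_co.AC.Defs

/-!
The recursion for the uncovered fraction and the deterministic lower bound.
-/

open Finset

namespace Pool.Agent.P.MP_cb22e8_co.AC

namespace Det

lemma telescope (u X : ℕ → ℝ) (q c : ℝ) (h0 : u 0 = 1) :
    ∀ k : ℕ, (∀ i < k, u (i + 1) = q * u i - c * X i) →
      u k = q ^ k - c * ∑ i ∈ range k, q ^ (k - 1 - i) * X i := by
  intro k
  induction k with
  | zero => intro _; simp [h0]
  | succ k ih =>
    intro h
    have h1 := ih (fun i hi => h i (by omega))
    rw [h k (by omega), h1, sum_range_succ]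
    have h2 : ∑ i ∈ range k, q ^ (k + 1 - 1 - i) * X i =
        q * ∑ i ∈ range k, q ^ (k - 1 - i) * X i := by
      rw [mul_sum]
      refine sum_congr rfl fun i hi => ?_
      have hi' := mem_range.1 hi
      have : k + 1 - 1 - i = (k - 1 - i) + 1 := by omega
      rw [this, pow_succ]; ring
    rw [h2]
    have h3 : k + 1 - 1 - k = 0 := by omega
    rw [h3]; ring

section
variable {G : Type} [AddCommGroup G] [Fintype G] [DecidableEq G]

lemma mem_unc (B T : Finset G) (x : G) : x ∈ unc B T ↔ ∀ t ∈ T, x - t ∉ B := by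
  simp [unc, rep, filter_eq_empty_iff]

lemma card_unc_insert (B T : Finset G) (b : G) :
    (unc (insert b B) T).card + (T.filter fun t => b + t ∈ unc B T).card = (unc B T).card := by
  have h1 : (T.filter fun t => b + t ∈ unc B T).card =
      ((unc B T).filter fun x => x - b ∈ T).card := by
    refine card_bij (fun t _ => b + t) ?_ ?_ ?_
    · intro t ht
      rw [mem_filter] at ht ⊢
      exact ⟨ht.2, by simpa using ht.1⟩
    · intro t _ t' _ h
      exact add_left_cancel h
    · intro x hx
      rw [mem_filter] at hx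
      exact ⟨x - b, mem_filter.2 ⟨hx.2, by simpa using hx.1⟩, by simp⟩
  have h2 : unc (insert b B) T = (unc B T).filter fun x => ¬ (x - b ∈ T) := by
    ext x
    rw [mem_filter, mem_unc, mem_unc]
    constructor
    · intro h
      refine ⟨fun t ht hb => h t ht (mem_insert_of_mem hb), fun hb => h _ hb ?_⟩
      simp
    · rintro ⟨h, hb⟩ t ht hm
      rcases mem_insert.1 hm with h' | h'
      · apply hb
        have : x - b = t := by rw [← h']; simp
        rw [this]; exact ht
      · exact h t ht h'
  rw [h1, h2, add_comm]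
  exact card_filter_add_card_filter_not _

omit [AddCommGroup G] [Fintype G] in
lemma pre_zero {k : ℕ} (a : Fin k → G) : pre a 0 = ∅ := by simp [pre]

omit [AddCommGroup G] [Fintype G] in
lemma pre_top {k : ℕ} (a : Fin k → G) : pre a k = img a := by
  unfold pre img
  congr 1
  exact filter_true_of_mem fun s _ => s.2

omit [AddCommGroup G] [Fintype G] in
lemma pre_succ {k : ℕ} (a : Fin k → G) (i : Fin k) :
    pre a (i + 1) = insert (a i) (pre a i) := by
  ext x
  simp only [pre, mem_image, mem_filter, mem_univ, true_and, mem_insert]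
  constructor
  · rintro ⟨s, hs, rfl⟩
    by_cases h : (s : ℕ) < i
    · exact Or.inr ⟨s, h, rfl⟩
    · have : s = i := Fin.ext (by omega)
      exact Or.inl (by rw [this])
  · rintro (rfl | ⟨s, hs, rfl⟩)
    · exact ⟨i, by omega, rfl⟩
    · exact ⟨s, by omega, rfl⟩

omit [AddCommGroup G] [Fintype G] in
lemma pre_subset {k : ℕ} (a : Fin k → G) (i : ℕ) : pre a i ⊆ img a :=
  image_subset_image (filter_subset _ _)

end

section
variable {Ω : Type} [Fintype Ω]

lemma av_mono {f g : Ω → ℝ} (h : ∀ ω, f ω ≤ g ω) : av f ≤ av g :=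
  div_le_div_of_nonneg_right (sum_le_sum fun ω _ => h ω) (Nat.cast_nonneg _)

lemma av_add (f g : Ω → ℝ) : (av fun ω => f ω + g ω) = av f + av g := by
  simp only [av, sum_add_distrib, add_div]

lemma av_sub (f g : Ω → ℝ) : (av fun ω => f ω - g ω) = av f - av g := by
  simp only [av, sum_sub_distrib, sub_div]

lemma av_mul (c : ℝ) (f : Ω → ℝ) : (av fun ω => c * f ω) = c * av f := by
  simp only [av, ← mul_sum, mul_div_assoc]

lemma av_sum {ι : Type} (s : Finset ι) (f : ι → Ω → ℝ) :
    (av fun ω => ∑ i ∈ s, f i ω) = ∑ i ∈ s, av (f i) := by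
  simp only [av]
  rw [sum_comm, sum_div]

lemma av_const [Nonempty Ω] (c : ℝ) : (av fun _ : Ω => c) = c := by
  have : (Fintype.card Ω : ℝ) ≠ 0 := by exact_mod_cast Fintype.card_ne_zero
  simp only [av, sum_const, card_univ, nsmul_eq_mul]
  field_simp

lemma av_nonneg {f : Ω → ℝ} (h : ∀ ω, 0 ≤ f ω) : 0 ≤ av f :=
  div_nonneg (sum_nonneg fun ω _ => h ω) (Nat.cast_nonneg _)

end

lemma clip_nonneg (x : ℝ) : 0 ≤ clip x := le_max_left _ _

lemma clip_le (x : ℝ) : clip x ≤ 1 := max_le zero_le_one (min_le_right _ _)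

end Det

open Det

theorem pRec : StRec := by
  intro G _ _ _ k N a T hT hN
  have hn : (0 : ℝ) < Fintype.card G := by exact_mod_cast Fintype.card_pos
  have hN' : (0 : ℝ) < N := by exact_mod_cast hN
  have key := telescope (fun i => ((unc (pre a i) T).card : ℝ) / Fintype.card G)
    (fun i => if h : i < k then
      (((T.filter fun t => a ⟨i, h⟩ + t ∈ unc (pre a i) T).card : ℝ) / N -
        ((unc (pre a i) T).card : ℝ) / Fintype.card G) else 0)
    (1 - (N : ℝ) / Fintype.card G) ((N : ℝ) / Fintype.card G) ?_ k ?_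
  · simp only [pre_top] at key
    rw [key, ← Fin.sum_univ_eq_sum_range (fun i => (1 - (N : ℝ) / Fintype.card G) ^ (k - 1 - i) *
      (if h : i < k then
        (((T.filter fun t => a ⟨i, h⟩ + t ∈ unc (pre a i) T).card : ℝ) / N -
          ((unc (pre a i) T).card : ℝ) / Fintype.card G) else 0)) k]
    congr 2
    refine sum_congr rfl fun i _ => ?_
    rw [dif_pos i.2]
  · have : unc (pre a 0) T = univ := by
      ext x
      simp [mem_unc, pre_zero]
    simp only [this, card_univ]
    exact div_self hn.ne'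
  · intro i hi
    simp only [dif_pos hi]
    have h1 := pre_succ a ⟨i, hi⟩
    simp only at h1
    have h2 := card_unc_insert (pre a i) T (a ⟨i, hi⟩)
    rw [← h1] at h2
    have h3 : ((unc (pre a (i + 1)) T).card : ℝ) = (unc (pre a i) T).card -
        ((T.filter fun t => a ⟨i, hi⟩ + t ∈ unc (pre a i) T).card : ℝ) := by
      rw [← h2]; push_cast; ring
    rw [h3]
    field_simp
    ring

theorem pDet (h1 : StOne) (h2 : StSize) (h3 : StRec) : StDet := by
  intro G _ _ _ k J L N Δ s a T η ε τ hT hN hL hs hη hε hτ hpar hZ hM hQ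
  have hn : (0 : ℝ) < Fintype.card G := by exact_mod_cast Fintype.card_pos
  have hN' : (0 : ℝ) < N := by exact_mod_cast hN
  have : Nonempty (Fin L) := ⟨⟨0, hL⟩⟩
  have : Nonempty (Lab G J L) := inferInstance
  have hNn : (N : ℝ) ≤ Fintype.card G := by
    rw [← hT]; exact_mod_cast card_le_univ T
  set q : ℝ := 1 - (N : ℝ) / Fintype.card G with hq
  have hq0 : 0 ≤ q := by
    rw [hq, sub_nonneg, div_le_one hn]; exact hNn
  have hq1 : q ≤ 1 := by
    rw [hq]; linarith [div_nonneg hN'.le hn.le]
  set Z := Zs (img a) T Δ with hZdef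
  set w : Fin k → ℝ := fun i => q ^ (k - 1 - i) with hw
  have hw0 : ∀ i, 0 ≤ w i := fun i => pow_nonneg hq0 _
  have hw1 : ∀ i, w i ≤ 1 := fun i => pow_le_one₀ hq0 hq1
  set e : ℝ := τ + 2 * ε + (N : ℝ) * Z.card / Fintype.card G with he
  have he0 : 0 ≤ e := by rw [he]; positivity
  set D : Fin k → Lab G J L → ℝ := fun i c =>
    fL N (pre a i) Z T c (a i) - av fun y => fL N (pre a i) Z T c y with hD
  have hX : ∀ i : Fin k, ((T.filter fun t => a i + t ∈ unc (pre a i) T).card : ℝ) / N -
      ((unc (pre a i) T).card : ℝ) / Fintype.card G ≤ av (D i) + e := by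
    intro i
    obtain ⟨ha, hb⟩ := h1 G (img a) (pre a i) T J L N Δ ε (pre_subset a i) hT hN hL hε hpar
    have ha' := ha (a i)
    have hc := hQ (pre a i) (pre_subset a i)
    have hd : (∑ x, Qf L J (rep (pre a i) T x).card) / Fintype.card G ≤
        ((unc (pre a i) T).card : ℝ) / Fintype.card G + τ := by
      rw [div_le_iff₀ hn, add_mul, div_mul_cancel₀ _ hn.ne']
      exact hc
    have hav : av (D i) = (av fun c : Lab G J L => fL N (pre a i) Z T c (a i)) -
        av fun c : Lab G J L => av fun y => fL N (pre a i) Z T c y := av_sub _ _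
    rw [hav, he]
    linarith
  have hpt : ∀ c : Lab G J L, ∑ i, w i * D i c ≤
      η * k + k * ind (∃ o, s < (lab T c o).card) := by
    intro c
    by_cases hc : ∃ o, s < (lab T c o).card
    · have hi : ind (∃ o, s < (lab T c o).card) = 1 := by simp only [ind, if_pos hc]
      have hle : ∑ i, w i * D i c ≤ ∑ _i : Fin k, (1 : ℝ) := by
        refine sum_le_sum fun i _ => ?_
        have hD1 : D i c ≤ 1 := by
          have e1 : fL N (pre a i) Z T c (a i) ≤ 1 := clip_le _
          have e2 : 0 ≤ av fun y => fL N (pre a i) Z T c y := av_nonneg fun y => clip_nonneg _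
          simp only [hD]; linarith
        calc w i * D i c ≤ w i * 1 := mul_le_mul_of_nonneg_left hD1 (hw0 i)
          _ ≤ 1 := by rw [mul_one]; exact hw1 i
      simp only [sum_const, card_univ, Fintype.card_fin, nsmul_eq_mul, mul_one] at hle
      rw [hi]
      have : 0 ≤ η * k := by positivity
      linarith
    · have hi : ind (∃ o, s < (lab T c o).card) = 0 := by simp only [ind, if_neg hc]
      push Not at hc
      have := hM Z (lab T c none) (fun l => lab T c (some l)) hZ (hc none) (fun l => hc (some l))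
      rw [hi, mul_zero, add_zero]
      exact this
  have hsum : ∑ i, w i * av (D i) ≤ η * k + k * ((2 * J + 1) * (N : ℝ) / (L * s)) := by
    have e1 : ∑ i, w i * av (D i) = av fun c : Lab G J L => ∑ i, w i * D i c := by
      rw [av_sum]
      exact sum_congr rfl fun i _ => (av_mul _ _).symm
    have e2 := av_mono hpt
    rw [av_add, av_const, av_mul] at e2
    have e3 := h2 G T J L s hL hs
    rw [hT] at e3
    have e4 := mul_le_mul_of_nonneg_left e3 (Nat.cast_nonneg (α := ℝ) k)
    rw [e1]
    linarith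
  have htot : ∑ i : Fin k, w i * (((T.filter fun t => a i + t ∈ unc (pre a i) T).card : ℝ) / N -
      ((unc (pre a i) T).card : ℝ) / Fintype.card G) ≤
      k * (η + τ + 2 * ε + (N : ℝ) * Z.card / Fintype.card G +
        (2 * J + 1) * (N : ℝ) / (L * s)) := by
    have e1 : ∑ i : Fin k, w i * (((T.filter fun t => a i + t ∈ unc (pre a i) T).card : ℝ) / N -
        ((unc (pre a i) T).card : ℝ) / Fintype.card G) ≤ ∑ i : Fin k, (w i * av (D i) + e) := by
      refine sum_le_sum fun i _ => ?_
      have f1 := mul_le_mul_of_nonneg_left (hX i) (hw0 i)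
      have f2 : w i * e ≤ e := by
        calc w i * e ≤ 1 * e := mul_le_mul_of_nonneg_right (hw1 i) he0
          _ = e := one_mul e
      rw [mul_add] at f1
      linarith
    rw [sum_add_distrib] at e1
    simp only [sum_const, card_univ, Fintype.card_fin, nsmul_eq_mul] at e1
    have e2 : (k : ℝ) * (η + τ + 2 * ε + (N : ℝ) * Z.card / Fintype.card G +
        (2 * J + 1) * (N : ℝ) / (L * s)) =
        η * k + k * ((2 * J + 1) * (N : ℝ) / (L * s)) + k * e := by
      rw [he]; ring
    rw [e2]
    linarith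
  rw [h3 G k N a T hT hN]
  have e5 := mul_le_mul_of_nonneg_left htot (div_nonneg hN'.le hn.le)
  have e6 : (N : ℝ) * k / Fintype.card G * (η + τ + 2 * ε + (N : ℝ) * Z.card / Fintype.card G +
      (2 * J + 1) * (N : ℝ) / (L * s)) = (N : ℝ) / Fintype.card G *
      (k * (η + τ + 2 * ε + (N : ℝ) * Z.card / Fintype.card G +
        (2 * J + 1) * (N : ℝ) / (L * s))) := by ring
  rw [e6]
  linarith

end Pool.Agent.P.MP_cb22e8_co.AC
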