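import Pool.Agent.P.MP_cb22e8_co.AC.Defs

/-!
Mean square error of the estimator.
-/

open Finset

namespace Pool.Agent.P.MP_cb22e8_co.AC

namespace Est

section av
variable {Ω : Type} [Fintype Ω]

theorem av_mono {f g : Ω → ℝ} (h : ∀ ω, f ω ≤ g ω) : av f ≤ av g :=
  div_le_div_of_nonneg_right (sum_le_sum fun ω _ => h ω) (Nat.cast_nonneg _)

theorem av_nonneg {f : Ω → ℝ} (h : ∀ ω, 0 ≤ f ω) : 0 ≤ av f :=
  div_nonneg (sum_nonneg fun ω _ => h ω) (Nat.cast_nonneg _)

theorem av_add (f g : Ω → ℝ) : (av fun ω => f ω + g ω) = av f + av g := by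
  unfold av; rw [sum_add_distrib, add_div]

theorem av_mul (r : ℝ) (f : Ω → ℝ) : (av fun ω => r * f ω) = r * av f := by
  unfold av; rw [← mul_sum, mul_div_assoc]

theorem av_sum {τ : Type} (s : Finset τ) (f : τ → Ω → ℝ) :
    (av fun ω => ∑ t ∈ s, f t ω) = ∑ t ∈ s, av (f t) := by
  unfold av; rw [sum_comm, sum_div]

end av

theorem sum_ind (L : ℕ) (hL : 1 ≤ L) : ∑ x : Fin L, ind ((x : ℕ) = 0) = 1 := by
  rw [Finset.sum_eq_single (⟨0, hL⟩ : Fin L)]
  · simp [ind]
  · intro b _ hb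
    have : ¬ (b : ℕ) = 0 := fun h => hb (Fin.ext h)
    simp [ind, this]
  · simp

theorem av_e (L : ℕ) (hL : 1 ≤ L) : (av fun x : Fin L => (L : ℝ) * ind ((x : ℕ) = 0) - 1) = 0 := by
  unfold av
  rw [sum_sub_distrib, ← mul_sum, sum_ind L hL]
  simp

theorem av_e2 (L : ℕ) (hL : 1 ≤ L) :
    (av fun x : Fin L => ((L : ℝ) * ind ((x : ℕ) = 0) - 1) ^ 2) ≤ L := by
  have hL' : (0 : ℝ) < L := by exact_mod_cast hL
  have h1 : (1 : ℝ) ≤ L := by exact_mod_cast hL
  have : ∀ x : Fin L, ((L : ℝ) * ind ((x : ℕ) = 0) - 1) ^ 2 =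
      ((L : ℝ) ^ 2 - 2 * L) * ind ((x : ℕ) = 0) + 1 := by
    intro x
    unfold ind
    split_ifs <;> ring
  unfold av
  simp only [this]
  rw [sum_add_distrib, ← mul_sum, sum_ind L hL]
  simp only [sum_const, card_univ, Fintype.card_fin, nsmul_eq_mul, mul_one]
  rw [div_le_iff₀ hL']
  nlinarith

section main
variable {G : Type} [AddCommGroup G] [Fintype G] [DecidableEq G]

theorem psi_eq {J L : ℕ} (B Z T : Finset G) (c : Lab G J L) (y t : G) :
    psi L J B Z (fun l => lab T c (some l)) y t = psiL (nb B Z T y t) c := by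
  unfold psi psiL
  refine prod_congr rfl fun l _ => ?_
  have : (nb B Z (lab T c (some l)) y t).Nonempty ↔
      ∃ t' ∈ nb B Z T y t, (c (some l, t') : ℕ) = 0 := by
    simp only [nb, lab, Finset.Nonempty, mem_filter]
    constructor
    · rintro ⟨x, ⟨h1, h2⟩, h3⟩
      exact ⟨x, ⟨h1, h3⟩, h2⟩
    · rintro ⟨x, ⟨h1, h3⟩, h2⟩
      exact ⟨x, ⟨h1, h2⟩, h3⟩
  rw [this]

theorem psiL_dep {J L : ℕ} (D : Finset G) :
    DepOn (psiL (J := J) (L := L) D)
      (((univ : Finset (Fin J × Bool)).image some) ×ˢ D) := by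
  intro c c' h
  unfold psiL
  refine prod_congr rfl fun l _ => ?_
  have : (∃ t' ∈ D, (c (some l, t') : ℕ) = 0) ↔ ∃ t' ∈ D, (c' (some l, t') : ℕ) = 0 := by
    refine exists_congr fun t' => and_congr_right fun ht => ?_
    rw [h (some l, t') (by simp [ht])]
  rw [this]

theorem est_eq {J L : ℕ} (N : ℕ) (B Z T : Finset G) (c : Lab G J L) (y : G) :
    est L J N B Z (lab T c none) (fun l => lab T c (some l)) y =
      (∑ t ∈ T, (L : ℝ) * ind ((c (none, t) : ℕ) = 0) * psiL (nb B Z T y t) c) / N := by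
  unfold est
  simp only [psi_eq]
  have : ∑ t ∈ lab T c none, psiL (nb B Z T y t) c =
      ∑ t ∈ T, ind ((c (none, t) : ℕ) = 0) * psiL (nb B Z T y t) c := by
    unfold lab
    rw [sum_filter]
    refine sum_congr rfl fun t _ => ?_
    unfold ind
    split_ifs <;> simp
  rw [this, div_mul_eq_mul_div, mul_sum]
  congr 1
  exact sum_congr rfl fun t _ => by ring

theorem count (A B T : Finset G) (hB : B ⊆ A) (J Δ : ℕ) (y t : G) :
    (T.filter fun t' => ¬ Disjoint
      (((univ : Finset (Fin J × Bool)).image some) ×ˢ nb B (Zs A T Δ) T y t)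
      (((univ : Finset (Fin J × Bool)).image some) ×ˢ nb B (Zs A T Δ) T y t')).card ≤
      (nb B (Zs A T Δ) T y t).card * Δ := by
  have hsub : (T.filter fun t' => ¬ Disjoint
      (((univ : Finset (Fin J × Bool)).image some) ×ˢ nb B (Zs A T Δ) T y t)
      (((univ : Finset (Fin J × Bool)).image some) ×ˢ nb B (Zs A T Δ) T y t')) ⊆
      (nb B (Zs A T Δ) T y t).biUnion fun u =>
        (A.filter fun a => (u - y) + a ∈ T).image fun a => (u - y) + a := by
    intro t' ht'
    rw [mem_filter, not_disjoint_iff] at ht'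
    obtain ⟨hT, ⟨o, u⟩, h1, h2⟩ := ht'
    rw [mem_product] at h1 h2
    have h3 := h2.2
    simp only [nb, mem_filter] at h3
    rw [mem_biUnion]
    refine ⟨u, h1.2, mem_image.2 ⟨y + t' - u, mem_filter.2 ⟨hB h3.2.1, ?_⟩, by abel⟩⟩
    have : u - y + (y + t' - u) = t' := by abel
    rw [this]; exact hT
  refine (card_le_card hsub).trans (card_biUnion_le.trans ?_)
  refine (sum_le_card_nsmul _ _ Δ fun u hu => ?_).trans (by simp)
  refine card_image_le.trans ?_
  simp only [nb, Zs, mem_filter, mem_univ, true_and, not_lt, dif] at hu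
  exact hu.2.2

theorem first (h1 : StProd) (h2 : StCoord) (h4 : StPsi) {J L : ℕ} (hL : 1 ≤ L) (T : Finset G)
    (D : G → Finset G) :
    (av fun c : Lab G J L =>
      (∑ t ∈ T, ((L : ℝ) * ind ((c (none, t) : ℕ) = 0) - 1) * psiL (D t) c) ^ 2) ≤
      T.card * (L : ℝ) ^ (4 * J + 1) := by
  haveI : Nonempty (Fin L) := ⟨⟨0, hL⟩⟩
  simp only [sq, sum_mul_sum]
  rw [av_sum]
  refine (sum_le_card_nsmul _ _ ((L : ℝ) ^ (4 * J + 1)) fun t ht => ?_).trans (by simp)
  rw [av_sum, sum_eq_single t]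
  · have hb : ∀ c : Lab G J L,
        ((L : ℝ) * ind ((c (none, t) : ℕ) = 0) - 1) * psiL (D t) c *
          (((L : ℝ) * ind ((c (none, t) : ℕ) = 0) - 1) * psiL (D t) c) ≤
        (L : ℝ) ^ (4 * J) * ((L : ℝ) * ind ((c (none, t) : ℕ) = 0) - 1) ^ 2 := by
      intro c
      have h := (h4 G J L (D t) hL).1 c
      have h' : psiL (D t) c ^ 2 ≤ (L : ℝ) ^ (4 * J) := by
        have := pow_le_pow_left₀ (abs_nonneg _) h 2
        rw [sq_abs, ← pow_mul] at this
        rwa [show 4 * J = 2 * J * 2 by ring]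
      have h0 := sq_nonneg ((L : ℝ) * ind ((c (none, t) : ℕ) = 0) - 1)
      nlinarith [mul_le_mul_of_nonneg_right h' h0]
    refine (av_mono hb).trans ?_
    rw [av_mul, pow_succ]
    refine mul_le_mul_of_nonneg_left ?_ (by positivity)
    have := h2 (Option (Fin J × Bool) × G) (Fin L) (none, t)
      fun x => ((L : ℝ) * ind ((x : ℕ) = 0) - 1) ^ 2
    exact this.le.trans (av_e2 L hL)
  · intro t' _ hne
    have hp := h1 (Option (Fin J × Bool) × G) (Fin L) Bool univ
      (fun b c => cond b ((L : ℝ) * ind ((c (none, t) : ℕ) = 0) - 1)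
        (psiL (D t) c * (((L : ℝ) * ind ((c (none, t') : ℕ) = 0) - 1) * psiL (D t') c)))
      (fun b => cond b {(none, t)} (univ.erase (none, t))) ?_ ?_
    · simp only [Fintype.prod_bool, cond_true, cond_false] at hp
      have hz := h2 (Option (Fin J × Bool) × G) (Fin L) (none, t)
        fun x => (L : ℝ) * ind ((x : ℕ) = 0) - 1
      rw [av_e L hL] at hz
      rw [hz, zero_mul] at hp
      rw [← hp]
      congr 1
      funext c
      ring
    · rintro (_ | _) _ c c' h
      · simp only [cond_false] at h ⊢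
        rw [psiL_dep (D t) c c' fun i hi => h i ?_, psiL_dep (D t') c c' fun i hi => h i ?_,
          h (none, t') (by simp [hne])]
        · rw [mem_erase]
          refine ⟨?_, mem_univ _⟩
          rintro rfl
          simp at hi
        · rw [mem_erase]
          refine ⟨?_, mem_univ _⟩
          rintro rfl
          simp at hi
      · simp only [cond_true] at h ⊢
        rw [h (none, t) (by simp)]
    · rintro (_ | _) _ (_ | _) _ h
      · exact absurd rfl h
      · simp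
      · simp
      · exact absurd rfl h
  · intro h; exact absurd ht h

theorem second (h3 : StVar) (h4 : StPsi) {J L : ℕ} (hL : 1 ≤ L) (A B T : Finset G) (hB : B ⊆ A)
    (Δ : ℕ) (y : G) :
    (av fun c : Lab G J L =>
      (∑ t ∈ T, (psiL (nb B (Zs A T Δ) T y t) c - Qf L J (nb B (Zs A T Δ) T y t).card)) ^ 2) ≤
      T.card * (8 * J * (L : ℝ) ^ (4 * J + 1) * Δ) := by
  haveI : Nonempty (Fin L) := ⟨⟨0, hL⟩⟩
  have hv := h3 (Option (Fin J × Bool) × G) (Fin L) G T
    (fun t => psiL (J := J) (L := L) (nb B (Zs A T Δ) T y t))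
    (fun t => ((univ : Finset (Fin J × Bool)).image some) ×ˢ nb B (Zs A T Δ) T y t)
    fun t _ => psiL_dep _
  have hm : ∀ t, av (psiL (J := J) (L := L) (nb B (Zs A T Δ) T y t)) =
      Qf L J (nb B (Zs A T Δ) T y t).card := fun t => (h4 G J L _ hL).2.1
  simp only [hm] at hv
  refine hv.trans ?_
  refine (sum_le_card_nsmul _ _ (8 * J * (L : ℝ) ^ (4 * J + 1) * Δ) fun t _ => ?_).trans (by simp)
  have hc := count A B T hB J Δ y t
  have hc' : (((T.filter fun t' => ¬ Disjoint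
      (((univ : Finset (Fin J × Bool)).image some) ×ˢ nb B (Zs A T Δ) T y t)
      (((univ : Finset (Fin J × Bool)).image some) ×ˢ nb B (Zs A T Δ) T y t')).card : ℕ) : ℝ) ≤
      ((nb B (Zs A T Δ) T y t).card : ℝ) * Δ := by exact_mod_cast hc
  have h5 := (h4 G J L (nb B (Zs A T Δ) T y t) hL).2.2
  have h0 : 0 ≤ av fun c : Lab G J L =>
      (psiL (nb B (Zs A T Δ) T y t) c - Qf L J (nb B (Zs A T Δ) T y t).card) ^ 2 :=
    av_nonneg fun _ => sq_nonneg _
  refine (mul_le_mul_of_nonneg_left (le_of_eq_of_le (by congr) hc') h0).trans ?_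
  have hΔ : (0 : ℝ) ≤ Δ := Nat.cast_nonneg _
  nlinarith [mul_le_mul_of_nonneg_right h5 hΔ]

end main

end Est

theorem pEst (h1 : StProd) (h2 : StCoord) (h3 : StVar) (h4 : StPsi) : StEst := by
  intro G _ _ _ A B T J L N Δ y hB hT hN hL
  have hN' : (0 : ℝ) < N := by exact_mod_cast hN
  have hf := Est.first (J := J) h1 h2 h4 hL T fun t => nb B (Zs A T Δ) T y t
  have hs := Est.second (J := J) h3 h4 hL A B T hB Δ y
  rw [hT] at hf hs
  have hb : ∀ c : Lab G J L,
      (est L J N B (Zs A T Δ) (lab T c none) (fun l => lab T c (some l)) y -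
        (∑ t ∈ T, Qf L J (nb B (Zs A T Δ) T y t).card) / N) ^ 2 ≤
      2 / (N : ℝ) ^ 2 * (∑ t ∈ T, ((L : ℝ) * ind ((c (none, t) : ℕ) = 0) - 1) *
          psiL (nb B (Zs A T Δ) T y t) c) ^ 2 +
      2 / (N : ℝ) ^ 2 * (∑ t ∈ T, (psiL (nb B (Zs A T Δ) T y t) c -
          Qf L J (nb B (Zs A T Δ) T y t).card)) ^ 2 := by
    intro c
    rw [Est.est_eq, ← sub_div, ← sum_sub_distrib]
    have : ∑ t ∈ T, ((L : ℝ) * ind ((c (none, t) : ℕ) = 0) * psiL (nb B (Zs A T Δ) T y t) c -
        Qf L J (nb B (Zs A T Δ) T y t).card) =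
        (∑ t ∈ T, ((L : ℝ) * ind ((c (none, t) : ℕ) = 0) - 1) * psiL (nb B (Zs A T Δ) T y t) c) +
        ∑ t ∈ T, (psiL (nb B (Zs A T Δ) T y t) c - Qf L J (nb B (Zs A T Δ) T y t).card) := by
      rw [← sum_add_distrib]
      exact sum_congr rfl fun t _ => by ring
    rw [this]
    generalize (∑ t ∈ T, ((L : ℝ) * ind ((c (none, t) : ℕ) = 0) - 1) *
      psiL (nb B (Zs A T Δ) T y t) c) = u
    generalize (∑ t ∈ T, (psiL (nb B (Zs A T Δ) T y t) c -
      Qf L J (nb B (Zs A T Δ) T y t).card)) = v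
    rw [div_pow, ← mul_add, div_mul_eq_mul_div]
    refine div_le_div_of_nonneg_right ?_ (by positivity)
    nlinarith [sq_nonneg (u - v)]
  refine (Est.av_mono hb).trans ?_
  rw [Est.av_add, Est.av_mul, Est.av_mul]
  have h0 : (0 : ℝ) ≤ 2 / (N : ℝ) ^ 2 := by positivity
  refine (add_le_add (mul_le_mul_of_nonneg_left hf h0) (mul_le_mul_of_nonneg_left hs h0)).trans
    (le_of_eq ?_)
  field_simp

end Pool.Agent.P.MP_cb22e8_co.AC
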