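import Pool.Agent.P.MP_cb22e8_co.AC.Defs

open Finset

namespace Pool.Agent.P.MP_cb22e8_co.AC

theorem pGreedy : StGreedy := by
  intro α _ adj _ V d hs hl hd
  obtain ⟨I, hI, hmax⟩ := (V.powerset.filter fun I => ∀ u ∈ I, ∀ v ∈ I, ¬ adj u v).exists_max_image
    card ⟨∅, by simp⟩
  obtain ⟨h1, h2⟩ := mem_filter.1 hI
  rw [mem_powerset] at h1
  refine ⟨I, h1, h2, ?_⟩
  have h3 : V ⊆ I.biUnion fun u => insert u (V.filter (adj u)) := by
    intro v hv
    by_contra h4
    simp only [mem_biUnion, mem_insert, mem_filter, not_exists, not_and, not_or] at h4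
    have h5 : v ∉ I := fun h => (h4 v h).1 rfl
    have h6 := hmax (insert v I) (mem_filter.2 ⟨mem_powerset.2 (insert_subset hv h1), by
      intro a ha b hb
      rcases mem_insert.1 ha with rfl | ha' <;> rcases mem_insert.1 hb with rfl | hb'
      · exact hl _
      · exact fun h => (h4 b hb').2 hv (hs _ _ h)
      · exact (h4 a ha').2 hv
      · exact h2 a ha' b hb'⟩)
    rw [card_insert_of_notMem h5] at h6
    omega
  refine (card_le_card h3).trans (card_biUnion_le.trans ?_)
  rw [mul_comm, ← smul_eq_mul]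
  exact sum_le_card_nsmul _ _ _ fun u hu =>
    (card_insert_le _ _).trans (Nat.succ_le_succ (hd u (h1 hu)))

theorem pGreedy2 : StGreedy2 := by
  intro α _ adj _ V d hs hl hd
  let p : α → Prop := fun v => (V.filter (adj v)).card ≤ d
  obtain ⟨I, h1, h2, h3⟩ := pGreedy α adj (V.filter p) d hs hl fun v hv =>
    (card_le_card (filter_subset_filter _ (filter_subset _ _))).trans (mem_filter.1 hv).2
  refine ⟨I, h1.trans (filter_subset _ _), h2, ?_⟩
  have h4 : (d : ℝ) * (V.filter fun v => ¬ p v).card ≤ ∑ v ∈ V, ((V.filter (adj v)).card : ℝ) := by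
    rw [mul_comm, ← nsmul_eq_mul]
    refine (card_nsmul_le_sum _ (fun v => ((V.filter (adj v)).card : ℝ)) _ fun v hv => ?_).trans
      (sum_le_sum_of_subset_of_nonneg (filter_subset _ _) fun _ _ _ => Nat.cast_nonneg _)
    exact_mod_cast (not_le.1 (mem_filter.1 hv).2).le
  have h5 : ((V.filter p).card : ℝ) + (V.filter fun v => ¬ p v).card = V.card := by
    exact_mod_cast card_filter_add_card_filter_not p
  have h6 : ((V.filter p).card : ℝ) ≤ (d + 1) * I.card := by exact_mod_cast h3
  have h7 : ((V.filter fun v => ¬ p v).card : ℝ) ≤ (∑ v ∈ V, ((V.filter (adj v)).card : ℝ)) / d := by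
    rw [le_div_iff₀ (by exact_mod_cast hd), mul_comm]
    exact h4
  linarith

theorem pLam (h : StGreedy) : StLam := by
  intro G _ _ _ A M hA d hd
  obtain ⟨I, h1, h2, h3⟩ := h G (fun a b => a ≠ b ∧ (b = a + d ∨ a = b + d))
    (A.filter fun a => a + d ∈ A) 2 (fun u v h => ⟨h.1.symm, h.2.symm⟩) (fun u h => h.1 rfl)
    fun v _ => (card_le_card (t := {v + d, v - d}) fun b hb => by
      rcases (mem_filter.1 hb).2.2 with e | e <;> simp [e]).trans card_le_two
  have e : ∀ a : G, aset (a + d, ({0, d} : Finset G)) = {a + d, a} := fun a => by simp [aset]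
  have h4 := hA {0, d} card_le_two (I.image fun a => (a + d, ({0, d} : Finset G)))
    (fun c hc => by
      obtain ⟨a, ha, rfl⟩ := mem_image.1 hc
      have := mem_filter.1 (h1 ha)
      refine ⟨Subset.rfl, card_pair hd.symm, ?_⟩
      rw [e]
      exact insert_subset this.2 (singleton_subset_iff.2 this.1))
    fun c hc c' hc' hC => by
      obtain ⟨a, ha, rfl⟩ := mem_image.1 hc
      obtain ⟨b, hb, rfl⟩ := mem_image.1 hc'
      have h5 : a ≠ b := fun h6 => hC.1 (by rw [h6])
      refine hC.2 ?_
      rw [e, e, disjoint_left]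
      intro x hx hx'
      simp only [mem_insert, mem_singleton] at hx hx'
      rcases hx with rfl | rfl <;> rcases hx' with k | k
      · exact h5 (add_right_cancel k)
      · exact h2 a ha b hb ⟨h5, Or.inl k.symm⟩
      · exact h2 x ha b hb ⟨h5, Or.inr k⟩
      · exact h5 k
  rw [card_image_of_injective _ fun a b k => add_right_cancel (Prod.ext_iff.1 k).1] at h4
  omega

end Pool.Agent.P.MP_cb22e8_co.AC
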