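import Pool.Agent.P.MP_cb22e8_co.AC.Defs

/-!
The Azuma–Hoeffding bound for a uniformly random sequence and the union bound over all small
fingerprints.
-/

open Finset

namespace Pool.Agent.P.MP_cb22e8_co.AC

namespace Mart

theorem sum_update {G : Type} [Fintype G] {k : ℕ} (i : Fin k) (f : (Fin k → G) → ℝ) :
    ∑ a : Fin k → G, ∑ y : G, f (Function.update a i y) =
      Fintype.card G * ∑ a : Fin k → G, f a := by
  have hinv : Function.Involutive
      (fun p : (Fin k → G) × G => (Function.update p.1 i p.2, p.1 i)) := by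
    intro p
    simp
  have h1 : ∑ p : (Fin k → G) × G, f (Function.update p.1 i p.2) =
      ∑ p : (Fin k → G) × G, f p.1 :=
    Fintype.sum_equiv hinv.toPerm _ _ (fun p => rfl)
  rw [Fintype.sum_prod_type, Fintype.sum_prod_type] at h1
  rw [h1, Finset.mul_sum]
  refine Finset.sum_congr rfl fun a _ => ?_
  simp

theorem av_mem {G : Type} [Fintype G] [Nonempty G] (f : G → ℝ) (hf : ∀ y, 0 ≤ f y ∧ f y ≤ 1) :
    0 ≤ av f ∧ av f ≤ 1 := by
  have hc : (0 : ℝ) < Fintype.card G := by exact_mod_cast Fintype.card_pos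
  refine ⟨div_nonneg (Finset.sum_nonneg fun y _ => (hf y).1) hc.le, ?_⟩
  unfold av
  rw [div_le_one hc]
  calc ∑ y, f y ≤ ∑ _y : G, (1 : ℝ) := Finset.sum_le_sum fun y _ => (hf y).2
    _ = Fintype.card G := by simp

theorem one_step {G : Type} [Fintype G] [Nonempty G] (f : G → ℝ) (hf : ∀ y, 0 ≤ f y ∧ f y ≤ 1)
    (w θ : ℝ) (hw : 0 ≤ w ∧ w ≤ 1) (h0 : 0 ≤ θ) (h1 : θ ≤ 1) :
    ∑ y, Real.exp (θ * (w * (f y - av f))) ≤ Fintype.card G * Real.exp (θ ^ 2) := by
  have hc : (0 : ℝ) < Fintype.card G := by exact_mod_cast Fintype.card_pos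
  have hav := av_mem f hf
  have hpt : ∀ y, Real.exp (θ * (w * (f y - av f))) ≤ 1 + θ * (w * (f y - av f)) + θ ^ 2 := by
    intro y
    have hd : |f y - av f| ≤ 1 := by
      rw [abs_le]
      constructor <;> linarith [(hf y).1, (hf y).2, hav.1, hav.2]
    have hwd : |w * (f y - av f)| ≤ 1 := by
      rw [abs_mul, abs_of_nonneg hw.1]
      exact mul_le_one₀ hw.2 (abs_nonneg _) hd
    have hx : |θ * (w * (f y - av f))| ≤ θ := by
      rw [abs_mul, abs_of_nonneg h0]
      exact mul_le_of_le_one_right h0 hwd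
    have h2 := Real.abs_exp_sub_one_sub_id_le (hx.trans h1)
    have h3 : (θ * (w * (f y - av f))) ^ 2 ≤ θ ^ 2 := by
      rw [← sq_abs (θ * (w * (f y - av f)))]
      exact pow_le_pow_left₀ (abs_nonneg _) hx 2
    have h4 := (abs_le.mp h2).2
    linarith
  have hsum : ∑ y, (f y - av f) = 0 := by
    rw [Finset.sum_sub_distrib]
    unfold av
    simp only [Finset.sum_const, Finset.card_univ, nsmul_eq_mul]
    field_simp
    ring
  calc ∑ y, Real.exp (θ * (w * (f y - av f)))
      ≤ ∑ y, (1 + θ * (w * (f y - av f)) + θ ^ 2) := Finset.sum_le_sum fun y _ => hpt y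
    _ = Fintype.card G * (1 + θ ^ 2) := by
        rw [Finset.sum_add_distrib, Finset.sum_add_distrib, ← Finset.mul_sum, ← Finset.mul_sum,
          hsum]
        simp only [Finset.sum_const, Finset.card_univ, nsmul_eq_mul]
        ring
    _ ≤ Fintype.card G * Real.exp (θ ^ 2) := by
        refine mul_le_mul_of_nonneg_left ?_ hc.le
        linarith [Real.add_one_le_exp (θ ^ 2)]

theorem mgf {G : Type} [Fintype G] [Nonempty G] {k : ℕ} (F : Fin k → (Fin k → G) → G → ℝ)
    (w : Fin k → ℝ) (θ : ℝ)
    (hF : ∀ (i : Fin k) (a a' : Fin k → G), (∀ s, s < i → a s = a' s) → F i a = F i a')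
    (hb : ∀ i a y, 0 ≤ F i a y ∧ F i a y ≤ 1) (hw : ∀ i, 0 ≤ w i ∧ w i ≤ 1) (h0 : 0 ≤ θ)
    (h1 : θ ≤ 1) (m : ℕ) (hm : m ≤ k) :
    ∑ a : Fin k → G, Real.exp (θ * ∑ i ∈ univ.filter (fun i : Fin k => (i : ℕ) < m),
      w i * (F i a (a i) - av (F i a))) ≤
      Fintype.card (Fin k → G) * Real.exp (θ ^ 2 * m) := by
  have hc : (0 : ℝ) < Fintype.card G := by exact_mod_cast Fintype.card_pos
  induction m with
  | zero => simp
  | succ m ih =>
    have hmk : m < k := hm
    have ih' := ih hmk.le
    set i0 : Fin k := ⟨m, hmk⟩ with hi0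
    have hsplit : univ.filter (fun i : Fin k => (i : ℕ) < m + 1) =
        insert i0 (univ.filter (fun i : Fin k => (i : ℕ) < m)) := by
      ext i
      simp only [Finset.mem_filter, Finset.mem_univ, true_and, Finset.mem_insert, hi0, Fin.ext_iff]
      omega
    have hnot : i0 ∉ univ.filter (fun i : Fin k => (i : ℕ) < m) := by simp [hi0]
    set S : (Fin k → G) → ℝ := fun a => ∑ i ∈ univ.filter (fun i : Fin k => (i : ℕ) < m),
      w i * (F i a (a i) - av (F i a)) with hS
    have hupd : ∀ (a : Fin k → G) (y : G) (i : Fin k), i ≤ i0 →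
        F i (Function.update a i0 y) = F i a := by
      intro a y i hi
      refine hF i _ _ fun s hs => ?_
      rw [Function.update_of_ne (ne_of_lt (lt_of_lt_of_le hs hi))]
    have hSupd : ∀ (a : Fin k → G) (y : G), S (Function.update a i0 y) = S a := by
      intro a y
      refine Finset.sum_congr rfl fun i hi => ?_
      have hi' : i < i0 := by
        have := (Finset.mem_filter.mp hi).2
        exact this
      rw [hupd a y i hi'.le, Function.update_of_ne (ne_of_lt hi')]
    have key := sum_update i0 (fun a => Real.exp (θ * (w i0 * (F i0 a (a i0) - av (F i0 a)) + S a)))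
    have hle : ∑ a : Fin k → G, ∑ y : G, Real.exp (θ * (w i0 *
        (F i0 (Function.update a i0 y) (Function.update a i0 y i0) -
          av (F i0 (Function.update a i0 y))) + S (Function.update a i0 y))) ≤
        ∑ a : Fin k → G, Real.exp (θ * S a) * (Fintype.card G * Real.exp (θ ^ 2)) := by
      refine Finset.sum_le_sum fun a _ => ?_
      have h2 := one_step (F i0 a) (hb i0 a) (w i0) θ (hw i0) h0 h1
      refine le_trans (le_of_eq ?_) (mul_le_mul_of_nonneg_left h2 (Real.exp_pos _).le)
      rw [Finset.mul_sum]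
      refine Finset.sum_congr rfl fun y _ => ?_
      rw [hupd a y i0 le_rfl, hSupd, Function.update_self, mul_add, Real.exp_add, mul_comm]
    rw [key, ← Finset.sum_mul] at hle
    have h3 : (∑ a : Fin k → G, Real.exp (θ * S a)) * (Fintype.card G * Real.exp (θ ^ 2)) ≤
        Fintype.card G * (Fintype.card (Fin k → G) * Real.exp (θ ^ 2 * ((m + 1 : ℕ) : ℝ))) := by
      have h4 := mul_le_mul_of_nonneg_right ih'
        (mul_nonneg hc.le (Real.exp_pos (θ ^ 2)).le)
      refine h4.trans (le_of_eq ?_)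
      rw [Nat.cast_succ, mul_add, mul_one, Real.exp_add]
      ring
    have h5 := le_of_mul_le_mul_left (hle.trans h3) hc
    refine le_trans (le_of_eq ?_) h5
    refine Finset.sum_congr rfl fun a _ => ?_
    rw [hsplit, Finset.sum_insert hnot]

theorem ind_le_exp (x : ℝ) (P : Prop) (h : P → 0 ≤ x) : ind P ≤ Real.exp x := by
  unfold ind
  split_ifs with hP
  · exact Real.one_le_exp (h hP)
  · exact (Real.exp_pos _).le

theorem ind_nonneg (P : Prop) : 0 ≤ ind P := by
  unfold ind
  split_ifs <;> norm_num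

theorem clip_mem (x : ℝ) : 0 ≤ clip x ∧ clip x ≤ 1 :=
  ⟨le_max_left _ _, max_le zero_le_one (min_le_right _ _)⟩

theorem av_sum {Ω τ : Type} [Fintype Ω] (s : Finset τ) (f : τ → Ω → ℝ) :
    (av fun a => ∑ t ∈ s, f t a) = ∑ t ∈ s, av (f t) := by
  unfold av
  rw [Finset.sum_comm, Finset.sum_div]

theorem av_mono {Ω : Type} [Fintype Ω] (f g : Ω → ℝ) (h : ∀ a, f a ≤ g a) : av f ≤ av g :=
  div_le_div_of_nonneg_right (Finset.sum_le_sum fun a _ => h a) (Nat.cast_nonneg _)

end Mart

open Mart in
theorem pAzuma : StAzuma := by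
  intro G _ _ k F w η hF hb hw h0 h2
  have hc : (0 : ℝ) < Fintype.card (Fin k → G) := by exact_mod_cast Fintype.card_pos
  have key := mgf F w (η / 2) hF hb hw (by linarith) (by linarith) k le_rfl
  have huniv : univ.filter (fun i : Fin k => (i : ℕ) < k) = univ := by
    ext i
    simp
  rw [huniv] at key
  unfold av at key ⊢
  rw [div_le_iff₀ hc]
  calc ∑ a : Fin k → G, ind (η * k < ∑ i, w i * (F i a (a i) - (∑ y, F i a y) / Fintype.card G))
      ≤ ∑ a : Fin k → G, Real.exp (η / 2 * ∑ i, w i * (F i a (a i) -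
          (∑ y, F i a y) / Fintype.card G)) * Real.exp (-(η / 2 * (η * k))) := by
        refine Finset.sum_le_sum fun a _ => ?_
        rw [← Real.exp_add]
        refine ind_le_exp _ _ fun h => ?_
        have := mul_le_mul_of_nonneg_left h.le (by linarith : 0 ≤ η / 2)
        linarith
    _ ≤ Fintype.card (Fin k → G) * Real.exp ((η / 2) ^ 2 * k) * Real.exp (-(η / 2 * (η * k))) := by
        rw [← Finset.sum_mul]
        exact mul_le_mul_of_nonneg_right key (Real.exp_pos _).le
    _ = Real.exp (-(η ^ 2 * k / 4)) * Fintype.card (Fin k → G) := by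
        rw [mul_assoc, ← Real.exp_add, mul_comm]
        congr 2
        ring

open Mart in
theorem pMart (h1 : StAzuma) (h2 : StFew) : StMart := by
  intro G _ _ _ k L J N s w η hw h0 hη
  set Sm : Finset (Finset G) := univ.filter fun T : Finset G => T.card ≤ s with hSm
  set I : Finset (Finset G × Finset G × (Fin J × Bool → Finset G)) :=
    Sm ×ˢ Sm ×ˢ Fintype.piFinset (fun _ : Fin J × Bool => Sm) with hI
  have hcard : (I.card : ℝ) ≤ ((Fintype.card G : ℝ) + 1) ^ (s * (2 * J + 2)) := by
    have h3 : I.card = Sm.card ^ (2 * J + 2) := by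
      rw [hI, Finset.card_product, Finset.card_product, Fintype.card_piFinset]
      simp only [Finset.prod_const, Finset.card_univ, Fintype.card_prod, Fintype.card_fin,
        Fintype.card_bool]
      ring
    have h4 : Sm.card ^ (2 * J + 2) ≤ (Fintype.card G + 1) ^ (s * (2 * J + 2)) := by
      rw [pow_mul]
      exact Nat.pow_le_pow_left (h2 G s) _
    rw [h3]
    exact_mod_cast h4
  set f : (Finset G × Finset G × (Fin J × Bool → Finset G)) → (Fin k → G) → ℝ := fun p a =>
    ind (η * k < ∑ i : Fin k, w i * (clip (est L J N (pre a i) p.1 p.2.1 p.2.2 (a i)) -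
      av fun y => clip (est L J N (pre a i) p.1 p.2.1 p.2.2 y))) with hf
  have hpt : ∀ a : Fin k → G, ind (¬ Mart a L J N s w η) ≤ ∑ p ∈ I, f p a := by
    intro a
    by_cases hM : Mart a L J N s w η
    · have : ind (¬ Mart a L J N s w η) = 0 := by simp [ind, hM]
      rw [this]
      exact Finset.sum_nonneg fun p _ => ind_nonneg _
    · have h5 : ind (¬ Mart a L J N s w η) = 1 := by simp [ind, hM]
      rw [h5]
      unfold Mart at hM
      push Not at hM
      obtain ⟨Z, R0, R, hZ, hR0, hR, hlt⟩ := hM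
      have hmem : (Z, R0, R) ∈ I := by
        simp [hI, hSm, hZ, hR0, hR]
      have h6 : f (Z, R0, R) a = 1 := by
        simp only [hf, ind]
        rw [if_pos hlt]
      rw [← h6]
      exact Finset.single_le_sum (f := fun p => f p a) (fun p _ => ind_nonneg _) hmem
  have hone : ∀ p, av (f p) ≤ Real.exp (-(η ^ 2 * k / 4)) := by
    intro p
    refine h1 G k (fun i a y => clip (est L J N (pre a i) p.1 p.2.1 p.2.2 y)) w η ?_
      (fun i a y => clip_mem _) hw h0 hη
    intro i a a' haa
    have : pre a i = pre a' i := by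
      unfold pre
      refine Finset.image_congr fun t ht => haa t ?_
      exact (Finset.mem_filter.mp (Finset.mem_coe.mp ht)).2
    simp only [this]
  calc (av fun a : Fin k → G => ind (¬ Mart a L J N s w η))
      ≤ av fun a : Fin k → G => ∑ p ∈ I, f p a := av_mono _ _ hpt
    _ = ∑ p ∈ I, av (f p) := av_sum I f
    _ ≤ ∑ _p ∈ I, Real.exp (-(η ^ 2 * k / 4)) := Finset.sum_le_sum fun p _ => hone p
    _ = I.card * Real.exp (-(η ^ 2 * k / 4)) := by simp
    _ ≤ _ := mul_le_mul_of_nonneg_right hcard (Real.exp_pos _).le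

end Pool.Agent.P.MP_cb22e8_co.AC
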