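import Pool.Agent.P.MP_cb22e8_co.AC.Defs

/-! The number of patterns in a selection and the moment bound. -/

open Finset

namespace Pool.Agent.P.MP_cb22e8_co.AC

namespace Mom

theorem sq_le (j : ℕ) : j ^ 2 ≤ 5 * 2 ^ j := by
  induction j with
  | zero => simp
  | succ j ih =>
    have := Nat.lt_two_pow_self (n := j)
    rw [pow_succ 2 j]
    nlinarith

theorem card_fam {G : Type} [Fintype G] [DecidableEq G] (X : Finset G) (R : G → Finset G)
    (j : ℕ) : (fam X R j).card = ∑ x ∈ univ.filter (fun x => x ∉ X), (R x).card.choose j := by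
  rw [fam, card_filter, Fintype.sum_prod_type, sum_filter]
  refine sum_congr rfl fun x _ => ?_
  by_cases hx : x ∈ X
  · simp [hx]
  · rw [if_pos hx, ← card_powersetCard, ← card_filter]
    congr 1
    ext S
    simp [hx, mem_powersetCard]

end Mom

theorem pFam (h1 : StConf) (h2 : StSamp) : StFam := by
  intro G _ _ _ A T X R j L N Δ Λ s M ρ hA hT hS hL ⟨p0, p1, p2, p3, p4, p5⟩ hN
  have hL' : (1 : ℝ) ≤ L := by exact_mod_cast hL
  have h := h2 G A T (fam X R j) j s M N (2 ^ (j + 3)) ρ hN hT (fun c hc => ?_) p0 (by nlinarith)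
    (by positivity) (fun c hc => (h1 G A T X R j L N Δ Λ ρ hA hT hS p0.le p1 c hc).trans ?_) p5
  · rw [Mom.card_fam, Nat.cast_sum] at h
    rw [le_div_iff₀ (by positivity), mul_comm]
    refine h.trans (mul_le_mul_of_nonneg_right ?_ (Nat.cast_nonneg _))
    have : (1 : ℝ) ≤ 2 ^ j := one_le_pow₀ (by norm_num)
    push_cast
    rw [pow_add, pow_add]
    linarith
  · obtain ⟨a, b, d⟩ := (mem_filter.1 hc).2
    have e := b.trans (hS _ a).1
    refine ⟨e.trans (filter_subset _ _), d, fun y hy => ?_⟩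
    obtain ⟨t, ht, rfl⟩ := mem_image.1 hy
    exact (mem_filter.1 (e ht)).2
  · have a : (j : ℝ) ^ 2 ≤ 5 * 2 ^ j := by exact_mod_cast Mom.sq_le j
    have b : (0 : ℝ) < 2 ^ j := by positivity
    push_cast
    rw [pow_add]
    nlinarith

theorem pMom (h1 : StSel) (h2 : StFam) (h3 : StQ) (h4 : StBin) : StMom := by
  intro G _ _ _ A B T q L N Δ Λ s₁ M₁ s₂ M₂ ρ₁ ρ₂ hB hA hT hq P1 N1 P2 N2
  obtain ⟨X, R, hX, hS⟩ := h1 G A T (Zs A T Δ) Λ L hA
  have hL : 1 ≤ L := by omega
  have f1 := h2 G A T X R q L N Δ Λ s₁ M₁ ρ₁ hA hT hS hL P1 N1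
  have f2 := h2 G A T X R (4 * q) L N Δ Λ s₂ M₂ ρ₂ hA hT hS hL P2 N2
  obtain ⟨q0, -, q2⟩ := h3 L (2 * q) hL
  have pt : ∀ x, Qf L (2 * q) (rep B T x).card ≤ (if rep B T x = ∅ then (1 : ℝ) else 0) +
      ((if x ∉ X then 48 ^ (4 * q) * (((R x).card.choose (4 * q) : ℝ) + (R x).card.choose q)
        else 0) + if x ∈ X then (2 * (L : ℝ)) ^ (4 * q) else 0) := fun x => by
    have n1 : (0 : ℝ) ≤ if x ∉ X then 48 ^ (4 * q) *
        (((R x).card.choose (4 * q) : ℝ) + (R x).card.choose q) else 0 := by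
      split_ifs <;> positivity
    have n2 : (0 : ℝ) ≤ if x ∈ X then (2 * (L : ℝ)) ^ (4 * q) else 0 := by
      split_ifs <;> positivity
    by_cases h0 : rep B T x = ∅
    · rw [h0, card_empty, q0, if_pos rfl]
      linarith
    rw [if_neg h0, zero_add]
    refine (q2 hq.le _ (card_pos.2 (nonempty_iff_ne_empty.2 h0))).trans ?_
    by_cases hd : 2 * q < (rep B T x).card
    swap
    · rw [if_neg hd]
      linarith
    rw [if_pos hd, ← mul_assoc, show 2 * 2 = 4 from rfl]
    by_cases hx : x ∈ X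
    · rw [if_neg (not_not.2 hx), if_pos hx, zero_add]
      have a : (1 : ℝ) ≤ ((2 * q).factorial : ℝ) := by exact_mod_cast (2 * q).factorial_pos
      refine (div_le_self (by positivity) (one_le_pow₀ a)).trans ?_
      have b : ((min (rep B T x).card L : ℕ) : ℝ) ≤ L := by exact_mod_cast min_le_right _ _
      gcongr
    · rw [if_pos hx, if_neg hx, add_zero]
      have a : (rep B T x).card ≤ (rep A T x).card :=
        card_le_card fun t ht => mem_filter.2 ⟨(mem_filter.1 ht).1, hB (mem_filter.1 ht).2⟩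
      have b := (hS x hx).2.2.1
      have c : min (rep B T x).card L ≤ 2 * (R x).card := (min_le_min_right _ a).trans b
      refine le_trans ?_ (h4 (R x).card q (by omega))
      have d : ((min (rep B T x).card L : ℕ) : ℝ) ≤ 2 * (R x).card := by exact_mod_cast c
      exact div_le_div_of_nonneg_right (pow_le_pow_left₀ (by positivity) (by linarith) _)
        (by positivity)
  refine (sum_le_sum fun x _ => pt x).trans ?_
  rw [sum_add_distrib, sum_add_distrib, sum_boole, ← sum_filter, ← sum_filter, ← mul_sum,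
    sum_add_distrib, sum_const, filter_mem_eq_inter, univ_inter, nsmul_eq_mul, mul_comm (X.card : ℝ)]
  have e : (X.card : ℝ) ≤ (Zs A T Δ).card * A.card + A.card * ((Zs A T Δ).card : ℝ) ^ 2 * Λ := by
    exact_mod_cast hX
  unfold unc
  gcongr

end Pool.Agent.P.MP_cb22e8_co.AC
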