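import Pool.Agent.P.MP_cb22e8_co.AC.Defs

/-!
Numerical inequalities for the choice of the parameters (first group).
-/

namespace Pool.Agent.P.MP_cb22e8_co.AC

namespace NumA

theorem exp_split (q : ℕ) (hq : 3 ≤ q) :
    32 * q ^ 2 = (32 * q ^ 2 - 32 * q) + 32 * q ∧ 64 * q ≤ 32 * q ^ 2 - 32 * q := by
  have h : 96 * q ≤ 32 * q ^ 2 := by nlinarith
  omega

theorem line5 (C w k W Δ : ℕ) (hW : 1 ≤ W) (hw : 12 * C + 3 ≤ w) (hk : k ≤ 2 * (Δ * W))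
    (hΔ : W * w ^ 2 ≤ Δ) : 2 * (C * k) * (3 * w) + Δ * (3 * w) ≤ Δ ^ 2 := by
  have h1 : 2 * (C * k) * (3 * w) ≤ 2 * (C * (2 * (Δ * W))) * (3 * w) := by gcongr
  have h2 : Δ * (3 * w) ≤ Δ * (3 * w) * W := Nat.le_mul_of_pos_right _ hW
  have h3 : Δ * W * w * (12 * C + 3) ≤ Δ * W * w * w := by gcongr
  have h4 : Δ * (W * w ^ 2) ≤ Δ * Δ := by gcongr
  calc 2 * (C * k) * (3 * w) + Δ * (3 * w)
      ≤ 2 * (C * (2 * (Δ * W))) * (3 * w) + Δ * (3 * w) * W := Nat.add_le_add h1 h2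
    _ = Δ * W * w * (12 * C + 3) := by ring
    _ ≤ Δ * W * w * w := h3
    _ = Δ * (W * w ^ 2) := by ring
    _ ≤ Δ * Δ := h4
    _ = Δ ^ 2 := by ring

theorem line7 (C q k V W Δ w ε : ℝ) (hC : 1 ≤ C) (hq : 1 ≤ q) (hΔ : 1 ≤ Δ) (hV : 0 < V)
    (hw : 0 < w) (hW : V * w ≤ W) (hk : Δ * W ≤ k) (hε : 34 * q ≤ ε ^ 2 * w) :
    2 * V * (1 + 8 * (2 * q) * Δ) / (C * k) ≤ ε ^ 2 := by
  have hVw : 0 < V * w := mul_pos hV hw
  have hW0 : 0 < W := lt_of_lt_of_le hVw hW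
  have hΔ0 : 0 < Δ := by linarith
  have hk0 : 0 < k := lt_of_lt_of_le (mul_pos hΔ0 hW0) hk
  have hCk : k ≤ C * k := by nlinarith
  rw [div_le_iff₀ (by positivity)]
  have h1 : 1 ≤ q * Δ := by nlinarith
  have h2 : 1 + 8 * (2 * q) * Δ ≤ 17 * (q * Δ) := by nlinarith
  have hε2 : 0 ≤ ε ^ 2 := sq_nonneg ε
  calc 2 * V * (1 + 8 * (2 * q) * Δ) ≤ 2 * V * (17 * (q * Δ)) := by gcongr
    _ = (34 * q) * (V * Δ) := by ring
    _ ≤ (ε ^ 2 * w) * (V * Δ) := by gcongr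
    _ = ε ^ 2 * (Δ * (V * w)) := by ring
    _ ≤ ε ^ 2 * (Δ * W) := by gcongr
    _ ≤ ε ^ 2 * k := by gcongr
    _ ≤ ε ^ 2 * (C * k) := by gcongr

theorem line8 (C k n W Δ w z ε : ℝ) (hC : 1 ≤ C) (hW : 1 ≤ W) (hw : 0 < w) (hΔ : w ≤ Δ)
    (hε : 0 < ε) (hk : Δ * W ≤ k) (hn : k ^ 2 ≤ n) (hz : z ≤ 4 * C * W)
    (hεw : 4 * C ^ 2 ≤ ε * w) : C * k * z / n ≤ ε := by
  have hΔ0 : 0 < Δ := lt_of_lt_of_le hw hΔ
  have hW0 : 0 < W := by linarith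
  have hk0 : 0 < k := lt_of_lt_of_le (mul_pos hΔ0 hW0) hk
  have hn0 : 0 < n := lt_of_lt_of_le (by positivity) hn
  have hC0 : 0 < C := by linarith
  rw [div_le_iff₀ hn0]
  calc C * k * z ≤ C * k * (4 * C * W) := by gcongr
    _ = (4 * C ^ 2) * W * k := by ring
    _ ≤ (ε * w) * W * k := by gcongr
    _ ≤ (ε * Δ) * W * k := by gcongr
    _ = ε * ((Δ * W) * k) := by ring
    _ ≤ ε * (k * k) := by gcongr
    _ = ε * k ^ 2 := by ring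
    _ ≤ ε * n := by gcongr

theorem line9 (C k n T U W Δ w z ε : ℝ) (hC : 1 ≤ C) (hW : 1 ≤ W) (hw : 1 ≤ w) (hT : 0 < T)
    (hU : 0 < U) (hΔ : W * (U * w ^ 2) ≤ Δ) (hε : 0 < ε) (hk : Δ * W ≤ k) (hn : k ^ 2 ≤ n)
    (hz0 : 0 ≤ z) (hz : z ≤ 4 * C * W) (hεw : 52 * T * C ^ 2 ≤ ε * w) :
    T * U * (z * k + k * z ^ 2 * (3 * w)) ≤ ε * n := by
  have hW0 : 0 < W := by linarith
  have hw0 : 0 < w := by linarith
  have hC0 : 0 < C := by linarith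
  have hΔ0 : 0 < Δ := lt_of_lt_of_le (by positivity) hΔ
  have hk0 : 0 < k := lt_of_lt_of_le (mul_pos hΔ0 hW0) hk
  have hCW : 1 ≤ C * W := by nlinarith
  have hCWw : 1 ≤ C * W * w := by nlinarith
  have h1 : z ≤ 4 * (C * W) ^ 2 * w := by
    have : 4 * (C * W) * 1 ≤ 4 * (C * W) * (C * W * w) := by gcongr
    nlinarith
  have h2 : z ^ 2 ≤ (4 * C * W) ^ 2 := by gcongr
  calc T * U * (z * k + k * z ^ 2 * (3 * w))
      ≤ T * U * (4 * (C * W) ^ 2 * w * k + k * (4 * C * W) ^ 2 * (3 * w)) := by gcongr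
    _ = (52 * T * C ^ 2) * (U * W ^ 2 * w * k) := by ring
    _ ≤ (ε * w) * (U * W ^ 2 * w * k) := by gcongr
    _ = ε * ((W * (U * w ^ 2)) * W * k) := by ring
    _ ≤ ε * (Δ * W * k) := by gcongr
    _ ≤ ε * (k * k) := by gcongr
    _ = ε * k ^ 2 := by ring
    _ ≤ ε * n := by gcongr

theorem le_mul_of_ceil (a e : ℝ) (w : ℕ) (he : 0 < e) (h : ⌈a / e⌉₊ ≤ w) : a ≤ e * w := by
  have h1 : a / e ≤ w := (Nat.ceil_le).1 h
  rw [div_le_iff₀ he] at h1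
  linarith

end NumA

theorem pNumA : StNumA := by
  intro C q ε hC hq hε
  refine ⟨(2 * q + 1) + (12 * C + 3) + ⌈(34 * q : ℝ) / ε ^ 2⌉₊ + ⌈(4 * (C : ℝ) ^ 2) / ε⌉₊ +
    ⌈(52 * (2 : ℝ) ^ (4 * q) * (C : ℝ) ^ 2) / ε⌉₊, ?_⟩
  intro w k n Δ hw hk1 hk2 hn hΔ
  obtain ⟨hsplit, he⟩ := NumA.exp_split q hq
  generalize 32 * q ^ 2 - 32 * q = e at hsplit he hΔ
  rw [hsplit, pow_add, ← hΔ] at hk1 hk2
  have hw1 : 1 ≤ w := by omega
  have hwq : 2 * q < w := by omega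
  have hwC : 12 * C + 3 ≤ w := by omega
  have ha : (34 * q : ℝ) ≤ ε ^ 2 * w := NumA.le_mul_of_ceil _ _ w (by positivity) (by omega)
  have hb : (4 * (C : ℝ) ^ 2) ≤ ε * w := NumA.le_mul_of_ceil _ _ w hε (by omega)
  have hc : (52 * (2 : ℝ) ^ (4 * q) * (C : ℝ) ^ 2) ≤ ε * w :=
    NumA.le_mul_of_ceil _ _ w hε (by omega)
  have hW1 : 1 ≤ w ^ (32 * q) := Nat.one_le_pow _ _ hw1
  have hΔ2 : w ^ (32 * q) * w ^ 2 ≤ Δ := by
    rw [hΔ, ← pow_add]; exact Nat.pow_le_pow_right hw1 (by omega)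
  have hΔ4 : w ^ (32 * q) * (w ^ (4 * q) * w ^ 2) ≤ Δ := by
    rw [hΔ, ← pow_add, ← pow_add]; exact Nat.pow_le_pow_right hw1 (by omega)
  have hwΔ : w ≤ Δ := by
    rw [hΔ]; exact Nat.le_self_pow (by omega) w
  have hVW : w ^ (4 * (2 * q) + 1) * w ≤ w ^ (32 * q) := by
    rw [← pow_succ]; exact Nat.pow_le_pow_right hw1 (by omega)
  generalize w ^ (32 * q) = W at hk1 hk2 hW1 hΔ2 hΔ4 hVW
  have hΔ0 : 0 < Δ := by omega
  have hΔk : Δ ≤ k := le_trans (Nat.le_mul_of_pos_right _ hW1) hk1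
  have hCk : 2 * C ≤ k := by omega
  have hCr : (1 : ℝ) ≤ C := by exact_mod_cast hC
  have hqr : (1 : ℝ) ≤ q := by exact_mod_cast (by omega : 1 ≤ q)
  have hwr : (1 : ℝ) ≤ w := by exact_mod_cast hw1
  have hWr : (1 : ℝ) ≤ W := by exact_mod_cast hW1
  have hΔr : (1 : ℝ) ≤ Δ := by exact_mod_cast hΔ0
  have hwΔr : (w : ℝ) ≤ Δ := by exact_mod_cast hwΔ
  have hkr : (Δ : ℝ) * W ≤ k := by exact_mod_cast hk1
  have hnr : (k : ℝ) ^ 2 ≤ n := by exact_mod_cast hn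
  refine ⟨by omega, ?_, hwq, hΔ0, NumA.line5 C w k W Δ hW1 hwC hk2 hΔ2, hwΔ, ?_, ?_⟩
  · calc 2 * (C * k) = (2 * C) * k := by ring
      _ ≤ k * k := by gcongr
      _ = k ^ 2 := by ring
      _ ≤ n := hn
  · have := NumA.line7 C q k ((w : ℝ) ^ (4 * (2 * q) + 1)) W Δ w ε hCr hqr hΔr (by positivity)
      (by linarith) (by exact_mod_cast hVW) hkr ha
    push_cast
    exact this
  · intro z hz
    have hz1 : z ≤ 4 * C * W := by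
      have h1 : z * Δ ≤ (4 * C * W) * Δ := by
        calc z * Δ ≤ 2 * (C * k) := hz
          _ ≤ 2 * (C * (2 * (Δ * W))) := by gcongr
          _ = (4 * C * W) * Δ := by ring
      exact Nat.le_of_mul_le_mul_right h1 hΔ0
    have hzr : (z : ℝ) ≤ 4 * C * W := by exact_mod_cast hz1
    refine ⟨?_, ?_⟩
    · have := NumA.line8 C k n W Δ w z ε hCr hWr (by linarith) hwΔr hε hkr hnr hzr hb
      push_cast
      exact this
    · have := NumA.line9 C k n ((2 : ℝ) ^ (4 * q)) ((w : ℝ) ^ (4 * q)) W Δ w z ε hCr hWr hwr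
        (by positivity) (by positivity) (by exact_mod_cast hΔ4) hε hkr hnr (by positivity) hzr hc
      rw [mul_pow]
      push_cast
      exact this

end Pool.Agent.P.MP_cb22e8_co.AC
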