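import Pool.Agent.P.MP_cb22e8_co.AC.Defs

open Finset Filter Topology

namespace Pool.Agent.P.MP_cb22e8_co.AC

namespace NumB

lemma succ_pow_le {D w : ℕ} (h : 2 * D ≤ w + 1) : (w + 1) ^ D ≤ 2 * w ^ D := by
  have hw : (0 : ℝ) < (w : ℝ) + 1 := by positivity
  have h1 : (1 : ℝ) + D * (-(1 / ((w : ℝ) + 1))) ≤ (1 + -(1 / ((w : ℝ) + 1))) ^ D := by
    refine one_add_mul_le_pow ?_ D
    have : 1 / ((w : ℝ) + 1) ≤ 1 := by
      rw [div_le_one hw]; linarith [Nat.cast_nonneg (α := ℝ) w]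
    linarith
  have h2 : (1 : ℝ) + -(1 / ((w : ℝ) + 1)) = w / (w + 1) := by field_simp; ring
  have h3 : (2 : ℝ) * D ≤ w + 1 := by exact_mod_cast h
  have h4 : (D : ℝ) * (1 / ((w : ℝ) + 1)) ≤ 1 / 2 := by
    rw [mul_one_div, div_le_div_iff₀ hw two_pos]; linarith
  rw [h2, div_pow, le_div_iff₀ (by positivity)] at h1
  have h5 : ((w : ℝ) + 1) ^ D ≤ 2 * (w : ℝ) ^ D := by
    have : (0 : ℝ) < ((w : ℝ) + 1) ^ D := by positivity
    nlinarith
  exact_mod_cast h5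

lemma ev_fact (D : ℕ) {ε₀ : ℝ} (h : 0 < ε₀) :
    ∀ᶠ w : ℕ in atTop, 289 * (w : ℝ) ^ (4 * D) / w.factorial ≤ ε₀ := by
  have t1 := tendsto_pow_const_div_const_pow_of_one_lt (4 * D) (one_lt_two (α := ℝ))
  have t2 := FloorSemiring.tendsto_pow_div_factorial_atTop (2 : ℝ)
  have t3 := (t1.mul t2).const_mul 289
  simp only [mul_zero] at t3
  filter_upwards [t3.eventually (ge_mem_nhds h)] with w hw
  have : (289 : ℝ) * ((w : ℝ) ^ (4 * D) / 2 ^ w * (2 ^ w / w.factorial)) =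
      289 * (w : ℝ) ^ (4 * D) / w.factorial := by
    field_simp
  rwa [this] at hw

lemma ev_log (D : ℕ) (B : ℝ) {c : ℝ} (h : 0 < c) :
    ∀ᶠ w : ℕ in atTop, B * (Real.log 17 + 2 * D * Real.log w) / w ≤ c := by
  have t1 : Tendsto (fun w : ℕ => Real.log w / w) atTop (𝓝 0) := by
    have := (Real.tendsto_pow_log_div_mul_add_atTop 1 0 1 one_ne_zero).comp
      tendsto_natCast_atTop_atTop (α := ℕ)
    refine this.congr fun w => ?_
    simp
  have t2 := tendsto_const_div_atTop_nhds_zero_nat (Real.log 17)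
  have t3 := (t2.add (t1.const_mul (2 * D : ℝ))).const_mul B
  simp only [mul_zero, add_zero] at t3
  filter_upwards [t3.eventually (ge_mem_nhds h)] with w hw
  have : B * (Real.log 17 / w + 2 * D * (Real.log w / w)) =
      B * (Real.log 17 + 2 * D * Real.log w) / w := by ring
  rwa [this] at hw

lemma ev_exp {c ε₀ : ℝ} (hc : 0 < c) (h : 0 < ε₀) :
    ∀ᶠ w : ℕ in atTop, Real.exp (-(c * w)) ≤ ε₀ := by
  have t1 : Tendsto (fun w : ℕ => c * (w : ℝ)) atTop atTop :=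
    tendsto_natCast_atTop_atTop.const_mul_atTop hc
  exact (Real.tendsto_exp_neg_atTop_nhds_zero.comp t1).eventually (ge_mem_nhds h)

end NumB

open NumB

theorem pRoot : StRoot := by
  intro D w₀ hD
  refine ⟨((max w₀ (2 * D) + 1) ^ D) ^ 2, fun n hn => ?_⟩
  have h1 : (max w₀ (2 * D) + 1) ^ D ≤ Nat.sqrt n := Nat.le_sqrt'.2 hn
  have hD' : D ≠ 0 := by omega
  have h2 : max w₀ (2 * D) + 1 ≤ Nat.nthRoot D (Nat.sqrt n) := (Nat.le_nthRoot_iff hD').2 h1
  have h3 := Nat.lt_pow_nthRoot_add_one hD' (Nat.sqrt n)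
  have h4 : 1 ≤ Nat.sqrt n := le_trans (Nat.one_le_pow _ _ (by omega)) h1
  have h5 := Nat.lt_succ_sqrt' n
  have h6 := le_max_left w₀ (2 * D)
  have h7 := le_max_right w₀ (2 * D)
  refine ⟨Nat.nthRoot D (Nat.sqrt n), by omega, Nat.pow_nthRoot_le (Or.inl hD'),
    h3.le.trans (succ_pow_le (by omega)), Nat.sqrt_le' n, ?_⟩
  simp only [Nat.succ_eq_add_one] at h5
  nlinarith

theorem pNumQ : StNumQ := by
  intro C δ hδ
  have t1 := (FloorSemiring.tendsto_pow_div_factorial_atTop (96 * (9 * C) : ℝ)).comp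
    (tendsto_id.const_mul_atTop' (show 0 < 4 by norm_num) (α := ℕ))
  have t2 := FloorSemiring.tendsto_pow_div_factorial_atTop (48 ^ 4 * 2 * (9 * C) : ℝ)
  have t3 := (t1.add t2).const_mul (2 ^ 11)
  simp only [mul_zero, add_zero] at t3
  obtain ⟨q, h1, h2⟩ := ((eventually_ge_atTop 3).and (t3.eventually (ge_mem_nhds hδ))).exists
  refine ⟨q, h1, le_trans (le_of_eq ?_) h2⟩
  simp only [Function.comp, id]
  have e1 : (96 * (9 * C) : ℝ) ^ (4 * q) = 48 ^ (4 * q) * 2 ^ (4 * q) * (9 * C) ^ (4 * q) := by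
    rw [← mul_pow, ← mul_pow]; norm_num
  have e2 : (48 ^ 4 * 2 * (9 * C) : ℝ) ^ q = 48 ^ (4 * q) * 2 ^ q * (9 * C) ^ q := by
    rw [mul_pow, mul_pow, ← pow_mul]
  rw [e1, e2, pow_add, pow_add]
  ring

theorem pNumB : StNumB := by
  intro C D J ε ε₀ hC hD hε hε2 hε₀
  set A : ℝ := (2 * J + 1) * C / ε with hA
  have hC' : (1 : ℝ) ≤ C := by exact_mod_cast hC
  have hJ : (0 : ℝ) ≤ J := Nat.cast_nonneg J
  have hA2 : 2 * C ≤ A := by
    rw [hA, le_div_iff₀ hε]; nlinarith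
  have hA0 : 0 < A := by linarith
  have hc : 0 < ε ^ 2 / 8 := by positivity
  obtain ⟨w₀, hw₀⟩ := eventually_atTop.1 ((eventually_ge_atTop 1).and ((ev_fact D hε₀).and
    ((ev_log D ((A + 1) * (2 * J + 2)) hc).and (ev_exp hc hε₀))))
  refine ⟨w₀, fun w k n hw hk1 hk2 hn1 hn2 => ?_⟩
  obtain ⟨w1, f1, f2, f3⟩ := hw₀ w hw
  have hwk : w ≤ k := le_trans (Nat.le_self_pow (by omega) w) hk1
  have hw1 : (1 : ℝ) ≤ w := by exact_mod_cast w1
  have hwk' : (w : ℝ) ≤ k := by exact_mod_cast hwk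
  have hk0 : (0 : ℝ) < k := by linarith
  have hw0 : (0 : ℝ) < w := by linarith
  have hn1' : (k : ℝ) ^ 2 ≤ n := by exact_mod_cast hn1
  have hn0 : (0 : ℝ) < n := lt_of_lt_of_le (by positivity) hn1'
  have hn17 : (n : ℝ) + 1 ≤ 17 * (w : ℝ) ^ (2 * D) := by
    have a1 : n + 1 ≤ 17 * w ^ (2 * D) := by
      have b1 : k ^ 2 ≤ (2 * w ^ D) ^ 2 := Nat.pow_le_pow_left hk2 2
      have b2 : (2 * w ^ D) ^ 2 = 4 * w ^ (2 * D) := by ring
      have b3 : 1 ≤ w ^ (2 * D) := Nat.one_le_pow _ _ w1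
      omega
    exact_mod_cast a1
  refine ⟨?_, ⌈A * k / w⌉₊, ?_, ?_, ?_, ?_⟩
  · refine le_trans ?_ f1
    unfold patB
    have a1 : (n : ℝ) * (Nat.choose 2 2 : ℕ) * ((k : ℝ) / n) ^ 2 ≤ 1 := by
      have : (n : ℝ) * (Nat.choose 2 2 : ℕ) * ((k : ℝ) / n) ^ 2 = k ^ 2 / n := by
        simp only [Nat.choose_self, Nat.cast_one]; field_simp
      rw [this, div_le_one hn0]; exact hn1'
    have a2 : ((n : ℝ) * (Nat.choose 2 2 : ℕ) * ((k : ℝ) / n) ^ 2) ^ w ≤ 1 :=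
      pow_le_one₀ (by positivity) a1
    have a3 : ((n : ℝ) + 1) ^ 2 ≤ 289 * (w : ℝ) ^ (4 * D) := by
      calc ((n : ℝ) + 1) ^ 2 ≤ (17 * (w : ℝ) ^ (2 * D)) ^ 2 := by gcongr
        _ = 289 * (w : ℝ) ^ (4 * D) := by ring
    refine div_le_div_of_nonneg_right ?_ (by positivity)
    calc _ ≤ ((n : ℝ) + 1) ^ 2 * 1 := by gcongr
      _ ≤ _ := by linarith
  · exact Nat.ceil_pos.2 (by positivity)
  · have a1 := Nat.le_ceil (A * k / w)
    rw [div_le_iff₀ hw0] at a1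
    have : (2 : ℝ) * (C * k) ≤ (⌈A * k / w⌉₊ : ℝ) * w := by nlinarith
    exact_mod_cast this
  · have a1 := Nat.le_ceil (A * k / w)
    have a0 : (0 : ℝ) < (⌈A * k / w⌉₊ : ℝ) := lt_of_lt_of_le (by positivity) a1
    rw [div_le_iff₀ hw0] at a1
    rw [div_le_iff₀ (by positivity)]
    have a2 : A * ε = (2 * J + 1) * C := by rw [hA]; field_simp
    push_cast
    calc (2 * (J : ℝ) + 1) * (C * k) = ε * (A * k) := by linear_combination (-(k : ℝ)) * a2
      _ ≤ ε * (⌈A * k / w⌉₊ * w) := by gcongr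
      _ = _ := by ring
  · refine le_trans ?_ f3
    have a1 : (⌈A * k / w⌉₊ : ℝ) ≤ (A + 1) * k / w := by
      have b1 := (Nat.ceil_lt_add_one (show 0 ≤ A * k / w by positivity)).le
      have b2 : (1 : ℝ) ≤ k / w := by rw [le_div_iff₀ hw0]; linarith
      have b3 : (A + 1) * k / w = A * k / w + k / w := by ring
      linarith
    have a2 : Real.log ((n : ℝ) + 1) ≤ Real.log 17 + 2 * D * Real.log w := by
      calc _ ≤ Real.log (17 * (w : ℝ) ^ (2 * D)) := Real.log_le_log (by positivity) hn17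
        _ = _ := by rw [Real.log_mul (by norm_num) (by positivity), Real.log_pow]; push_cast; ring
    have a3 : 0 ≤ Real.log ((n : ℝ) + 1) := Real.log_nonneg (by linarith)
    have a4 : ((n : ℝ) + 1) ^ (⌈A * k / w⌉₊ * (2 * J + 2)) =
        Real.exp ((⌈A * k / w⌉₊ : ℝ) * (2 * J + 2) * Real.log ((n : ℝ) + 1)) := by
      rw [mul_comm _ (Real.log _), Real.exp_mul, Real.exp_log (by positivity), ← Real.rpow_natCast]
      push_cast
      rfl
    rw [a4, ← Real.exp_add]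
    refine Real.exp_le_exp.2 ?_
    have a5 : (⌈A * k / w⌉₊ : ℝ) * (2 * J + 2) * Real.log ((n : ℝ) + 1) ≤
        (A + 1) * k / w * (2 * J + 2) * (Real.log 17 + 2 * D * Real.log w) := by gcongr
    have a6 : (A + 1) * k / w * (2 * J + 2) * (Real.log 17 + 2 * D * Real.log w) =
        k * ((A + 1) * (2 * J + 2) * (Real.log 17 + 2 * D * Real.log w) / w) := by ring
    have a7 : k * ((A + 1) * (2 * J + 2) * (Real.log 17 + 2 * D * Real.log w) / w) ≤
        k * (ε ^ 2 / 8) := by gcongr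
    have a8 : ε ^ 2 / 8 * w ≤ ε ^ 2 / 8 * k := by gcongr
    linarith

end Pool.Agent.P.MP_cb22e8_co.AC
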