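import Pool.Agent.P.MP_cb22e8_co.AC.Defs

/-!
Numerical choice of the parameters `s`, `M` for the pattern bound.
-/

open Finset

namespace Pool.Agent.P.MP_cb22e8_co.AC

namespace NumPar

theorem pow_fac_le (μ ν : ℝ) (M : ℕ) (h0 : 0 ≤ μ) (h1 : μ ≤ ν) (hM : 8 * ν ≤ M) :
    μ ^ M / M.factorial ≤ Real.exp (-(4 * ν)) := by
  have h2 : (4 * μ) ^ M / M.factorial ≤ Real.exp (4 * μ) :=
    Real.pow_div_factorial_le_exp _ (by positivity) M
  have h3 : Real.exp 1 ≤ 4 := by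
    have := Real.exp_one_lt_d9
    linarith
  have h4 : Real.exp M ≤ (4 : ℝ) ^ M := by
    have : Real.exp M = Real.exp 1 ^ M := by rw [← Real.exp_nat_mul]; simp
    rw [this]
    exact pow_le_pow_left₀ (Real.exp_pos 1).le h3 M
  have h5 : μ ^ M / M.factorial = ((4 * μ) ^ M / M.factorial) / 4 ^ M := by
    rw [mul_pow]; field_simp
  rw [h5, div_le_iff₀ (by positivity)]
  calc (4 * μ) ^ M / M.factorial ≤ Real.exp (4 * μ) := h2
    _ ≤ Real.exp (-(4 * ν) + M) := Real.exp_le_exp.2 (by linarith)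
    _ = Real.exp (-(4 * ν)) * Real.exp M := Real.exp_add _ _
    _ ≤ Real.exp (-(4 * ν)) * 4 ^ M := by gcongr

theorem one_div_pow_le (W a : ℝ) (m : ℕ) (hW : 1 ≤ W) (ha : a ≤ W) (hm : 1 ≤ m) :
    a / W ^ m ≤ 1 := by
  rw [div_le_one (by positivity)]
  exact ha.trans (le_self_pow₀ hW (by omega))

end NumPar

open NumPar in
theorem pNumPar : StNumPar := by
  intro C j e b ε₀ hC hj he hb hbj hε
  refine ⟨⌈(2 * j * C + (3 * j ^ 2 + 1) + 17 + 18 * C * (2 * (j * e : ℕ) + 1) * j.factorial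
    + j.factorial * (1 + 1 / ε₀) : ℝ)⌉₊, ?_⟩
  intro w k n hw hk1 hk2 hn1 hn2
  have hT := Nat.ceil_le.1 hw
  set W : ℝ := (w : ℝ) with hWdef
  have hC' : (1 : ℝ) ≤ C := by exact_mod_cast hC
  have hj' : (2 : ℝ) ≤ j := by exact_mod_cast hj
  have hf : (1 : ℝ) ≤ j.factorial := by exact_mod_cast Nat.factorial_pos j
  have t1 : (0 : ℝ) ≤ 2 * j * C := by positivity
  have t2 : (0 : ℝ) ≤ 3 * j ^ 2 + 1 := by positivity
  have t3 : (0 : ℝ) ≤ 18 * C * (2 * (j * e : ℕ) + 1) * j.factorial := by positivity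
  have t4 : (0 : ℝ) ≤ j.factorial * (1 + 1 / ε₀) := by positivity
  have w1 : 2 * j * C ≤ W := by linarith
  have w2 : 3 * (j : ℝ) ^ 2 + 1 ≤ W := by linarith
  have w3 : (17 : ℝ) ≤ W := by linarith
  have w4 : 18 * C * (2 * (j * e : ℕ) + 1) * j.factorial ≤ W := by linarith
  have w5 : j.factorial * (1 + 1 / ε₀) ≤ W := by linarith
  have hW : (1 : ℝ) ≤ W := by linarith
  have hW0 : (0 : ℝ) < W := by linarith
  have hD : e + 4 ≤ j * e := by
    have := Nat.mul_le_mul_right e hj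
    omega
  obtain ⟨u, hu⟩ : ∃ u, j * e = u + (e + 2) := ⟨j * e - (e + 2), by omega⟩
  have hu1 : 1 ≤ u := by omega
  have k1 : W ^ (j * e) ≤ k := by rw [hWdef]; exact_mod_cast hk1
  have k2 : (k : ℝ) ≤ 2 * W ^ (j * e) := by rw [hWdef]; exact_mod_cast hk2
  have n1 : (k : ℝ) ^ 2 ≤ n := by exact_mod_cast hn1
  have n2 : (n : ℝ) ≤ 4 * (k : ℝ) ^ 2 := by exact_mod_cast hn2
  set ρ : ℝ := 1 / W ^ (e + 2) with hρ
  have hρ0 : 0 < ρ := by positivity
  have hk0 : (0 : ℝ) < k := lt_of_lt_of_le (by positivity) k1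
  have hn0 : (0 : ℝ) < n := lt_of_lt_of_le (by positivity) n1
  have hP : ρ * W ^ (j * e) = W ^ u := by
    rw [hρ, hu, pow_add W u]; field_simp
  have hPW : W ≤ W ^ u := le_self_pow₀ hW (by omega)
  have r1 : W ^ u ≤ ρ * k := by rw [← hP]; gcongr
  have r2 : ρ * k ≤ 2 * W ^ u := by
    rw [← hP]
    calc ρ * k ≤ ρ * (2 * W ^ (j * e)) := by gcongr
      _ = 2 * (ρ * W ^ (j * e)) := by ring
  have hL : W * ρ = 1 / W ^ (e + 1) := by
    rw [hρ, pow_succ W (e + 1)]; field_simp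
  have hjW : (j : ℝ) ≤ W := by
    have := le_mul_of_one_le_right (show (0 : ℝ) ≤ 2 * j by positivity) hC'
    linarith
  set s : ℕ := ⌈4 * (j + ρ * ((C * k : ℕ) : ℝ))⌉₊ with hs
  have hN : ρ * ((C * k : ℕ) : ℝ) = C * (ρ * k) := by push_cast; ring
  have r3 : ρ * k ≤ C * (ρ * k) := le_mul_of_one_le_left (by positivity) hC'
  have s1 : (s : ℝ) ≤ 9 * (C * (ρ * k)) := by
    have := Nat.ceil_lt_add_one (show (0 : ℝ) ≤ 4 * (j + ρ * ((C * k : ℕ) : ℝ)) by positivity)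
    rw [← hs, hN] at this
    linarith
  set ν : ℝ := n * ρ ^ j * (9 * C) ^ j / j.factorial with hν
  have hν1 : W ^ u * W ^ 2 / j.factorial ≤ ν := by
    rw [hν]
    refine div_le_div_of_nonneg_right ?_ (by positivity)
    have a1 : (1 : ℝ) ≤ (9 * C) ^ j := one_le_pow₀ (by linarith)
    have a2 : W ^ u * W ^ 2 ≤ n * ρ ^ j := by
      rw [hρ, one_div_pow, mul_one_div, le_div_iff₀ (by positivity), ← pow_mul, ← pow_add,
        ← pow_add]
      calc W ^ (u + 2 + (e + 2) * j) ≤ W ^ (j * e * 2) :=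
            pow_le_pow_right₀ hW (by
              have : (e + 2) * j = j * e + 2 * j := by ring
              omega)
        _ = (W ^ (j * e)) ^ 2 := by rw [← pow_mul]
        _ ≤ (k : ℝ) ^ 2 := by gcongr
        _ ≤ n := n1
    calc W ^ u * W ^ 2 ≤ n * ρ ^ j := a2
      _ ≤ n * ρ ^ j * (9 * C) ^ j := le_mul_of_one_le_right (by positivity) a1
  have hν2 : 1 + 1 / ε₀ ≤ ν := by
    refine le_trans ?_ hν1
    rw [le_div_iff₀ (by positivity)]
    have a1 : (1 : ℝ) ≤ W ^ 2 := one_le_pow₀ hW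
    have a2 : W ^ u ≤ W ^ u * W ^ 2 := le_mul_of_one_le_right (by positivity) a1
    linarith
  have hε' : 0 < 1 / ε₀ := by positivity
  set M : ℕ := ⌈8 * ν⌉₊ with hM
  have m1 : 8 * ν ≤ M := Nat.le_ceil _
  have m2 : (M : ℝ) ≤ 16 * ν := by
    have := Nat.ceil_lt_add_one (show (0 : ℝ) ≤ 8 * ν by linarith)
    rw [← hM] at this
    linarith
  refine ⟨s, M, ⟨hρ0, ?_, ?_, ?_, ?_, Nat.le_ceil _⟩, ?_, ?_⟩
  · rw [hL]; exact one_div_pow_le W 1 _ hW hW (by omega)
  · rw [hL, one_div_pow, mul_one_div, ← pow_mul, div_le_one (by positivity)]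
    have a1 : W ^ ((e + 1) * j) = W ^ (j * e) * W ^ j := by rw [← pow_add]; congr 1; ring
    have a2 : W ≤ W ^ j := le_self_pow₀ hW (by omega)
    rw [a1]; push_cast
    calc (j : ℝ) * (C * k) ≤ j * (C * (2 * W ^ (j * e))) := by gcongr
      _ = W ^ (j * e) * (2 * j * C) := by ring
      _ ≤ W ^ (j * e) * W ^ j := by gcongr; linarith
  · rw [hL, one_div_pow, mul_one_div, ← pow_mul, div_le_one (by positivity)]
    obtain ⟨i, rfl⟩ : ∃ i, j = i + 1 := ⟨j - 1, by omega⟩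
    have a0 : (i + 1) * e - b + 1 ≤ (e + 1) * (i + 1 - 1) := by
      have : (i + 1) * e - b ≤ i * e := by
        have : (i + 1) * e = i * e + e := by ring
        omega
      have h2 : (e + 1) * (i + 1 - 1) = i * e + i := by simp; ring
      omega
    rw [Nat.cast_pow, ← hWdef]
    calc ((i + 1 : ℕ) : ℝ) ^ 2 * W ^ ((i + 1) * e - b) ≤ W * W ^ ((i + 1) * e - b) := by
          gcongr; linarith [sq_nonneg ((i + 1 : ℕ) : ℝ)]
      _ = W ^ ((i + 1) * e - b + 1) := by ring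
      _ ≤ _ := pow_le_pow_right₀ hW a0
  · rw [hL, mul_one_div, div_le_one (by positivity), pow_succ W e]
    have a2 : W ≤ W ^ e := le_self_pow₀ hW (by omega)
    push_cast
    rw [← hWdef]
    calc (j : ℝ) ^ 2 * (3 * W) + 1 ≤ (j : ℝ) ^ 2 * (3 * W) + W := by linarith
      _ = (3 * (j : ℝ) ^ 2 + 1) * W := by ring
      _ ≤ W ^ e * W := by gcongr; linarith
  · rw [div_le_iff₀ (by positivity)]
    calc (M : ℝ) ≤ 16 * ν := m2
      _ = _ := by rw [hν]; ring
  · have c1 : (s.choose j : ℝ) ≤ (s : ℝ) ^ j / j.factorial := Nat.choose_le_pow_div j s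
    have c2 : (n : ℝ) * s.choose j * ((k : ℝ) / n) ^ j ≤ ν := by
      have a1 : (s : ℝ) * (k / n) ≤ ρ * (9 * C) := by
        calc (s : ℝ) * (k / n) ≤ 9 * (C * (ρ * k)) * (k / n) := by gcongr
          _ = ρ * (9 * C) * ((k : ℝ) ^ 2 / n) := by ring
          _ ≤ ρ * (9 * C) := mul_le_of_le_one_right (by positivity) ((div_le_one hn0).2 n1)
      calc (n : ℝ) * s.choose j * ((k : ℝ) / n) ^ j
          ≤ n * ((s : ℝ) ^ j / j.factorial) * ((k : ℝ) / n) ^ j := by gcongr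
        _ = n * ((s : ℝ) * (k / n)) ^ j / j.factorial := by rw [mul_pow]; ring
        _ ≤ n * (ρ * (9 * C)) ^ j / j.factorial := by gcongr
        _ = ν := by rw [hν, mul_pow]; ring
    have c3 := pow_fac_le _ ν M (by positivity) c2 m1
    have c4 : (n : ℝ) + 1 ≤ Real.exp (W * (2 * (j * e : ℕ) + 1)) := by
      have a1 : (1 : ℝ) ≤ (W ^ (j * e)) ^ 2 := one_le_pow₀ (one_le_pow₀ hW)
      have a2 : (k : ℝ) ^ 2 ≤ (2 * W ^ (j * e)) ^ 2 := by gcongr
      have a3 : W ≤ Real.exp W := by linarith [Real.add_one_le_exp W]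
      have a4 : (2 * W ^ (j * e)) ^ 2 = 4 * (W ^ (j * e)) ^ 2 := by rw [mul_pow]; norm_num
      calc (n : ℝ) + 1 ≤ 17 * (W ^ (j * e)) ^ 2 := by linarith
        _ ≤ W * (W ^ (j * e)) ^ 2 := by gcongr
        _ = W ^ (2 * (j * e) + 1) := by ring
        _ ≤ Real.exp W ^ (2 * (j * e) + 1) := by gcongr
        _ = _ := by rw [← Real.exp_nat_mul]; congr 1; push_cast; ring
    have c5 : ((n : ℝ) + 1) ^ s ≤ Real.exp ν := by
      calc ((n : ℝ) + 1) ^ s ≤ Real.exp (W * (2 * (j * e : ℕ) + 1)) ^ s := by gcongr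
        _ = Real.exp (s * (W * (2 * (j * e : ℕ) + 1))) := by rw [← Real.exp_nat_mul]
        _ ≤ Real.exp ν := by
          refine Real.exp_le_exp.2 (le_trans ?_ hν1)
          rw [le_div_iff₀ (by positivity)]
          have a1 : (s : ℝ) ≤ 18 * C * W ^ u := by
            have := mul_le_mul_of_nonneg_left r2 (show (0 : ℝ) ≤ C by positivity)
            linarith
          calc (s : ℝ) * (W * (2 * (j * e : ℕ) + 1)) * j.factorial
              ≤ 18 * C * W ^ u * (W * (2 * (j * e : ℕ) + 1)) * j.factorial := by gcongr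
            _ = W ^ u * W * (18 * C * (2 * (j * e : ℕ) + 1) * j.factorial) := by ring
            _ ≤ W ^ u * W * W := by gcongr
            _ = W ^ u * W ^ 2 := by ring
    have c6 : Real.exp ν * Real.exp (-(4 * ν)) ≤ ε₀ := by
      rw [← Real.exp_add]
      have a1 : 1 / ε₀ ≤ Real.exp ν := by linarith [Real.add_one_le_exp ν]
      calc Real.exp (ν + -(4 * ν)) ≤ Real.exp (-ν) := Real.exp_le_exp.2 (by linarith)
        _ = 1 / Real.exp ν := by rw [Real.exp_neg, one_div]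
        _ ≤ ε₀ := (one_div_le (Real.exp_pos ν) hε).2 a1
    unfold patB
    rw [mul_div_assoc]
    calc _ ≤ Real.exp ν * Real.exp (-(4 * ν)) := by gcongr
      _ ≤ ε₀ := c6

end Pool.Agent.P.MP_cb22e8_co.AC
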