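import Pool.Agent.P.MP_cb22e8_co.AC.Defs

/-!
The clipped estimator at one step: lower bound at every point, upper bound on average.
-/

open Finset

namespace Pool.Agent.P.MP_cb22e8_co.AC

namespace One

section av
variable {Ω : Type} [Fintype Ω]

theorem av_mono {f g : Ω → ℝ} (h : ∀ ω, f ω ≤ g ω) : av f ≤ av g := by
  unfold av
  exact div_le_div_of_nonneg_right (Finset.sum_le_sum fun ω _ => h ω) (Nat.cast_nonneg _)

theorem av_add (f g : Ω → ℝ) : (av fun ω => f ω + g ω) = av f + av g := by
  unfold av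
  rw [Finset.sum_add_distrib, add_div]

theorem av_sub (f g : Ω → ℝ) : (av fun ω => f ω - g ω) = av f - av g := by
  unfold av
  rw [Finset.sum_sub_distrib, sub_div]

theorem av_const [Nonempty Ω] (a : ℝ) : (av fun _ : Ω => a) = a := by
  unfold av
  have h : (Fintype.card Ω : ℝ) ≠ 0 := Nat.cast_ne_zero.2 Fintype.card_ne_zero
  rw [Finset.sum_const, Finset.card_univ, nsmul_eq_mul]
  field_simp

theorem av_div (f : Ω → ℝ) (a : ℝ) : (av fun ω => f ω / a) = av f / a := by
  unfold av
  rw [← Finset.sum_div, div_right_comm]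

theorem av_comm {Ω' : Type} [Fintype Ω'] (f : Ω → Ω' → ℝ) :
    (av fun c => av fun y => f c y) = av fun y => av fun c => f c y := by
  unfold av
  rw [← Finset.sum_div, ← Finset.sum_div, Finset.sum_comm, div_right_comm]

theorem av_abs [Nonempty Ω] (f : Ω → ℝ) {ε : ℝ} (hε : 0 < ε)
    (h : (av fun ω => f ω ^ 2) ≤ ε ^ 2) : (av fun ω => |f ω|) ≤ ε := by
  have h1 : ∀ ω, |f ω| ≤ ε / 2 + f ω ^ 2 / (2 * ε) := by
    intro ω
    have h2 : 0 ≤ (|f ω| - ε) ^ 2 := sq_nonneg _
    have h3 : |f ω| ^ 2 = f ω ^ 2 := sq_abs _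
    have h4 : ε / 2 + f ω ^ 2 / (2 * ε) - |f ω| = (|f ω| - ε) ^ 2 / (2 * ε) := by
      rw [← h3]
      field_simp
      ring
    have h5 : 0 ≤ (|f ω| - ε) ^ 2 / (2 * ε) := by positivity
    linarith
  refine (av_mono h1).trans ?_
  rw [av_add, av_const, av_div]
  have h6 : (av fun ω => f ω ^ 2) / (2 * ε) ≤ ε ^ 2 / (2 * ε) :=
    div_le_div_of_nonneg_right h (by positivity)
  have h7 : ε ^ 2 / (2 * ε) = ε / 2 := by
    field_simp
  linarith

end av

theorem clip_le_one (x : ℝ) : clip x ≤ 1 := by
  unfold clip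
  exact max_le zero_le_one (min_le_right _ _)

theorem clip_lower {g m x : ℝ} (h1 : g ≤ 1) (h2 : g ≤ m) : g - |x - m| ≤ clip x := by
  unfold clip
  refine le_max_of_le_right (le_min ?_ ?_)
  · have := neg_abs_le (x - m)
    linarith
  · have := abs_nonneg (x - m)
    linarith

theorem clip_upper {m x : ℝ} (h : 0 ≤ m) : clip x ≤ m + |x - m| := by
  unfold clip
  refine max_le ?_ ((min_le_left _ _).trans ?_)
  · have := abs_nonneg (x - m)
    linarith
  · have := le_abs_self (x - m)
    linarith

section grp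
variable {G : Type} [AddCommGroup G] [Fintype G] [DecidableEq G]

omit [Fintype G] in
theorem nb_subset (B Z T : Finset G) (y t : G) : nb B Z T y t ⊆ rep B T (y + t) := by
  intro t' ht'
  unfold nb at ht'
  unfold rep
  rw [Finset.mem_filter] at ht' ⊢
  exact ⟨ht'.1, ht'.2.1⟩

omit [Fintype G] in
theorem nb_eq (B Z T : Finset G) (y t : G)
    (hy : y ∉ (T ×ˢ Z).image fun p : G × G => p.1 - p.2) : nb B Z T y t = rep B T (y + t) := by
  unfold nb rep
  refine Finset.filter_congr fun t' ht' => ⟨fun h => h.1, fun h => ⟨h, fun hz => hy ?_⟩⟩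
  exact Finset.mem_image.2 ⟨(t', t' - y), Finset.mem_product.2 ⟨ht', hz⟩, by simp⟩

theorem count_le (h2 : StQ) (B Z T : Finset G) (J L : ℕ) (hL : 1 ≤ L) (y : G) :
    ((T.filter fun t => y + t ∈ unc B T).card : ℝ) ≤ ∑ t ∈ T, Qf L J (nb B Z T y t).card := by
  obtain ⟨q0, q1, -⟩ := h2 L J hL
  rw [Finset.card_filter]
  push_cast
  refine Finset.sum_le_sum fun t _ => ?_
  split_ifs with h
  · have h' : rep B T (y + t) = ∅ := (Finset.mem_filter.1 h).2
    have h'' : nb B Z T y t = ∅ := Finset.subset_empty.1 (h' ▸ nb_subset B Z T y t)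
    rw [h'', Finset.card_empty, q0]
  · exact q1 _

theorem sum_shift (T : Finset G) (F : G → ℝ) :
    ∑ y, ∑ t ∈ T, F (y + t) = T.card * ∑ x, F x := by
  rw [Finset.sum_comm]
  have h : ∀ t ∈ T, ∑ y, F (y + t) = ∑ x, F x := fun t _ =>
    Fintype.sum_equiv (Equiv.addRight t) _ _ fun _ => rfl
  rw [Finset.sum_congr rfl h, Finset.sum_const, nsmul_eq_mul]

end grp

end One

open One in
theorem pOne (h1 : StEst) (h2 : StQ) : StOne := by
  intro G _ _ _ A B T J L N Δ ε hBA hT hN hL hε hv
  haveI : Nonempty (Fin L) := ⟨⟨0, hL⟩⟩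
  have hNr : (0 : ℝ) < N := Nat.cast_pos.2 hN
  have hn : (0 : ℝ) < Fintype.card G := Nat.cast_pos.2 Fintype.card_pos
  have q1 := (h2 L J hL).2.1
  set Z := Zs A T Δ with hZ
  let m : G → ℝ := fun y => (∑ t ∈ T, Qf L J (nb B Z T y t).card) / N
  let e : Lab G J L → G → ℝ := fun c y =>
    est L J N B Z (lab T c none) (fun l => lab T c (some l)) y
  have hab : ∀ y, (av fun c : Lab G J L => |e c y - m y|) ≤ ε := fun y =>
    av_abs (fun c => e c y - m y) hε ((h1 G A B T J L N Δ y hBA hT hN hL).trans hv)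
  have hm0 : ∀ y, 0 ≤ m y := fun y =>
    div_nonneg (Finset.sum_nonneg fun t _ => q1 _) hNr.le
  refine ⟨fun y => ?_, ?_⟩
  · set g : ℝ := ((T.filter fun t => y + t ∈ unc B T).card : ℝ) / N with hg
    have g1 : g ≤ 1 := by
      rw [hg, div_le_one hNr, ← hT]
      exact Nat.cast_le.2 (Finset.card_filter_le _ _)
    have g2 : g ≤ m y := div_le_div_of_nonneg_right (count_le h2 B Z T J L hL y) hNr.le
    have h3 : (av fun c : Lab G J L => g - |e c y - m y|) ≤
        av fun c : Lab G J L => fL N B Z T c y := av_mono fun c => clip_lower g1 g2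
    rw [av_sub, av_const] at h3
    have := hab y
    linarith
  · let bad : Finset G := (T ×ˢ Z).image fun p : G × G => p.1 - p.2
    let h : G → ℝ := fun y =>
      (∑ t ∈ T, Qf L J (rep B T (y + t)).card) / N + if y ∈ bad then 1 else 0
    have hp : ∀ (c : Lab G J L) (y : G), fL N B Z T c y ≤ h y + |e c y - m y| := by
      intro c y
      by_cases hy : y ∈ bad
      · have a1 : fL N B Z T c y ≤ 1 := clip_le_one _
        have a2 : 0 ≤ (∑ t ∈ T, Qf L J (rep B T (y + t)).card) / N :=
          div_nonneg (Finset.sum_nonneg fun t _ => q1 _) hNr.le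
        have a3 := abs_nonneg (e c y - m y)
        have a4 : h y = (∑ t ∈ T, Qf L J (rep B T (y + t)).card) / N + 1 := by
          simp only [h, if_pos hy]
        linarith
      · have a1 : fL N B Z T c y ≤ m y + |e c y - m y| := clip_upper (hm0 y)
        have a2 : h y = m y := by
          simp only [h, m, if_neg hy, add_zero]
          congr 1
          exact Finset.sum_congr rfl fun t _ => by rw [nb_eq B Z T y t hy]
        linarith
    rw [av_comm]
    have h4 : ∀ y, (av fun c : Lab G J L => fL N B Z T c y) ≤ h y + ε := by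
      intro y
      have a1 := av_mono fun c : Lab G J L => hp c y
      rw [av_add, av_const] at a1
      have := hab y
      linarith
    refine (av_mono h4).trans ?_
    rw [av_add, av_const]
    have h5 : ∑ y, h y = (∑ x, Qf L J (rep B T x).card) + bad.card := by
      simp only [h]
      rw [Finset.sum_add_distrib, ← Finset.sum_div,
        sum_shift T fun x => Qf L J (rep B T x).card, hT, mul_div_cancel_left₀ _ hNr.ne']
      congr 1
      simp
    have h6 : (bad.card : ℝ) ≤ N * Z.card := by
      have a1 : bad.card ≤ N * Z.card := by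
        refine Finset.card_image_le.trans ?_
        rw [Finset.card_product, hT]
      exact_mod_cast a1
    have h7 : av h ≤ (∑ x, Qf L J (rep B T x).card) / Fintype.card G +
        (N : ℝ) * Z.card / Fintype.card G := by
      unfold av
      rw [h5, ← add_div]
      exact div_le_div_of_nonneg_right (by linarith) hn.le
    linarith

end Pool.Agent.P.MP_cb22e8_co.AC
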