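import Pool.Agent.P.MP_cb22e8_co.AC.Defs

/-! Probability of many disjoint patterns. -/

open Finset

namespace Pool.Agent.P.MP_cb22e8_co.AC

namespace Pat

theorem ind_nonneg (P : Prop) : 0 ≤ ind P := by unfold ind; split_ifs <;> norm_num

theorem av_sum {Ω ι : Type} [Fintype Ω] (s : Finset ι) (f : ι → Ω → ℝ) :
    (av fun ω => ∑ i ∈ s, f i ω) = ∑ i ∈ s, av (f i) := by
  unfold av
  rw [sum_comm, sum_div]

theorem av_mono {Ω : Type} [Fintype Ω] {f g : Ω → ℝ} (h : ∀ ω, f ω ≤ g ω) : av f ≤ av g :=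
  div_le_div_of_nonneg_right (sum_le_sum fun ω _ => h ω) (Nat.cast_nonneg _)

variable {G : Type} [AddCommGroup G] [Fintype G] [DecidableEq G]

/-- families of `M` disjoint patterns over `T` -/
def fm (j M : ℕ) (T : Finset G) : Finset (Finset (G × Finset G)) :=
  (powersetCard M (univ ×ˢ powersetCard j T)).filter fun P => ∀ c ∈ P, ∀ c' ∈ P, ¬ Conf c c'

theorem card_union {j M : ℕ} {T : Finset G} {P : Finset (G × Finset G)} (h : P ∈ fm j M T) :
    (P.biUnion aset).card = j * M := by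
  simp only [fm, mem_filter, mem_powersetCard] at h
  rw [card_biUnion fun c hc c' hc' ne => by_contra fun k => h.2 c hc c' hc' ⟨ne, k⟩,
    sum_congr rfl (g := fun _ => j) fun c hc => ?_, sum_const, h.1.2, smul_eq_mul, mul_comm]
  rw [aset, card_image_of_injective _ sub_right_injective]
  exact (mem_powersetCard.1 (mem_product.1 (h.1.1 hc)).2).2

theorem card_fm {j M s : ℕ} {T : Finset G} (h : T.card ≤ s) :
    ((fm j M T).card : ℝ) ≤ ((Fintype.card G : ℝ) * s.choose j) ^ M / M.factorial := by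
  have h1 : (fm j M T).card ≤ (Fintype.card G * s.choose j).choose M := by
    refine (card_filter_le _ _).trans ?_
    rw [card_powersetCard, card_product, card_powersetCard, card_univ]
    exact Nat.choose_le_choose _ (Nat.mul_le_mul_left _ (Nat.choose_le_choose _ h))
  refine le_trans (by exact_mod_cast h1) ((Nat.choose_le_pow_div M _).trans (le_of_eq ?_))
  push_cast
  rfl

theorem ind_le (A : Finset G) (j s M : ℕ) : ind (¬ NoPat A j s M) ≤
    ∑ T ∈ univ.filter fun T : Finset G => T.card ≤ s, ∑ P ∈ fm j M T, ind (P.biUnion aset ⊆ A) := by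
  have n0 : ∀ T : Finset G, 0 ≤ ∑ P ∈ fm j M T, ind (P.biUnion aset ⊆ A) := fun T =>
    sum_nonneg fun P _ => ind_nonneg _
  by_cases h : NoPat A j s M
  · rw [ind, if_neg (not_not.2 h)]
    exact sum_nonneg fun T _ => n0 T
  rw [ind, if_pos h]
  simp only [NoPat, not_forall, not_lt] at h
  obtain ⟨T, h1, P, h2, h3, h4⟩ := h
  obtain ⟨P', h5, h6⟩ := exists_subset_card_eq h4
  have h7 : P' ∈ fm j M T := mem_filter.2 ⟨mem_powersetCard.2 ⟨fun c hc => mem_product.2
    ⟨mem_univ _, mem_powersetCard.2 ⟨(h2 c (h5 hc)).1, (h2 c (h5 hc)).2.1⟩⟩, h6⟩,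
    fun c hc c' hc' => h3 c (h5 hc) c' (h5 hc')⟩
  refine le_trans ?_ (single_le_sum (fun T _ => n0 T) (mem_filter.2 ⟨mem_univ T, h1⟩))
  refine le_trans ?_ (single_le_sum (f := fun P => ind (P.biUnion aset ⊆ A))
    (fun P _ => ind_nonneg _) h7)
  rw [ind, if_pos (biUnion_subset.2 fun c hc => (h2 c (h5 hc)).2.2)]

end Pat

theorem pPat (h1 : StSub) (h2 : StFew) : StPat := by
  intro G _ _ _ k j s M
  refine (Pat.av_mono fun a => Pat.ind_le (img a) j s M).trans ?_
  rw [Pat.av_sum]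
  refine (sum_le_card_nsmul _ _ (((Fintype.card G : ℝ) * s.choose j) ^ M / M.factorial *
    ((k : ℝ) / Fintype.card G) ^ (j * M)) fun T hT => ?_).trans ?_
  · rw [Pat.av_sum]
    refine (sum_le_card_nsmul _ _ (((k : ℝ) / Fintype.card G) ^ (j * M)) fun P hP => ?_).trans ?_
    · rw [← Pat.card_union hP]
      exact h1 G k _
    · rw [nsmul_eq_mul]
      exact mul_le_mul_of_nonneg_right (Pat.card_fm (mem_filter.1 hT).2) (by positivity)
  · rw [nsmul_eq_mul, patB, mul_pow _ (((k : ℝ) / Fintype.card G) ^ j), ← pow_mul, mul_div_assoc,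
      mul_div_right_comm]
    exact mul_le_mul_of_nonneg_right (by exact_mod_cast h2 G s) (by positivity)

end Pool.Agent.P.MP_cb22e8_co.AC
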