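import Pool.Agent.P.MP_cb22e8_co.AC.Defs

/-!
Mean and variance of the estimator at one point; sizes of the subsamples.
-/

open Finset

namespace Pool.Agent.P.MP_cb22e8_co.AC

namespace Psi

section av
variable {Ω : Type} [Fintype Ω]

theorem av_mono {f g : Ω → ℝ} (h : ∀ ω, f ω ≤ g ω) : av f ≤ av g :=
  div_le_div_of_nonneg_right (sum_le_sum fun ω _ => h ω) (Nat.cast_nonneg _)

theorem av_add (f g : Ω → ℝ) : (av fun ω => f ω + g ω) = av f + av g := by
  unfold av; rw [sum_add_distrib, add_div]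

theorem av_mul (r : ℝ) (f : Ω → ℝ) : (av fun ω => r * f ω) = r * av f := by
  unfold av; rw [← mul_sum, mul_div_assoc]

theorem av_sum {τ : Type} (s : Finset τ) (f : τ → Ω → ℝ) :
    (av fun ω => ∑ t ∈ s, f t ω) = ∑ t ∈ s, av (f t) := by
  unfold av; rw [sum_comm, sum_div]

theorem av_const [Nonempty Ω] (r : ℝ) : (av fun _ : Ω => r) = r := by
  unfold av
  have : (Fintype.card Ω : ℝ) ≠ 0 := by exact_mod_cast Fintype.card_ne_zero
  rw [sum_const, card_univ, nsmul_eq_mul]
  field_simp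

theorem av_affine [Nonempty Ω] (a b : ℝ) (f : Ω → ℝ) :
    (av fun ω => a + b * f ω) = a + b * av f := by
  rw [av_add (fun _ => a), av_const, av_mul]

theorem av_var_le [Nonempty Ω] (f : Ω → ℝ) (a : ℝ) :
    (av fun ω => (f ω - av f) ^ 2) ≤ av fun ω => (f ω - a) ^ 2 := by
  have h : (fun ω => (f ω - a) ^ 2) = fun ω => (f ω - av f) ^ 2 +
      ((a ^ 2 - av f ^ 2) + 2 * (av f - a) * f ω) := by
    funext ω; ring
  rw [h, av_add, av_affine]
  nlinarith [sq_nonneg (av f - a)]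

end av

theorem ind_pos {P : Prop} (h : P) : ind P = 1 := if_pos h

theorem ind_neg {P : Prop} (h : ¬ P) : ind P = 0 := if_neg h

theorem ind_le_one (P : Prop) : ind P ≤ 1 := by
  unfold ind; split_ifs <;> norm_num

theorem av_ind (L : ℕ) (hL : 1 ≤ L) : (av fun x : Fin L => ind ((x : ℕ) = 0)) = 1 / L := by
  unfold av
  rw [Fintype.card_fin, Finset.sum_eq_single (⟨0, hL⟩ : Fin L), ind_pos rfl]
  · intro b _ hb
    exact ind_neg fun h => hb (Fin.ext h)
  · simp

theorem q_nonneg {L : ℕ} (hL : 1 ≤ L) : 0 ≤ 1 - 1 / (L : ℝ) := by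
  have : (1 : ℝ) ≤ L := by exact_mod_cast hL
  rw [sub_nonneg, div_le_one (by linarith)]
  exact this

theorem q_le_one (L : ℕ) : 1 - 1 / (L : ℝ) ≤ 1 := sub_le_self _ (by positivity)

theorem pr_ge {L : ℕ} (hL : 1 ≤ L) (i : ℕ) : 1 / (L : ℝ) ≤ pr L (i + 1) := by
  have := pow_le_of_le_one (q_nonneg hL) (q_le_one L) (Nat.add_one_ne_zero i)
  unfold pr
  linarith

theorem pr_le {L : ℕ} (hL : 1 ≤ L) (d : ℕ) : pr L d ≤ 1 :=
  sub_le_self _ (pow_nonneg (q_nonneg hL) d)

theorem factor_le {L : ℕ} (hL : 1 ≤ L) (i : ℕ) (P : Prop) : |1 - ind P / pr L (i + 1)| ≤ L := by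
  have h1 : (1 : ℝ) ≤ L := by exact_mod_cast hL
  by_cases h : P
  · have h2 := pr_ge hL i
    have h3 : 0 < pr L (i + 1) := lt_of_lt_of_le (by positivity) h2
    have h4 : 1 / pr L (i + 1) ≤ L := by
      rw [div_le_iff₀ h3]
      rw [div_le_iff₀ (by linarith)] at h2
      linarith
    have h5 : 0 ≤ 1 / pr L (i + 1) := by positivity
    rw [ind_pos h, abs_le]
    constructor <;> linarith
  · simpa [ind_neg h] using h1

theorem prod_le {L : ℕ} (hL : 1 ≤ L) (J : ℕ) (P : Fin J × Bool → Prop) :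
    |∏ l : Fin J × Bool, (1 - ind (P l) / pr L (l.1 + 1))| ≤ (L : ℝ) ^ (2 * J) := by
  rw [abs_prod]
  refine (prod_le_prod (fun l _ => abs_nonneg _) fun l _ => factor_le hL l.1 (P l)).trans ?_
  rw [prod_const, card_univ, Fintype.card_prod, Fintype.card_fin, Fintype.card_bool, mul_comm]

theorem mul_pow_le {L : ℕ} (hL : 1 ≤ L) (d : ℕ) : d * (1 - 1 / (L : ℝ)) ^ d ≤ L := by
  have h1 : (0 : ℝ) < L := by exact_mod_cast hL
  have hx : (0 : ℝ) ≤ 1 / L := by positivity
  have h2 := one_add_mul_le_pow (a := 1 / (L : ℝ)) (by linarith) d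
  have h3 : (1 - 1 / (L : ℝ)) ^ d * (1 + 1 / (L : ℝ)) ^ d ≤ 1 := by
    rw [← mul_pow]
    exact pow_le_one₀ (mul_nonneg (q_nonneg hL) (by linarith)) (by nlinarith)
  have h4 := pow_nonneg (q_nonneg hL) d
  have h5 : (1 - 1 / (L : ℝ)) ^ d * (d * (1 / L)) ≤ 1 := by nlinarith
  have h6 : (d : ℝ) * (1 - 1 / (L : ℝ)) ^ d = (1 - 1 / (L : ℝ)) ^ d * (d * (1 / L)) * L := by
    field_simp
  rw [h6]
  nlinarith

theorem one_sub_ind {G : Type} (D : Finset G) (P : G → Prop) :
    1 - ind (∃ t ∈ D, P t) = ∏ t ∈ D, (1 - ind (P t)) := by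
  by_cases h : ∃ t ∈ D, P t
  · rw [ind_pos h, sub_self]
    obtain ⟨t, ht, hP⟩ := h
    exact (prod_eq_zero ht (by rw [ind_pos hP, sub_self])).symm
  · rw [ind_neg h, sub_zero]
    exact (prod_eq_one fun t ht => by rw [ind_neg fun hP => h ⟨t, ht, hP⟩, sub_zero]).symm

theorem av_miss (h1 : StProd) (h2 : StCoord) {G : Type} [Fintype G] [DecidableEq G] {J L : ℕ}
    (hL : 1 ≤ L) (D : Finset G) (o : Option (Fin J × Bool)) :
    (av fun c : Lab G J L => 1 - ind (∃ t ∈ D, (c (o, t) : ℕ) = 0)) =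
      (1 - 1 / (L : ℝ)) ^ D.card := by
  have : Nonempty (Fin L) := ⟨⟨0, hL⟩⟩
  simp only [one_sub_ind]
  rw [h1 _ (Fin L) G D (fun t c => 1 - ind ((c (o, t) : ℕ) = 0)) (fun t => {(o, t)})
    (fun t _ c c' h => by simp only [h _ (mem_singleton_self _)])
    (fun t _ t' _ h => by simpa using h), ← prod_const]
  refine prod_congr rfl fun t _ => ?_
  rw [h2 _ (Fin L) (o, t) fun x => 1 - ind ((x : ℕ) = 0), ← av_ind L hL]
  simpa [sub_eq_add_neg] using av_affine 1 (-1) fun x : Fin L => ind ((x : ℕ) = 0)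

end Psi

open Psi

theorem pPsi (h1 : StProd) (h2 : StCoord) : StPsi := by
  intro G _ _ _ J L D hL
  have : Nonempty (Fin L) := ⟨⟨0, hL⟩⟩
  have hmean : av (psiL (J := J) (L := L) D) = Qf L J D.card := by
    have := h1 _ (Fin L) _ univ
      (fun (l : Fin J × Bool) (c : Lab G J L) =>
        1 - ind (∃ t' ∈ D, (c (some l, t') : ℕ) = 0) / pr L (l.1 + 1))
      (fun l => D.image fun t => (some l, t))
      (fun l _ c c' h => by
        have : (∃ t' ∈ D, (c (some l, t') : ℕ) = 0) ↔ ∃ t' ∈ D, (c' (some l, t') : ℕ) = 0 :=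
          exists_congr fun t => and_congr_right fun ht => by rw [h _ (mem_image_of_mem _ ht)]
        simp only [this])
      (fun l _ l' _ h => by
        rw [disjoint_left]
        intro x hx hx'
        obtain ⟨t, -, rfl⟩ := mem_image.1 hx
        obtain ⟨t', -, h'⟩ := mem_image.1 hx'
        simp only [Prod.mk.injEq, Option.some.injEq] at h'
        exact h h'.1.symm)
    refine this.trans ?_
    have e : ∀ l : Fin J × Bool, (av fun c : Lab G J L =>
        1 - ind (∃ t' ∈ D, (c (some l, t') : ℕ) = 0) / pr L (l.1 + 1)) =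
        1 - pr L D.card / pr L (l.1 + 1) := by
      intro l
      have := av_affine (1 - 1 / pr L (l.1 + 1)) (1 / pr L (l.1 + 1))
        fun c : Lab G J L => 1 - ind (∃ t' ∈ D, (c (some l, t') : ℕ) = 0)
      rw [av_miss h1 h2 hL] at this
      refine Eq.trans (congrArg av (funext fun c => by ring)) (this.trans ?_)
      rw [show pr L D.card = 1 - (1 - 1 / (L : ℝ)) ^ D.card from rfl]
      ring
    rw [prod_congr rfl fun l _ => e l, Fintype.prod_prod_type, Qf]
    refine prod_congr rfl fun i _ => ?_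
    simp only [prod_const, card_univ, Fintype.card_bool]
  refine ⟨fun c => prod_le hL J _, hmean, ?_⟩
  rw [← hmean]
  set a : ℝ := ∏ l : Fin J × Bool, (1 - ind True / pr L (l.1 + 1)) with ha
  have hpt : ∀ c : Lab G J L, (psiL D c - a) ^ 2 ≤ 4 * (L : ℝ) ^ (4 * J) *
      ∑ l : Fin J × Bool, (1 - ind (∃ t' ∈ D, (c (some l, t') : ℕ) = 0)) := by
    intro c
    have hnn : ∀ l ∈ (univ : Finset (Fin J × Bool)),
        0 ≤ 1 - ind (∃ t' ∈ D, (c (some l, t') : ℕ) = 0) :=
      fun l _ => sub_nonneg.2 (ind_le_one _)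
    by_cases h : ∀ l : Fin J × Bool, ∃ t' ∈ D, (c (some l, t') : ℕ) = 0
    · have : psiL D c = a := prod_congr rfl fun l _ => by rw [ind_pos (h l), ind_pos trivial]
      rw [this, sub_self, zero_pow two_ne_zero]
      exact mul_nonneg (by positivity) (sum_nonneg hnn)
    · obtain ⟨l, hl⟩ := not_forall.1 h
      have k1 := single_le_sum hnn (mem_univ l)
      rw [ind_neg hl, sub_zero] at k1
      have k2 : |psiL D c| ≤ (L : ℝ) ^ (2 * J) := prod_le hL J _
      have k3 : |a| ≤ (L : ℝ) ^ (2 * J) := prod_le hL J fun _ => True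
      have k4 : (psiL D c - a) ^ 2 ≤ (2 * (L : ℝ) ^ (2 * J)) ^ 2 := by
        rw [abs_le] at k2 k3
        exact sq_le_sq' (by linarith [k2.1, k3.2]) (by linarith [k2.2, k3.1])
      have k5 : (2 * (L : ℝ) ^ (2 * J)) ^ 2 = 4 * (L : ℝ) ^ (4 * J) := by ring
      rw [k5] at k4
      exact k4.trans (le_mul_of_one_le_right (by positivity) k1)
  have hv := (av_var_le (psiL (J := J) (L := L) D) a).trans (av_mono hpt)
  rw [av_mul, av_sum] at hv
  simp only [av_miss h1 h2 hL, sum_const, card_univ, Fintype.card_prod, Fintype.card_fin,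
    Fintype.card_bool, nsmul_eq_mul] at hv
  refine (mul_le_mul_of_nonneg_left hv (Nat.cast_nonneg _)).trans ?_
  have k := mul_le_mul_of_nonneg_left (mul_pow_le hL D.card)
    (by positivity : (0 : ℝ) ≤ 8 * J * (L : ℝ) ^ (4 * J))
  push_cast
  calc _ = 8 * J * (L : ℝ) ^ (4 * J) * (D.card * (1 - 1 / (L : ℝ)) ^ D.card) := by ring
    _ ≤ _ := k
    _ = _ := by ring

theorem pSize (h : StCoord) : StSize := by
  intro G _ _ _ T J L s hL hs
  have : Nonempty (Fin L) := ⟨⟨0, hL⟩⟩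
  have hs' : (0 : ℝ) < s := by exact_mod_cast hs
  have hcard : ∀ (c : Lab G J L) o, ((lab T c o).card : ℝ) = ∑ t ∈ T, ind ((c (o, t) : ℕ) = 0) := by
    intro c o
    rw [lab, card_filter]
    push_cast
    exact sum_congr rfl fun t _ => by unfold ind; congr
  have hpt : ∀ c : Lab G J L, ind (∃ o, s < (lab T c o).card) ≤
      1 / (s : ℝ) * ∑ o, ∑ t ∈ T, ind ((c (o, t) : ℕ) = 0) := by
    intro c
    simp only [← hcard]
    by_cases hc : ∃ o, s < (lab T c o).card
    · rw [ind_pos hc]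
      obtain ⟨o, ho⟩ := hc
      have k1 := single_le_sum (f := fun o => ((lab T c o).card : ℝ))
        (fun o _ => Nat.cast_nonneg _) (mem_univ o)
      have k2 : (s : ℝ) ≤ (lab T c o).card := by exact_mod_cast ho.le
      rw [one_div, inv_mul_eq_div, le_div_iff₀ hs']
      linarith
    · rw [ind_neg hc]
      positivity
  refine (av_mono hpt).trans (le_of_eq ?_)
  have e : ∀ (o : Option (Fin J × Bool)) (t : G),
      (av fun c : Lab G J L => ind ((c (o, t) : ℕ) = 0)) = 1 / L := fun o t =>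
    (h _ (Fin L) (o, t) fun x => ind ((x : ℕ) = 0)).trans (av_ind L hL)
  rw [av_mul, av_sum]
  simp only [av_sum, e, sum_const, card_univ, Fintype.card_option, Fintype.card_prod,
    Fintype.card_fin, Fintype.card_bool, nsmul_eq_mul]
  have hL' : (L : ℝ) ≠ 0 := by positivity
  push_cast
  field_simp

end Pool.Agent.P.MP_cb22e8_co.AC
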