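import Pool.Agent.P.MP_cb22e8_co.AC.Defs

/-! Bounds for the majorant `Qf` and a binomial inequality. -/

open Finset

namespace Pool.Agent.P.MP_cb22e8_co.AC

namespace QBin

theorem base_nonneg {L : ℕ} (hL : 1 ≤ L) : (0 : ℝ) ≤ 1 - 1 / (L : ℝ) := by
  have h : (1 : ℝ) ≤ L := by exact_mod_cast hL
  have : 1 / (L : ℝ) ≤ 1 := by rw [div_le_one (by linarith)]; exact h
  linarith

theorem base_le_one (L : ℕ) : (1 : ℝ) - 1 / (L : ℝ) ≤ 1 := by
  have : (0 : ℝ) ≤ 1 / (L : ℝ) := by positivity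
  linarith

theorem pr_le {L : ℕ} (hL : 1 ≤ L) (d : ℕ) : pr L d ≤ ((min d L : ℕ) : ℝ) / L := by
  have h : (1 : ℝ) ≤ L := by exact_mod_cast hL
  have hL0 : (0 : ℝ) < L := by linarith
  rcases le_total d L with hd | hd
  · rw [min_eq_left hd]
    have h1 : 1 / (L : ℝ) ≤ 1 := by rw [div_le_one hL0]; exact h
    have h2 := one_add_mul_le_pow (a := -(1 / (L : ℝ))) (by linarith) d
    have e : (1 : ℝ) + -(1 / (L : ℝ)) = 1 - 1 / (L : ℝ) := by ring
    rw [e] at h2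
    have e2 : (d : ℝ) / L = d * (1 / (L : ℝ)) := by ring
    unfold pr
    rw [e2]
    linarith
  · rw [min_eq_right hd, div_self hL0.ne']
    have := pow_nonneg (base_nonneg hL) d
    unfold pr
    linarith

theorem pr_mono {L : ℕ} (hL : 1 ≤ L) {i d : ℕ} (h : i ≤ d) : pr L i ≤ pr L d := by
  have := pow_le_pow_of_le_one (base_nonneg hL) (base_le_one L) h
  unfold pr
  linarith

theorem le_pr {L : ℕ} (hL : 1 ≤ L) {i : ℕ} (hi : i ≤ L) : (i : ℝ) / (2 * L) ≤ pr L i := by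
  have h : (1 : ℝ) ≤ L := by exact_mod_cast hL
  have hL0 : (0 : ℝ) < L := by linarith
  have hi' : (i : ℝ) ≤ L := by exact_mod_cast hi
  set x : ℝ := 1 / (L : ℝ) with hx
  have hx0 : 0 ≤ x := by positivity
  have hb : 0 ≤ 1 - x := base_nonneg hL
  have h1 : 1 + i * x ≤ (1 + x) ^ i := one_add_mul_le_pow (by linarith) i
  have h2 : (1 - x) ^ i * (1 + x) ^ i ≤ 1 := by
    rw [← mul_pow]
    exact pow_le_one₀ (mul_nonneg hb (by linarith)) (by nlinarith)
  have h3 : (1 - x) ^ i * (1 + i * x) ≤ 1 :=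
    (mul_le_mul_of_nonneg_left h1 (pow_nonneg hb i)).trans h2
  have ht0 : 0 ≤ (i : ℝ) * x := by positivity
  have ht1 : (i : ℝ) * x ≤ 1 := by
    rw [hx, mul_one_div, div_le_one hL0]; exact hi'
  have e : (i : ℝ) / (2 * L) = i * x / 2 := by rw [hx]; field_simp
  rw [e]
  unfold pr
  rw [← hx]
  by_contra hc
  push Not at hc
  have h4 : 1 - i * x / 2 < (1 - x) ^ i := by linarith
  have h5 : (1 - i * x / 2) * (1 + i * x) < (1 - x) ^ i * (1 + i * x) :=
    mul_lt_mul_of_pos_right h4 (by linarith)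
  nlinarith

theorem pr_pos {L : ℕ} (hL : 1 ≤ L) {i : ℕ} (hi : 1 ≤ i) : 0 < pr L i := by
  have h : (1 : ℝ) ≤ L := by exact_mod_cast hL
  have h1 := le_pr hL (i := 1) hL
  have h2 : (0 : ℝ) < ((1 : ℕ) : ℝ) / (2 * L) := by positivity
  exact lt_of_lt_of_le (lt_of_lt_of_le h2 h1) (pr_mono hL hi)

theorem factor_le {L i d : ℕ} (hL : 1 ≤ L) (hi : i + 1 ≤ L) (hd : i + 1 ≤ d) :
    (1 - pr L d / pr L (i + 1)) ^ 2 ≤ (2 * ((min d L : ℕ) : ℝ) / ((i + 1 : ℕ) : ℝ)) ^ 2 := by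
  have h : (1 : ℝ) ≤ L := by exact_mod_cast hL
  have hL0 : (0 : ℝ) < L := by linarith
  have hp := pr_pos hL (i := i + 1) (by omega)
  have h1 : 1 ≤ pr L d / pr L (i + 1) := by
    rw [le_div_iff₀ hp, one_mul]; exact pr_mono hL hd
  have hi0 : (0 : ℝ) < ((i + 1 : ℕ) : ℝ) := by positivity
  have h2 : pr L d / pr L (i + 1) ≤ 2 * ((min d L : ℕ) : ℝ) / ((i + 1 : ℕ) : ℝ) := by
    calc pr L d / pr L (i + 1) ≤ (((min d L : ℕ) : ℝ) / L) / (((i + 1 : ℕ) : ℝ) / (2 * L)) :=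
          div_le_div₀ (by positivity) (pr_le hL d) (by positivity) (le_pr hL hi)
      _ = 2 * ((min d L : ℕ) : ℝ) / ((i + 1 : ℕ) : ℝ) := by field_simp
  exact sq_le_sq' (by linarith) (by linarith)

theorem fact_four (q : ℕ) :
    (((4 * q).factorial : ℕ) : ℝ) ≤ 2 ^ (4 * q) * (((2 * q).factorial : ℝ)) ^ 2 := by
  have h1 : (4 * q).choose (2 * q) * (2 * q).factorial * (4 * q - 2 * q).factorial =
      (4 * q).factorial := Nat.choose_mul_factorial_mul_factorial (by omega)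
  have e : 4 * q - 2 * q = 2 * q := by omega
  rw [e] at h1
  have h2 : (4 * q).choose (2 * q) ≤ 2 ^ (4 * q) := Nat.choose_le_two_pow _ _
  have h3 : (4 * q).factorial ≤ 2 ^ (4 * q) * (2 * q).factorial ^ 2 := by
    rw [← h1, mul_assoc, ← sq]
    exact Nat.mul_le_mul_right _ h2
  exact_mod_cast h3

theorem pow_div_le (m : ℕ) : (m : ℝ) ^ m / (m.factorial : ℝ) ≤ 3 ^ m := by
  have h1 := Real.pow_div_factorial_le_exp (m : ℝ) (Nat.cast_nonneg m) m
  have h2 : Real.exp (m : ℝ) = Real.exp 1 ^ m := by rw [← Real.exp_nat_mul, mul_one]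
  have h3 : Real.exp 1 ≤ 3 := by linarith [Real.exp_one_lt_d9]
  calc (m : ℝ) ^ m / (m.factorial : ℝ) ≤ Real.exp 1 ^ m := h2 ▸ h1
    _ ≤ 3 ^ m := pow_le_pow_left₀ (Real.exp_pos 1).le h3 m

end QBin

open QBin

theorem pQ : StQ := by
  intro L J hL
  refine ⟨by simp [Qf, pr], fun d => prod_nonneg fun i _ => sq_nonneg _, fun hJ d hd => ?_⟩
  split_ifs with h
  · have h1 : Qf L J d ≤ ∏ i : Fin J, (2 * ((min d L : ℕ) : ℝ) / (((i : ℕ) + 1 : ℕ) : ℝ)) ^ 2 :=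
      prod_le_prod (fun i _ => sq_nonneg _) fun i _ =>
        factor_le hL (by have := i.2; omega) (by have := i.2; omega)
    refine h1.trans (le_of_eq ?_)
    have e : ∏ i : Fin J, (((i : ℕ) + 1 : ℕ) : ℝ) = (J.factorial : ℝ) := by
      rw [Fin.prod_univ_eq_prod_range (fun i => ((i + 1 : ℕ) : ℝ)) J, ← Nat.cast_prod,
        prod_range_add_one_eq_factorial]
    rw [prod_pow, prod_div_distrib, e, prod_const, card_univ, Fintype.card_fin, div_pow, ← pow_mul,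
      mul_comm J 2]
  · have hdJ : d - 1 < J := by omega
    refine le_of_eq (prod_eq_zero (mem_univ (⟨d - 1, hdJ⟩ : Fin J)) ?_)
    have e : d - 1 + 1 = d := by omega
    simp only [e]
    rw [div_self (pr_pos hL hd).ne']
    simp

theorem pBin : StBin := by
  intro R q hq
  have hf : (0 : ℝ) < ((2 * q).factorial : ℝ) := by exact_mod_cast Nat.factorial_pos _
  have hR0 : (0 : ℝ) ≤ R := Nat.cast_nonneg R
  have c1 : (0 : ℝ) ≤ R.choose (4 * q) := Nat.cast_nonneg _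
  have c2 : (1 : ℝ) ≤ R.choose q := by exact_mod_cast Nat.choose_pos hq
  rcases le_or_gt (8 * q) R with h | h
  · have h1 : (((R + 1 - 4 * q : ℕ) : ℝ) ^ (4 * q)) / ((4 * q).factorial : ℝ) ≤
        (R.choose (4 * q) : ℝ) := by
      have := Nat.pow_le_choose (α := ℝ) (4 * q) R
      exact_mod_cast this
    have h2 : (R : ℝ) / 2 ≤ ((R + 1 - 4 * q : ℕ) : ℝ) := by
      have : R ≤ 2 * (R + 1 - 4 * q) := by omega
      have : (R : ℝ) ≤ 2 * ((R + 1 - 4 * q : ℕ) : ℝ) := by exact_mod_cast this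
      linarith
    have hf4 : (0 : ℝ) < ((4 * q).factorial : ℝ) := by exact_mod_cast Nat.factorial_pos _
    have h3 : ((R : ℝ) / 2) ^ (4 * q) / (2 ^ (4 * q) * (((2 * q).factorial : ℝ)) ^ 2) ≤
        (R.choose (4 * q) : ℝ) :=
      le_trans (div_le_div₀ (by positivity) (pow_le_pow_left₀ (by positivity) h2 _) hf4
        (fact_four q)) h1
    have e : (4 * (R : ℝ)) ^ (4 * q) / (((2 * q).factorial : ℝ)) ^ 2 =
        16 ^ (4 * q) *
          (((R : ℝ) / 2) ^ (4 * q) / (2 ^ (4 * q) * (((2 * q).factorial : ℝ)) ^ 2)) := by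
      have e1 : (4 * (R : ℝ)) ^ (4 * q) * 2 ^ (4 * q) = 16 ^ (4 * q) * ((R : ℝ) / 2) ^ (4 * q) := by
        rw [← mul_pow, ← mul_pow]; congr 1; ring
      rw [← mul_div_assoc, ← e1]
      field_simp
    rw [e]
    have h4 : (16 : ℝ) ^ (4 * q) ≤ 48 ^ (4 * q) := pow_le_pow_left₀ (by norm_num) (by norm_num) _
    exact mul_le_mul h4 (by linarith) (by positivity) (by positivity)
  · have hR : (R : ℝ) ≤ 4 * ((2 * q : ℕ) : ℝ) := by
      have : R ≤ 4 * (2 * q) := by omega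
      exact_mod_cast this
    have h1 := pow_div_le (2 * q)
    have h2 : (4 * (R : ℝ)) ^ (4 * q) ≤ (16 * ((2 * q : ℕ) : ℝ)) ^ (4 * q) :=
      pow_le_pow_left₀ (by positivity) (by linarith) _
    have e4 : 4 * q = 2 * q * 2 := by ring
    calc (4 * (R : ℝ)) ^ (4 * q) / (((2 * q).factorial : ℝ)) ^ 2
        ≤ (16 * ((2 * q : ℕ) : ℝ)) ^ (4 * q) / (((2 * q).factorial : ℝ)) ^ 2 :=
          div_le_div_of_nonneg_right h2 (by positivity)
      _ = 16 ^ (4 * q) * (((2 * q : ℕ) : ℝ) ^ (2 * q) / ((2 * q).factorial : ℝ)) ^ 2 := by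
          rw [mul_pow, div_pow, ← pow_mul, ← e4, mul_div_assoc]
      _ ≤ 16 ^ (4 * q) * ((3 : ℝ) ^ (2 * q)) ^ 2 := by gcongr
      _ = 48 ^ (4 * q) * 1 := by
          rw [← pow_mul, ← e4, ← mul_pow, mul_one]; norm_num
      _ ≤ 48 ^ (4 * q) * ((R.choose (4 * q) : ℝ) + R.choose q) :=
          mul_le_mul_of_nonneg_left (by linarith) (by positivity)

end Pool.Agent.P.MP_cb22e8_co.AC
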