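import Pool.Agent.P.MP_cb22e8_co.AC.Defs
import Pool.Agent.P.MP_cb22e8_co.Sample

/-!
Sampling: a family of patterns with few weighted conflicts is small.
-/

open Finset

namespace Pool.Agent.P.MP_cb22e8_co.AC

namespace Samp

variable {G : Type} [AddCommGroup G] [Fintype G] [DecidableEq G]

/-- real indicator of an inclusion -/
noncomputable abbrev isub (U S : Finset G) : ℝ := Pool.Agent.P.MP_cb22e8_co.ind (U ⊆ S)

omit [AddCommGroup G] [Fintype G] in
theorem isub_eq (U S : Finset G) : isub U S = if U ⊆ S then 1 else 0 := by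
  unfold isub Pool.Agent.P.MP_cb22e8_co.ind
  by_cases h : U ⊆ S <;> simp [h]

omit [AddCommGroup G] [Fintype G] in
theorem card_V (F : Finset (G × Finset G)) (S : Finset G) :
    ((F.filter fun c => c.2 ⊆ S).card : ℝ) = ∑ c ∈ F, isub c.2 S := by
  rw [card_filter]
  push_cast
  exact sum_congr rfl fun c _ => (isub_eq _ _).symm

omit [AddCommGroup G] [Fintype G] in
theorem card_VT (F : Finset (G × Finset G)) (T S : Finset G) :
    ((F.filter fun c => c.2 ⊆ S).card : ℝ) * (T ∩ S).card =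
      ∑ c ∈ F, ∑ t ∈ T, isub (insert t c.2) S := by
  rw [card_V, sum_mul]
  refine sum_congr rfl fun c _ => ?_
  rw [← filter_mem_eq_inter, card_filter]
  push_cast
  rw [mul_sum]
  refine sum_congr rfl fun t _ => ?_
  simp only [isub_eq, insert_subset_iff]
  by_cases h1 : c.2 ⊆ S <;> by_cases h2 : t ∈ S <;> simp [h1, h2]

omit [Fintype G] in
theorem deg_eq (F : Finset (G × Finset G)) (S : Finset G) :
    ∑ v ∈ F.filter (fun c => c.2 ⊆ S),
      ((((F.filter fun c => c.2 ⊆ S).filter (Conf v)).card : ℕ) : ℝ) =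
      ∑ c ∈ F, ∑ c' ∈ F.filter (Conf c), isub (c.2 ∪ c'.2) S := by
  rw [sum_filter]
  refine sum_congr rfl fun c _ => ?_
  rw [filter_comm, card_V]
  split_ifs with h
  · exact sum_congr rfl fun c' _ => by simp only [isub_eq, union_subset_iff, h, true_and]
  · exact (sum_eq_zero fun c' _ => by simp only [isub_eq, union_subset_iff, h, false_and,
      if_false]).symm

end Samp

open Samp in
theorem pSamp (h : StGreedy2) : StSamp := by
  intro G _ _ _ A T F j s M N K ρ hNo hT hF h0 h1 hK hdeg hs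
  have hK' : (0 : ℝ) < K := by exact_mod_cast hK
  have hs' : (0 : ℝ) < (s : ℝ) + 1 := by positivity
  have key : ∀ S : Finset G, ∑ c ∈ F, isub c.2 S -
      (1 / ((s : ℝ) + 1)) * ∑ c ∈ F, ∑ t ∈ T, isub (insert t c.2) S -
      (1 / (2 * (K : ℝ))) * ∑ c ∈ F, ∑ c' ∈ F.filter (Conf c), isub (c.2 ∪ c'.2) S ≤
      ((2 * K + 1) * M : ℝ) * 1 := by
    intro S
    rw [← card_V, ← card_VT, ← deg_eq, mul_one]
    have d0 : 0 ≤ ∑ v ∈ F.filter (fun c => c.2 ⊆ S),
        ((((F.filter fun c => c.2 ⊆ S).filter (Conf v)).card : ℕ) : ℝ) :=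
      sum_nonneg fun _ _ => Nat.cast_nonneg _
    by_cases hS : (T ∩ S).card ≤ s
    · obtain ⟨I, hI, hind, hc⟩ := h (G × Finset G) Conf (F.filter fun c => c.2 ⊆ S) (2 * K)
        (fun u v huv => ⟨huv.1.symm, fun hd => huv.2 hd.symm⟩) (fun u hu => hu.1 rfl) (by omega)
      have hM := hNo (T ∩ S) hS I (fun c hc => by
        have h2 := mem_filter.1 (hI hc)
        have h3 := hF c h2.1
        exact ⟨subset_inter h3.1 h2.2, h3.2⟩) hind
      have hM' : (I.card : ℝ) ≤ M := by exact_mod_cast hM.le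
      push_cast at hc
      have h4 : (2 * (K : ℝ) + 1) * I.card ≤ (2 * K + 1) * M := by gcongr
      have h5 : 0 ≤ (1 / ((s : ℝ) + 1)) * (((F.filter fun c => c.2 ⊆ S).card : ℝ) * (T ∩ S).card) := by
        positivity
      rw [div_eq_mul_one_div, mul_comm _ (1 / (2 * (K : ℝ)))] at hc
      linarith
    · have h2 : (s : ℝ) + 1 ≤ (T ∩ S).card := by exact_mod_cast not_le.1 hS
      have h3 : ((F.filter fun c => c.2 ⊆ S).card : ℝ) ≤
          (1 / ((s : ℝ) + 1)) * (((F.filter fun c => c.2 ⊆ S).card : ℝ) * (T ∩ S).card) := by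
        rw [div_mul_eq_mul_div, one_mul, le_div_iff₀ hs']
        gcongr
      have h4 : (0 : ℝ) ≤ (2 * K + 1) * M := by positivity
      have h5 := mul_nonneg (show (0 : ℝ) ≤ 1 / (2 * (K : ℝ)) by positivity) d0
      linarith
  have hE := Ex_mono (bw_nonneg h0.le h1) key
  rw [Ex_sub, Ex_sub, Ex_mul, Ex_mul, Ex_mul, Ex_one, Ex_sum, Ex_sum, Ex_sum] at hE
  simp only [Ex_sum, Ex_subset] at hE
  have e1 : ∑ c ∈ F, ρ ^ c.2.card = ρ ^ j * F.card := by
    rw [sum_congr rfl fun c hc => by rw [(hF c hc).2.1], sum_const, nsmul_eq_mul, mul_comm]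
  have hp : 0 < ρ ^ j := pow_pos h0 j
  have e2 : ∑ c ∈ F, ∑ t ∈ T, ρ ^ (insert t c.2).card ≤ ρ ^ j * F.card * (j + ρ * N) := by
    have : ∀ c ∈ F, ∑ t ∈ T, ρ ^ (insert t c.2).card ≤ ρ ^ j * (j + ρ * N) := by
      intro c hc
      obtain ⟨a1, a2, -⟩ := hF c hc
      calc _ ≤ ∑ t ∈ T, ρ ^ j * ((if t ∈ c.2 then 1 else 0) + ρ) := by
            refine sum_le_sum fun t _ => ?_
            by_cases ht : t ∈ c.2
            · rw [insert_eq_of_mem ht, a2, if_pos ht]
              nlinarith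
            · rw [card_insert_of_notMem ht, a2, if_neg ht, pow_succ, zero_add]
        _ = ρ ^ j * (j + ρ * T.card) := by
            rw [← mul_sum, sum_add_distrib, sum_const, nsmul_eq_mul, sum_boole,
              filter_mem_eq_inter, inter_eq_right.2 a1, a2, mul_comm ρ]
        _ ≤ _ := by
            have : (T.card : ℝ) ≤ N := by exact_mod_cast hT
            gcongr
    refine (sum_le_card_nsmul _ _ _ this).trans (le_of_eq ?_)
    rw [nsmul_eq_mul]; ring
  have e3 : ∑ c ∈ F, ∑ c' ∈ F.filter (Conf c), ρ ^ (c.2 ∪ c'.2).card ≤ ρ ^ j * F.card * K := by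
    have : ∀ c ∈ F, ∑ c' ∈ F.filter (Conf c), ρ ^ (c.2 ∪ c'.2).card ≤ ρ ^ j * K := by
      intro c hc
      refine le_trans (le_of_eq ?_) (mul_le_mul_of_nonneg_left (hdeg c hc) hp.le)
      rw [mul_sum]
      refine sum_congr rfl fun c' _ => ?_
      rw [← pow_add, ← (hF c hc).2.1, union_comm, ← card_sdiff_add_card, add_comm]
    refine (sum_le_card_nsmul _ _ _ this).trans (le_of_eq ?_)
    rw [nsmul_eq_mul]; ring
  rw [e1] at hE
  have hq : 0 ≤ ρ ^ j * F.card := by positivity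
  have b2 : (1 / ((s : ℝ) + 1)) * ∑ c ∈ F, ∑ t ∈ T, ρ ^ (insert t c.2).card ≤
      ρ ^ j * F.card / 4 := by
    rw [div_mul_eq_mul_div, one_mul, div_le_div_iff₀ hs' (by norm_num)]
    nlinarith
  have b3 : (1 / (2 * (K : ℝ))) * ∑ c ∈ F, ∑ c' ∈ F.filter (Conf c), ρ ^ (c.2 ∪ c'.2).card ≤
      ρ ^ j * F.card / 2 := by
    rw [div_mul_eq_mul_div, one_mul, div_le_div_iff₀ (by positivity) (by norm_num)]
    nlinarith
  linarith

end Pool.Agent.P.MP_cb22e8_co.AC
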