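import Pool.Agent.P.MP_cb22e8_co.AC.Defs

/-!
Probability that a random sequence contains a given set; the number of small sets.
-/

open Finset

namespace Pool.Agent.P.MP_cb22e8_co.AC

namespace Sub

variable {G : Type} [Fintype G] [DecidableEq G]

theorem card_fix (k : ℕ) (W : Finset G) (sg : W → Fin k) (hs : Function.Injective sg) :
    (univ.filter fun a : Fin k → G => ∀ w : W, a (sg w) = w).card ≤
      Fintype.card G ^ (k - W.card) := by
  have h1 : Fintype.card {i : Fin k // i ∉ univ.image sg} = k - W.card := by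
    rw [Fintype.card_subtype_compl, Fintype.card_fin, Fintype.card_coe,
      card_image_of_injective _ hs, card_univ, Fintype.card_coe]
  have h2 : (univ : Finset ({i : Fin k // i ∉ univ.image sg} → G)).card =
      Fintype.card G ^ (k - W.card) := by
    rw [card_univ, Fintype.card_fun, h1]
  rw [← h2]
  refine card_le_card_of_injOn (fun a i => a i.1) (fun _ _ => mem_coe.2 (mem_univ _)) ?_
  intro a ha b hb hab
  have ha' := (mem_filter.1 (mem_coe.1 ha)).2
  have hb' := (mem_filter.1 (mem_coe.1 hb)).2
  funext i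
  by_cases hi : i ∈ univ.image sg
  · obtain ⟨w, -, rfl⟩ := mem_image.1 hi
    rw [ha', hb']
  · exact congrFun hab ⟨i, hi⟩

omit [Fintype G] in
theorem exists_sg {k : ℕ} {W : Finset G} {a : Fin k → G} (h : W ⊆ univ.image a) :
    ∃ sg : W → Fin k, Function.Injective sg ∧ ∀ w : W, a (sg w) = w := by
  have h1 : ∀ w : W, ∃ i, a i = w := fun w => by
    obtain ⟨i, -, hi⟩ := mem_image.1 (h w.2)
    exact ⟨i, hi⟩
  choose sg hsg using h1
  refine ⟨sg, fun w w' hw => Subtype.ext ?_, hsg⟩
  rw [← hsg w, ← hsg w', hw]

theorem card_sub (k : ℕ) (W : Finset G) :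
    (univ.filter fun a : Fin k → G => W ⊆ univ.image a).card ≤
      k ^ W.card * Fintype.card G ^ (k - W.card) := by
  classical
  have h1 : (univ.filter fun a : Fin k → G => W ⊆ univ.image a) ⊆
      (univ.filter fun sg : W → Fin k => Function.Injective sg).biUnion fun sg =>
        univ.filter fun a : Fin k → G => ∀ w : W, a (sg w) = w := by
    intro a ha
    obtain ⟨sg, h, h'⟩ := exists_sg (mem_filter.1 ha).2
    exact mem_biUnion.2 ⟨sg, mem_filter.2 ⟨mem_univ _, h⟩, mem_filter.2 ⟨mem_univ _, h'⟩⟩
  refine (card_le_card h1).trans (card_biUnion_le_card_mul _ _ _ (fun sg hsg =>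
    card_fix k W sg (mem_filter.1 hsg).2) |>.trans (Nat.mul_le_mul_right _ ?_))
  refine (card_filter_le _ _).trans (le_of_eq ?_)
  rw [card_univ, Fintype.card_fun, Fintype.card_fin, Fintype.card_coe]

end Sub

theorem pSub : StSub := by
  intro G _ _ _ k W
  have hn : (0 : ℝ) < Fintype.card G := by exact_mod_cast Fintype.card_pos
  have h1 : (∑ a : Fin k → G, ind (W ⊆ img a)) =
      ((univ.filter fun a : Fin k → G => W ⊆ univ.image a).card : ℝ) := by
    rw [card_filter, Nat.cast_sum]
    refine sum_congr rfl fun a _ => ?_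
    unfold ind img
    by_cases h : W ⊆ univ.image a <;> simp [h]
  unfold av
  rw [h1, Fintype.card_fun, Fintype.card_fin]
  rcases le_or_gt W.card k with hk | hk
  · rw [div_pow, Nat.cast_pow, div_le_div_iff₀ (pow_pos hn _) (pow_pos hn _)]
    have h2 : ((univ.filter fun a : Fin k → G => W ⊆ univ.image a).card : ℝ) ≤
        (k : ℝ) ^ W.card * (Fintype.card G : ℝ) ^ (k - W.card) := by
      exact_mod_cast Sub.card_sub k W
    calc _ ≤ (k : ℝ) ^ W.card * (Fintype.card G : ℝ) ^ (k - W.card) *
          (Fintype.card G : ℝ) ^ W.card := mul_le_mul_of_nonneg_right h2 (pow_pos hn _).le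
      _ = _ := by rw [mul_assoc, ← pow_add, Nat.sub_add_cancel hk]
  · have h2 : (univ.filter fun a : Fin k → G => W ⊆ univ.image a) = ∅ := by
      refine filter_eq_empty_iff.2 fun a _ h => ?_
      have h3 := (card_le_card h).trans card_image_le
      rw [card_univ, Fintype.card_fin] at h3
      omega
    rw [h2, card_empty, Nat.cast_zero, zero_div]
    positivity

theorem pFew : StFew := by
  intro G _ _ s
  have h1 : (univ.filter fun T : Finset G => T.card ≤ s) ⊆
      univ.image fun f : Fin s → Option G => univ.filter fun g => ∃ i, f i = some g := by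
    intro T hT
    have hT' := (mem_filter.1 hT).2
    refine mem_image.2 ⟨fun i => if h : i.1 < T.card then some (T.equivFin.symm ⟨i.1, h⟩).1
      else none, mem_univ _, ?_⟩
    ext g
    rw [mem_filter]
    constructor
    · rintro ⟨-, i, hi⟩
      beta_reduce at hi
      by_cases h : i.1 < T.card
      · rw [dif_pos h] at hi
        rw [← Option.some.inj hi]
        exact (T.equivFin.symm ⟨i.1, h⟩).2
      · rw [dif_neg h] at hi
        cases hi
    · intro hg
      refine ⟨mem_univ _, ⟨(T.equivFin ⟨g, hg⟩).1, lt_of_lt_of_le (T.equivFin ⟨g, hg⟩).2 hT'⟩, ?_⟩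
      beta_reduce
      rw [dif_pos (T.equivFin ⟨g, hg⟩).2]
      simp
  refine (card_le_card h1).trans (card_image_le.trans (le_of_eq ?_))
  rw [card_univ, Fintype.card_fun, Fintype.card_option, Fintype.card_fin]

end Pool.Agent.P.MP_cb22e8_co.AC
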