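import Pool.Agent.P.MP_cb22e8_co.AC.Defs

/-!
Transfer from random sequences to random sets.
-/

open Finset

namespace Pool.Agent.P.MP_cb22e8_co.AC

namespace Transfer

theorem desc_ge (n : ℕ) : ∀ i : ℕ, i ≤ n →
    (n : ℝ) ^ i * (2 * n - (i : ℝ) ^ 2) ≤ 2 * n * (n.descFactorial i : ℝ) := by
  intro i
  induction i with
  | zero => intro _; simp
  | succ i ih =>
    intro hi
    have hi' : i ≤ n := by omega
    have h := ih hi'
    have hc : ((n - i : ℕ) : ℝ) = (n : ℝ) - i := by push_cast [Nat.cast_sub hi']; ring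
    have h0 : (0 : ℝ) ≤ (n : ℝ) - i := by rw [← hc]; positivity
    have h1 := mul_le_mul_of_nonneg_left h h0
    have h2 : (0 : ℝ) ≤ (n : ℝ) ^ i * ((i : ℝ) ^ 3 + n) := by positivity
    rw [Nat.descFactorial_succ, Nat.cast_mul, hc]
    push_cast
    have e1 : (n : ℝ) ^ (i + 1) * (2 * n - ((i : ℝ) + 1) ^ 2) =
        ((n : ℝ) - i) * ((n : ℝ) ^ i * (2 * n - (i : ℝ) ^ 2)) -
          (n : ℝ) ^ i * ((i : ℝ) ^ 3 + n) := by ring
    have e2 : 2 * (n : ℝ) * (((n : ℝ) - i) * (n.descFactorial i : ℝ)) =
        ((n : ℝ) - i) * (2 * n * (n.descFactorial i : ℝ)) := by ring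
    rw [e1, e2]
    linarith

theorem pow_le (n k : ℕ) (hk : 2 ≤ k) (h : k ^ 2 ≤ n) :
    (n : ℝ) ^ k ≤ 2 * (n.descFactorial k : ℝ) := by
  have hkn : k ≤ n := le_trans (by nlinarith) h
  have hn : (0 : ℝ) < n := by exact_mod_cast (by omega : 0 < n)
  have h1 := desc_ge n k hkn
  have h2 : (k : ℝ) ^ 2 ≤ n := by exact_mod_cast h
  have h3 : (n : ℝ) ^ k * n ≤ (n : ℝ) ^ k * (2 * n - (k : ℝ) ^ 2) :=
    mul_le_mul_of_nonneg_left (by linarith) (by positivity)
  have h4 : (n : ℝ) ^ k * n ≤ 2 * (n.descFactorial k : ℝ) * n := by linarith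
  exact le_of_mul_le_mul_right h4 hn

theorem fibre {G : Type} [Fintype G] [DecidableEq G] (k : ℕ) (A : Finset G) (hA : A.card = k) :
    k.factorial ≤ (univ.filter fun a : Fin k → G => univ.image a = A).card := by
  have e : Fin k ≃ A := (A.equivFinOfCardEq hA).symm
  have hc : (univ : Finset (Equiv.Perm (Fin k))).card = k.factorial := by
    rw [card_univ, Fintype.card_perm, Fintype.card_fin]
  rw [← hc]
  refine card_le_card_of_injOn (fun σ i => (e (σ i) : G)) ?_ ?_
  · intro σ _
    simp only [coe_filter, mem_univ, true_and, Set.mem_ofPred_eq]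
    ext x
    simp only [mem_image, mem_univ, true_and]
    constructor
    · rintro ⟨i, rfl⟩
      exact (e (σ i)).2
    · intro hx
      exact ⟨σ.symm (e.symm ⟨x, hx⟩), by simp⟩
  · intro σ _ τ _ hst
    ext i
    have h1 : (e (σ i) : G) = e (τ i) := congrFun hst i
    have h2 : σ i = τ i := e.injective (Subtype.ext h1)
    rw [h2]

end Transfer

theorem pTransfer : StTransfer := by
  intro G _ _ _ k Q _ hk hn
  have hn0 : (0 : ℝ) < Fintype.card G := by
    have : 0 < Fintype.card G := lt_of_lt_of_le (by positivity) hn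
    exact_mod_cast this
  have h1 : k.factorial * (univ.filter fun A : Finset G => A.card = k ∧ Q A).card ≤
      (univ.filter fun a : Fin k → G => (img a).card = k ∧ Q (img a)).card := by
    refine mul_card_image_le_card_of_maps_to (f := fun a : Fin k → G => img a) ?_ _ ?_
    · intro a ha
      simpa using ha
    · intro A hA
      have hA' : A.card = k ∧ Q A := by simpa using hA
      refine le_trans (Transfer.fibre k A hA'.1) (card_le_card ?_)
      intro a ha
      have ha' : img a = A := by simpa [img] using ha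
      simp only [mem_filter, mem_univ, true_and]
      rw [ha']
      exact ⟨hA', rfl⟩
  have h2 : ((univ.filter fun a : Fin k → G => (img a).card = k ∧ Q (img a)).card : ℝ) ≤
      ∑ a : Fin k → G, ind (Q (img a)) := by
    have e : ((univ.filter fun a : Fin k → G => (img a).card = k ∧ Q (img a)).card : ℝ) =
        ∑ a ∈ univ.filter fun a : Fin k → G => (img a).card = k ∧ Q (img a), ind (Q (img a)) := by
      rw [card_eq_sum_ones, Nat.cast_sum]
      refine sum_congr rfl fun a ha => ?_
      have hq : Q (img a) := (mem_filter.1 ha).2.2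
      simp [ind, hq]
    rw [e]
    refine sum_le_sum_of_subset_of_nonneg (filter_subset _ _) fun a _ _ => ?_
    unfold ind
    split_ifs <;> norm_num
  have h3 : (k.factorial : ℝ) * (univ.filter fun A : Finset G => A.card = k ∧ Q A).card ≤
      ∑ a : Fin k → G, ind (Q (img a)) := le_trans (by exact_mod_cast h1) h2
  have h4 := Transfer.pow_le (Fintype.card G) k hk hn
  rw [Nat.descFactorial_eq_factorial_mul_choose, Nat.cast_mul] at h4
  have hf : (0 : ℝ) < k.factorial := by exact_mod_cast k.factorial_pos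
  have hp : (0 : ℝ) < (Fintype.card G : ℝ) ^ k := by positivity
  unfold av
  rw [Fintype.card_fun, Fintype.card_fin, Nat.cast_pow, ← mul_div_assoc, le_div_iff₀ hp]
  set F : ℝ := ((univ.filter fun A : Finset G => A.card = k ∧ Q A).card : ℝ) with hF
  set S : ℝ := ∑ a : Fin k → G, ind (Q (img a)) with hS
  set c : ℝ := ((Fintype.card G).choose k : ℝ) with hc
  have hF0 : 0 ≤ F := by rw [hF]; positivity
  have hc0 : 0 ≤ c := by rw [hc]; positivity
  have h5 : F * (Fintype.card G : ℝ) ^ k ≤ F * (2 * ((k.factorial : ℝ) * c)) :=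
    mul_le_mul_of_nonneg_left h4 hF0
  have h6 : c * ((k.factorial : ℝ) * F) ≤ c * S := mul_le_mul_of_nonneg_left h3 hc0
  have h7 : 0 ≤ c * ((k.factorial : ℝ) * F) := by positivity
  nlinarith

end Pool.Agent.P.MP_cb22e8_co.AC
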