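import Pool.Agent.P.MP_cb22e8_co.AC.Defs

/-!
Heavy differences are few, and link-free selections exist.
-/

open Finset

namespace Pool.Agent.P.MP_cb22e8_co.AC

namespace Zs

theorem bonf {ι α : Type} [DecidableEq ι] [DecidableEq α] (S : ι → Finset α) (D Λ : ℕ)
    (s : Finset ι) (h1 : ∀ i ∈ s, D ≤ (S i).card)
    (h2 : ∀ i ∈ s, ∀ j ∈ s, i ≠ j → (S i ∩ S j).card ≤ Λ) :
    2 * s.card * D ≤ 2 * (s.biUnion S).card + s.card ^ 2 * Λ := by
  induction s using Finset.induction_on with
  | empty => simp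
  | insert z s hz ih =>
    have ih' := ih (fun i hi => h1 i (mem_insert_of_mem hi))
      (fun i hi j hj => h2 i (mem_insert_of_mem hi) j (mem_insert_of_mem hj))
    have e1 := card_union_add_card_inter (S z) (s.biUnion S)
    have e2 : (S z ∩ s.biUnion S).card ≤ s.card * Λ := by
      rw [inter_biUnion]
      refine card_biUnion_le_card_mul _ _ _ fun j hj => ?_
      exact h2 z (mem_insert_self _ _) j (mem_insert_of_mem hj) fun e => hz (e ▸ hj)
    have e3 := h1 z (mem_insert_self _ _)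
    rw [card_insert_of_notMem hz, biUnion_insert]
    nlinarith

variable {G : Type} [AddCommGroup G] [DecidableEq G]

theorem pair_le {A : Finset G} {Λ : ℕ} (h : Lam A Λ) (T : Finset G) {z z' : G} (hz : z ≠ z') :
    (T.filter fun t => t - z ∈ A ∧ t - z' ∈ A).card ≤ Λ := by
  refine le_trans ?_ (h (z - z') (sub_ne_zero.2 hz))
  refine card_le_card_of_injOn (fun t => t - z) (fun t ht => ?_) fun t _ t' _ e => ?_
  · have ht' := (mem_filter.1 (mem_coe.1 ht)).2
    refine mem_coe.2 (mem_filter.2 ⟨ht'.1, ?_⟩)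
    rw [sub_add_sub_cancel]
    exact ht'.2
  · exact sub_left_injective e

end Zs

open Zs in
theorem pZ : StZ := by
  intro G _ _ _ A T N Δ Λ hA hT hΔ hn
  by_contra hc
  have hc' : 2 * N < (Zs A T Δ).card * Δ := not_le.1 hc
  have h0 : 2 * N / Δ + 1 ≤ (Zs A T Δ).card := (Nat.div_lt_iff_lt_mul hΔ).2 hc'
  obtain ⟨s, hs, hcard⟩ := exists_subset_card_eq h0
  have key := bonf (fun z => T.filter fun t => t - z ∈ A) Δ Λ s (fun z hz => ?_)
    (fun z _ z' _ hne => ?_)
  · have e1 : (s.biUnion fun z => T.filter fun t => t - z ∈ A).card ≤ N :=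
      le_trans (card_le_card (biUnion_subset.2 fun z _ => filter_subset _ _)) hT
    have e2 : 2 * N < s.card * Δ := by
      rw [hcard]
      exact (Nat.div_lt_iff_lt_mul hΔ).1 (Nat.lt_succ_self _)
    have e3 : s.card * Δ ≤ 2 * N + Δ := by
      rw [hcard, add_mul, one_mul]
      exact Nat.add_le_add_right (Nat.div_mul_le_self _ _) _
    have e4 : s.card * Λ ≤ Δ := by
      refine Nat.le_of_mul_le_mul_right ?_ hΔ
      nlinarith [Nat.mul_le_mul_right Λ e3]
    nlinarith [Nat.mul_le_mul_left s.card e4]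
  · have h1 : Δ < dif A T z := (mem_filter.1 (hs hz)).2
    refine le_trans h1.le ?_
    refine card_le_card_of_injOn (fun a => z + a) (fun a ha => ?_) fun a _ a' _ e => ?_
    · have ha' := mem_filter.1 (mem_coe.1 ha)
      refine mem_coe.2 (mem_filter.2 ⟨ha'.2, ?_⟩)
      rw [add_sub_cancel_left]
      exact ha'.1
    · exact add_left_cancel e
  · rw [← filter_and]
    exact pair_le hA T hne

open Zs in
theorem pSel (h : StGreedy) : StSel := by
  intro G _ _ _ A T Z Λ L hA
  let Tb : Finset G := (Z.offDiag).biUnion fun p => T.filter fun t => t - p.1 ∈ A ∧ t - p.2 ∈ A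
  have hTb : Tb.card ≤ Z.card ^ 2 * Λ := by
    refine le_trans (card_biUnion_le_card_mul _ _ Λ fun p hp => pair_le hA T
      (mem_offDiag.1 hp).2.2) (Nat.mul_le_mul_right _ ?_)
    rw [offDiag_card, sq]
    exact Nat.sub_le _ _
  let X : Finset G := (Z ×ˢ A).image (fun p => p.1 + p.2 + p.2) ∪
    (A ×ˢ Tb).image fun p => p.1 + p.2
  have hR : ∀ x : G, ∃ R : Finset G, x ∉ X → R ⊆ rep A T x ∧ R.card ≤ L ∧
      min (rep A T x).card L ≤ 2 * R.card ∧ ∀ t ∈ R, ∀ t' ∈ R, t + t' - x ∉ Z := by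
    intro x
    by_cases hx : x ∈ X
    · exact ⟨∅, fun h => absurd hx h⟩
    obtain ⟨I, hI, hind, hcard⟩ := h G (fun t t' => t ≠ t' ∧ t + t' - x ∈ Z) (rep A T x) 1
      (fun u v huv => ⟨huv.1.symm, by rw [add_comm]; exact huv.2⟩) (fun u hu => hu.1 rfl)
      (fun t ht => card_le_one.2 fun u hu v hv => by
        by_contra hne
        obtain ⟨hu1, -, hu2⟩ := mem_filter.1 hu
        obtain ⟨hv1, -, hv2⟩ := mem_filter.1 hv
        refine hx (mem_union_right _ (mem_image.2 ⟨(x - t, t), mem_product.2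
          ⟨(mem_filter.1 ht).2, mem_biUnion.2 ⟨(t + u - x, t + v - x), mem_offDiag.2
            ⟨hu2, hv2, fun e => hne (add_left_cancel (sub_left_injective e))⟩,
            mem_filter.2 ⟨(mem_filter.1 ht).1, ?_, ?_⟩⟩⟩, sub_add_cancel _ _⟩))
        · have e : t - (t + u - x) = x - u := by abel
          exact e ▸ (mem_filter.1 hu1).2
        · have e : t - (t + v - x) = x - v := by abel
          exact e ▸ (mem_filter.1 hv1).2)
    obtain ⟨R, hRI, hRc⟩ := exists_subset_card_eq (min_le_left I.card L)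
    refine ⟨R, fun _ => ⟨hRI.trans hI, hRc ▸ min_le_right _ _, by omega, fun t ht t' ht' hz => ?_⟩⟩
    by_cases e : t = t'
    · subst e
      refine hx (mem_union_left _ (mem_image.2 ⟨(t + t - x, x - t), mem_product.2
        ⟨hz, (mem_filter.1 (hI (hRI ht))).2⟩, ?_⟩))
      change t + t - x + (x - t) + (x - t) = x
      abel
    · exact hind t (hRI ht) t' (hRI ht') ⟨e, hz⟩
  choose R hR using hR
  refine ⟨X, R, ?_, hR⟩
  refine le_trans (card_union_le _ _) (add_le_add ?_ ?_)
  · exact le_trans card_image_le (card_product _ _).le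
  · refine le_trans card_image_le ?_
    rw [card_product, mul_assoc]
    exact Nat.mul_le_mul_left _ hTb

end Pool.Agent.P.MP_cb22e8_co.AC
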