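import Pool.Agent.P.MP_cb22e8_co.AC.Final
import Pool.Agent.P.MP_cb22e8_co.AC.Transfer
import Pool.Agent.P.MP_cb22e8_co.AC.Sub
import Pool.Agent.P.MP_cb22e8_co.AC.Pat
import Pool.Agent.P.MP_cb22e8_co.AC.Greedy
import Pool.Agent.P.MP_cb22e8_co.AC.Zs
import Pool.Agent.P.MP_cb22e8_co.AC.Conf
import Pool.Agent.P.MP_cb22e8_co.AC.Samp
import Pool.Agent.P.MP_cb22e8_co.AC.Mom
import Pool.Agent.P.MP_cb22e8_co.AC.QBin
import Pool.Agent.P.MP_cb22e8_co.AC.Prod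
import Pool.Agent.P.MP_cb22e8_co.AC.Psi
import Pool.Agent.P.MP_cb22e8_co.AC.Est
import Pool.Agent.P.MP_cb22e8_co.AC.One
import Pool.Agent.P.MP_cb22e8_co.AC.Mart
import Pool.Agent.P.MP_cb22e8_co.AC.Det
import Pool.Agent.P.MP_cb22e8_co.AC.NumPar
import Pool.Agent.P.MP_cb22e8_co.AC.NumA
import Pool.Agent.P.MP_cb22e8_co.AC.NumB

/-! All parts together. -/

namespace Pool.Agent.P.MP_cb22e8_co.AC

theorem main_holds : StMain :=
  pMain (pPat pSub pFew) (pLam pGreedy) pZ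
    (pMom (pSel pGreedy) (pFam pConf (pSamp pGreedy2)) pQ pBin)
    (pMart pAzuma pFew)
    (pDet (pOne (pEst pProd pCoord pVar (pPsi pProd pCoord)) pQ) (pSize pCoord) pRec)
    pNumPar pNumA pNumB pNumQ pRoot

theorem final_holds (c : ℝ) :
    Filter.Tendsto (fun n : ℕ =>
      ({A : Finset (ZMod n) | A.card = Nat.sqrt n ∧ ∃ T : Finset (ZMod n),
        T.card ≤ ⌊c * Nat.sqrt n⌋₊ ∧ ∀ z, ∃ a ∈ A, ∃ t ∈ T, a + t = z}.ncard : ℝ) /
      n.choose (Nat.sqrt n)) Filter.atTop (nhds 0) :=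
  final_of main_holds pTransfer c

end Pool.Agent.P.MP_cb22e8_co.AC
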