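import Mathlib

/-!
Covering by `C √n` translates of a random `√n`-set, every constant `C`: definitions and the
statements of the parts of the proof.
-/

open Finset

namespace Pool.Agent.P.MP_cb22e8_co.AC

open Classical in
/-- real indicator of a proposition -/
noncomputable def ind (P : Prop) : ℝ := if P then 1 else 0

/-- uniform average over a finite type -/
noncomputable def av {Ω : Type} [Fintype Ω] (f : Ω → ℝ) : ℝ := (∑ ω, f ω) / Fintype.card Ω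

/-- `X` depends only on the coordinates in `D` -/
def DepOn {ι κ : Type} (X : (ι → κ) → ℝ) (D : Finset ι) : Prop :=
  ∀ c c' : ι → κ, (∀ i ∈ D, c i = c' i) → X c = X c'

/-- probability that `d` points meet a subsample of rate `1/L` -/
noncomputable def pr (L d : ℕ) : ℝ := 1 - (1 - 1 / (L : ℝ)) ^ d

/-- the majorant of the indicator of `d = 0` -/
noncomputable def Qf (L J d : ℕ) : ℝ := ∏ i : Fin J, (1 - pr L d / pr L (i + 1)) ^ 2

/-- projection to `[0,1]` -/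
noncomputable def clip (x : ℝ) : ℝ := max 0 (min x 1)

/-- numerical conditions of the pattern count -/
def Par (j L N Δ Λ s : ℕ) (ρ : ℝ) : Prop :=
  0 < ρ ∧ L * ρ ≤ 1 ∧ j * N * (L * ρ) ^ j ≤ 1 ∧ j ^ 2 * Δ * (L * ρ) ^ (j - 1) ≤ 1 ∧
    (j ^ 2 * Λ + 1) * (L * ρ) ≤ 1 ∧ 4 * (j + ρ * N) ≤ s

/-- bound for the probability of `¬ NoPat` -/
noncomputable def patB (n k j s M : ℕ) : ℝ :=
  ((n : ℝ) + 1) ^ s * ((n : ℝ) * s.choose j * ((k : ℝ) / n) ^ j) ^ M / M.factorial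

section defs
variable {G : Type} [AddCommGroup G] [Fintype G] [DecidableEq G]

/-- the `t ∈ T` with `x ∈ A + t` -/
def rep (A T : Finset G) (x : G) : Finset G := T.filter fun t => x - t ∈ A

/-- number of `a ∈ A` with `z + a ∈ T` -/
def dif (A T : Finset G) (z : G) : ℕ := (A.filter fun a => z + a ∈ T).card

/-- the heavy differences -/
def Zs (A T : Finset G) (Δ : ℕ) : Finset G := univ.filter fun z => Δ < dif A T z

/-- every nonzero difference occurs at most `Λ` times -/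
def Lam (A : Finset G) (Λ : ℕ) : Prop := ∀ d : G, d ≠ 0 → (A.filter fun a => a + d ∈ A).card ≤ Λ

/-- the set `x - S` of a pattern `(x, S)` -/
def aset (c : G × Finset G) : Finset G := c.2.image fun t => c.1 - t

/-- two different patterns with a common point -/
def Conf (c c' : G × Finset G) : Prop := c ≠ c' ∧ ¬ Disjoint (aset c) (aset c')

instance (c c' : G × Finset G) : Decidable (Conf c c') := by unfold Conf; infer_instance

/-- fewer than `M` disjoint patterns over any set of at most `s` shifts -/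
def NoPat (A : Finset G) (j s M : ℕ) : Prop :=
  ∀ T' : Finset G, T'.card ≤ s → ∀ P : Finset (G × Finset G),
    (∀ c ∈ P, c.2 ⊆ T' ∧ c.2.card = j ∧ aset c ⊆ A) →
    (∀ c ∈ P, ∀ c' ∈ P, ¬ Conf c c') → P.card < M

/-- a link-free selection of representations outside `X` -/
def Sel (A T Z X : Finset G) (L : ℕ) (R : G → Finset G) : Prop :=
  ∀ x, x ∉ X → R x ⊆ rep A T x ∧ (R x).card ≤ L ∧ min (rep A T x).card L ≤ 2 * (R x).card ∧
    ∀ t ∈ R x, ∀ t' ∈ R x, t + t' - x ∉ Z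

/-- the patterns of size `j` inside the selection -/
def fam (X : Finset G) (R : G → Finset G) (j : ℕ) : Finset (G × Finset G) :=
  univ.filter fun c => c.1 ∉ X ∧ c.2 ⊆ R c.1 ∧ c.2.card = j

/-- set of values of a sequence -/
def img {k : ℕ} (a : Fin k → G) : Finset G := univ.image a

/-- set of the first `i` values -/
def pre {k : ℕ} (a : Fin k → G) (i : ℕ) : Finset G :=
  (univ.filter fun s : Fin k => (s : ℕ) < i).image a

/-- points outside `B + T` -/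
def unc (B T : Finset G) : Finset G := univ.filter fun x => rep B T x = ∅

/-- neighbours of `t` in the graph attached to `y` -/
def nb (B Z T : Finset G) (y t : G) : Finset G :=
  T.filter fun t' => y + t - t' ∈ B ∧ t' - y ∉ Z

/-- estimator at one point -/
noncomputable def psi (L J : ℕ) (B Z : Finset G) (R : Fin J × Bool → Finset G) (y t : G) : ℝ :=
  ∏ l : Fin J × Bool, (1 - ind (nb B Z (R l) y t).Nonempty / pr L (l.1 + 1))

/-- estimator -/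
noncomputable def est (L J N : ℕ) (B Z R0 : Finset G) (R : Fin J × Bool → Finset G) (y : G) : ℝ :=
  (L : ℝ) / N * ∑ t ∈ R0, psi L J B Z R y t

/-- the space of labels -/
abbrev Lab (G : Type) (J L : ℕ) : Type := Option (Fin J × Bool) × G → Fin L

/-- the subsample number `o` of `T` -/
def lab {J L : ℕ} (T : Finset G) (c : Lab G J L) (o : Option (Fin J × Bool)) : Finset G :=
  T.filter fun t => (c (o, t) : ℕ) = 0

/-- estimator at one point as a function of the labels and of the neighbourhood -/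
noncomputable def psiL {J L : ℕ} (D : Finset G) (c : Lab G J L) : ℝ :=
  ∏ l : Fin J × Bool, (1 - ind (∃ t' ∈ D, (c (some l, t') : ℕ) = 0) / pr L (l.1 + 1))

/-- clipped estimator of the random fingerprint -/
noncomputable def fL {J L : ℕ} (N : ℕ) (B Z T : Finset G) (c : Lab G J L) (y : G) : ℝ :=
  clip (est L J N B Z (lab T c none) (fun l => lab T c (some l)) y)

/-- the martingale bound for all small fingerprints -/
def Mart {k : ℕ} (a : Fin k → G) (L J N s : ℕ) (w : Fin k → ℝ) (η : ℝ) : Prop :=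
  ∀ (Z R0 : Finset G) (R : Fin J × Bool → Finset G), Z.card ≤ s → R0.card ≤ s →
    (∀ l, (R l).card ≤ s) →
    ∑ i : Fin k, w i * (clip (est L J N (pre a i) Z R0 R (a i)) -
      av fun y => clip (est L J N (pre a i) Z R0 R y)) ≤ η * k

end defs

/-! ### Statements -/

def StTransfer : Prop :=
  ∀ (G : Type) [AddCommGroup G] [Fintype G] [DecidableEq G] (k : ℕ) (Q : Finset G → Prop)
    [DecidablePred Q], 2 ≤ k → k ^ 2 ≤ Fintype.card G →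
    ((univ.filter fun A : Finset G => A.card = k ∧ Q A).card : ℝ) ≤
      4 * (Fintype.card G).choose k * av fun a : Fin k → G => ind (Q (img a))

def StSub : Prop :=
  ∀ (G : Type) [AddCommGroup G] [Fintype G] [DecidableEq G] (k : ℕ) (W : Finset G),
    (av fun a : Fin k → G => ind (W ⊆ img a)) ≤ ((k : ℝ) / Fintype.card G) ^ W.card

def StFew : Prop :=
  ∀ (G : Type) [Fintype G] [DecidableEq G] (s : ℕ),
    (univ.filter fun T : Finset G => T.card ≤ s).card ≤ (Fintype.card G + 1) ^ s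

def StPat : Prop :=
  ∀ (G : Type) [AddCommGroup G] [Fintype G] [DecidableEq G] (k j s M : ℕ),
    (av fun a : Fin k → G => ind (¬ NoPat (img a) j s M)) ≤ patB (Fintype.card G) k j s M

def StGreedy : Prop :=
  ∀ (α : Type) [DecidableEq α] (adj : α → α → Prop) [DecidableRel adj] (V : Finset α) (d : ℕ),
    (∀ u v, adj u v → adj v u) → (∀ u, ¬ adj u u) → (∀ v ∈ V, (V.filter (adj v)).card ≤ d) →
    ∃ I ⊆ V, (∀ u ∈ I, ∀ v ∈ I, ¬ adj u v) ∧ V.card ≤ (d + 1) * I.card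

def StGreedy2 : Prop :=
  ∀ (α : Type) [DecidableEq α] (adj : α → α → Prop) [DecidableRel adj] (V : Finset α) (d : ℕ),
    (∀ u v, adj u v → adj v u) → (∀ u, ¬ adj u u) → 0 < d →
    ∃ I ⊆ V, (∀ u ∈ I, ∀ v ∈ I, ¬ adj u v) ∧
      (V.card : ℝ) - (∑ v ∈ V, ((V.filter (adj v)).card : ℝ)) / d ≤ (d + 1) * I.card

def StLam : Prop :=
  ∀ (G : Type) [AddCommGroup G] [Fintype G] [DecidableEq G] (A : Finset G) (M : ℕ),
    NoPat A 2 2 M → Lam A (3 * M)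

def StZ : Prop :=
  ∀ (G : Type) [AddCommGroup G] [Fintype G] [DecidableEq G] (A T : Finset G) (N Δ Λ : ℕ),
    Lam A Λ → T.card ≤ N → 0 < Δ → 2 * N * Λ + Δ * Λ ≤ Δ ^ 2 → (Zs A T Δ).card * Δ ≤ 2 * N

def StSel : Prop :=
  ∀ (G : Type) [AddCommGroup G] [Fintype G] [DecidableEq G] (A T Z : Finset G) (Λ L : ℕ),
    Lam A Λ → ∃ (X : Finset G) (R : G → Finset G),
      X.card ≤ Z.card * A.card + A.card * Z.card ^ 2 * Λ ∧ Sel A T Z X L R

def StConf : Prop :=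
  ∀ (G : Type) [AddCommGroup G] [Fintype G] [DecidableEq G] (A T X : Finset G) (R : G → Finset G)
    (j L N Δ Λ : ℕ) (ρ : ℝ), Lam A Λ → T.card ≤ N → Sel A T (Zs A T Δ) X L R → 0 ≤ ρ →
    L * ρ ≤ 1 → ∀ c ∈ fam X R j,
      ∑ c' ∈ (fam X R j).filter (Conf c), ρ ^ (c'.2 \ c.2).card ≤
        j ^ 2 + 2 ^ j * (j * N * (L * ρ) ^ j + j ^ 2 * Δ * (L * ρ) ^ (j - 1) +
          (j ^ 2 * Λ + 1) * (L * ρ))

def StSamp : Prop :=
  ∀ (G : Type) [AddCommGroup G] [Fintype G] [DecidableEq G] (A T : Finset G)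
    (F : Finset (G × Finset G)) (j s M N K : ℕ) (ρ : ℝ), NoPat A j s M → T.card ≤ N →
    (∀ c ∈ F, c.2 ⊆ T ∧ c.2.card = j ∧ aset c ⊆ A) → 0 < ρ → ρ ≤ 1 → 0 < K →
    (∀ c ∈ F, ∑ c' ∈ F.filter (Conf c), ρ ^ (c'.2 \ c.2).card ≤ K) → 4 * (j + ρ * N) ≤ s →
    ρ ^ j * F.card ≤ 4 * (2 * K + 1) * M

def StFam : Prop :=
  ∀ (G : Type) [AddCommGroup G] [Fintype G] [DecidableEq G] (A T X : Finset G) (R : G → Finset G)
    (j L N Δ Λ s M : ℕ) (ρ : ℝ), Lam A Λ → T.card ≤ N → Sel A T (Zs A T Δ) X L R → 1 ≤ L →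
    Par j L N Δ Λ s ρ → NoPat A j s M →
    ∑ x ∈ univ.filter (fun x => x ∉ X), (((R x).card.choose j : ℕ) : ℝ) ≤ 2 ^ (j + 7) * M / ρ ^ j

def StQ : Prop :=
  ∀ L J : ℕ, 1 ≤ L → Qf L J 0 = 1 ∧ (∀ d, 0 ≤ Qf L J d) ∧ (J ≤ L → ∀ d, 1 ≤ d →
    Qf L J d ≤ if J < d then (2 * (min d L : ℕ) : ℝ) ^ (2 * J) / ((J.factorial : ℝ)) ^ 2 else 0)

def StBin : Prop :=
  ∀ R q : ℕ, q ≤ R → (4 * (R : ℝ)) ^ (4 * q) / (((2 * q).factorial : ℝ)) ^ 2 ≤
    48 ^ (4 * q) * ((R.choose (4 * q) : ℝ) + R.choose q)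

def StMom : Prop :=
  ∀ (G : Type) [AddCommGroup G] [Fintype G] [DecidableEq G] (A B T : Finset G)
    (q L N Δ Λ s₁ M₁ s₂ M₂ : ℕ) (ρ₁ ρ₂ : ℝ), B ⊆ A → Lam A Λ → T.card ≤ N → 2 * q < L →
    Par q L N Δ Λ s₁ ρ₁ → NoPat A q s₁ M₁ → Par (4 * q) L N Δ Λ s₂ ρ₂ → NoPat A (4 * q) s₂ M₂ →
    ∑ x, Qf L (2 * q) (rep B T x).card ≤ (unc B T).card +
      (48 ^ (4 * q) * (2 ^ (4 * q + 7) * M₂ / ρ₂ ^ (4 * q) + 2 ^ (q + 7) * M₁ / ρ₁ ^ q) +
        (2 * (L : ℝ)) ^ (4 * q) *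
          ((Zs A T Δ).card * A.card + A.card * ((Zs A T Δ).card : ℝ) ^ 2 * Λ))

def StProd : Prop :=
  ∀ (ι κ τ : Type) [Fintype ι] [DecidableEq ι] [Fintype κ] [Nonempty κ] (s : Finset τ)
    (X : τ → (ι → κ) → ℝ) (D : τ → Finset ι), (∀ l ∈ s, DepOn (X l) (D l)) →
    (∀ l ∈ s, ∀ l' ∈ s, l ≠ l' → Disjoint (D l) (D l')) →
    (av fun c => ∏ l ∈ s, X l c) = ∏ l ∈ s, av (X l)

def StCoord : Prop :=
  ∀ (ι κ : Type) [Fintype ι] [DecidableEq ι] [Fintype κ] [Nonempty κ] (i : ι) (F : κ → ℝ),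
    (av fun c : ι → κ => F (c i)) = av F

def StVar : Prop :=
  ∀ (ι κ τ : Type) [Fintype ι] [DecidableEq ι] [Fintype κ] [Nonempty κ] (s : Finset τ)
    (X : τ → (ι → κ) → ℝ) (D : τ → Finset ι), (∀ t ∈ s, DepOn (X t) (D t)) →
    (av fun c => (∑ t ∈ s, (X t c - av (X t))) ^ 2) ≤
      ∑ t ∈ s, (av fun c => (X t c - av (X t)) ^ 2) *
        ((s.filter fun t' => ¬ Disjoint (D t) (D t')).card : ℝ)

def StPsi : Prop :=
  ∀ (G : Type) [AddCommGroup G] [Fintype G] [DecidableEq G] (J L : ℕ) (D : Finset G), 1 ≤ L →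
    (∀ c : Lab G J L, |psiL D c| ≤ (L : ℝ) ^ (2 * J)) ∧
    av (psiL (J := J) (L := L) D) = Qf L J D.card ∧
    (D.card * av fun c : Lab G J L => (psiL D c - Qf L J D.card) ^ 2) ≤
      8 * J * (L : ℝ) ^ (4 * J + 1)

def StEst : Prop :=
  ∀ (G : Type) [AddCommGroup G] [Fintype G] [DecidableEq G] (A B T : Finset G) (J L N Δ : ℕ)
    (y : G), B ⊆ A → T.card = N → 0 < N → 1 ≤ L →
    (av fun c : Lab G J L =>
      (est L J N B (Zs A T Δ) (lab T c none) (fun l => lab T c (some l)) y -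
        (∑ t ∈ T, Qf L J (nb B (Zs A T Δ) T y t).card) / N) ^ 2) ≤
      2 * (L : ℝ) ^ (4 * J + 1) * (1 + 8 * J * Δ) / N

def StSize : Prop :=
  ∀ (G : Type) [AddCommGroup G] [Fintype G] [DecidableEq G] (T : Finset G) (J L s : ℕ), 1 ≤ L →
    0 < s → (av fun c : Lab G J L => ind (∃ o, s < (lab T c o).card)) ≤
      (2 * J + 1) * (T.card : ℝ) / (L * s)

def StOne : Prop :=
  ∀ (G : Type) [AddCommGroup G] [Fintype G] [DecidableEq G] (A B T : Finset G) (J L N Δ : ℕ)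
    (ε : ℝ), B ⊆ A → T.card = N → 0 < N → 1 ≤ L → 0 < ε →
    2 * (L : ℝ) ^ (4 * J + 1) * (1 + 8 * J * Δ) / N ≤ ε ^ 2 →
    (∀ y, ((T.filter fun t => y + t ∈ unc B T).card : ℝ) / N - ε ≤
      av fun c : Lab G J L => fL N B (Zs A T Δ) T c y) ∧
    (av fun c : Lab G J L => av fun y => fL N B (Zs A T Δ) T c y) ≤
      (∑ x, Qf L J (rep B T x).card) / Fintype.card G + ε +
        (N : ℝ) * (Zs A T Δ).card / Fintype.card G

def StAzuma : Prop :=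
  ∀ (G : Type) [Fintype G] [Nonempty G] (k : ℕ) (F : Fin k → (Fin k → G) → G → ℝ)
    (w : Fin k → ℝ) (η : ℝ),
    (∀ (i : Fin k) (a a' : Fin k → G), (∀ s, s < i → a s = a' s) → F i a = F i a') →
    (∀ i a y, 0 ≤ F i a y ∧ F i a y ≤ 1) → (∀ i, 0 ≤ w i ∧ w i ≤ 1) → 0 ≤ η → η ≤ 2 →
    (av fun a : Fin k → G => ind (η * k < ∑ i, w i * (F i a (a i) - av (F i a)))) ≤
      Real.exp (-(η ^ 2 * k / 4))

def StMart : Prop :=
  ∀ (G : Type) [AddCommGroup G] [Fintype G] [DecidableEq G] (k L J N s : ℕ) (w : Fin k → ℝ)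
    (η : ℝ), (∀ i, 0 ≤ w i ∧ w i ≤ 1) → 0 ≤ η → η ≤ 2 →
    (av fun a : Fin k → G => ind (¬ Mart a L J N s w η)) ≤
      ((Fintype.card G : ℝ) + 1) ^ (s * (2 * J + 2)) * Real.exp (-(η ^ 2 * k / 4))

def StRec : Prop :=
  ∀ (G : Type) [AddCommGroup G] [Fintype G] [DecidableEq G] (k N : ℕ) (a : Fin k → G)
    (T : Finset G), T.card = N → 0 < N →
    ((unc (img a) T).card : ℝ) / Fintype.card G =
      (1 - (N : ℝ) / Fintype.card G) ^ k - (N : ℝ) / Fintype.card G *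
        ∑ i : Fin k, (1 - (N : ℝ) / Fintype.card G) ^ (k - 1 - i) *
          (((T.filter fun t => a i + t ∈ unc (pre a i) T).card : ℝ) / N -
            ((unc (pre a i) T).card : ℝ) / Fintype.card G)

def StDet : Prop :=
  ∀ (G : Type) [AddCommGroup G] [Fintype G] [DecidableEq G] (k J L N Δ s : ℕ) (a : Fin k → G)
    (T : Finset G) (η ε τ : ℝ), T.card = N → 0 < N → 1 ≤ L → 0 < s → 0 ≤ η → 0 < ε → 0 ≤ τ →
    2 * (L : ℝ) ^ (4 * J + 1) * (1 + 8 * J * Δ) / N ≤ ε ^ 2 →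
    (Zs (img a) T Δ).card ≤ s →
    Mart a L J N s (fun i => (1 - (N : ℝ) / Fintype.card G) ^ (k - 1 - i)) η →
    (∀ B ⊆ img a, ∑ x, Qf L J (rep B T x).card ≤ (unc B T).card + τ * Fintype.card G) →
    (1 - (N : ℝ) / Fintype.card G) ^ k - (N : ℝ) * k / Fintype.card G *
      (η + τ + 2 * ε + (N : ℝ) * (Zs (img a) T Δ).card / Fintype.card G +
        (2 * J + 1) * (N : ℝ) / (L * s)) ≤ ((unc (img a) T).card : ℝ) / Fintype.card G

def StNumPar : Prop :=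
  ∀ (C j e b : ℕ) (ε₀ : ℝ), 1 ≤ C → 2 ≤ j → 2 * j ≤ e → e ≤ b → b ≤ j * e → 0 < ε₀ →
    ∃ w₀ : ℕ, ∀ w k n : ℕ, w₀ ≤ w → w ^ (j * e) ≤ k → k ≤ 2 * w ^ (j * e) → k ^ 2 ≤ n →
      n ≤ 4 * k ^ 2 → ∃ s M : ℕ,
        Par j w (C * k) (w ^ (j * e - b)) (3 * w) s (1 / (w : ℝ) ^ (e + 2)) ∧
        (M : ℝ) / (1 / (w : ℝ) ^ (e + 2)) ^ j ≤ 16 * (9 * C) ^ j / j.factorial * n ∧
        patB n k j s M ≤ ε₀

def StNumA : Prop :=
  ∀ (C q : ℕ) (ε : ℝ), 1 ≤ C → 3 ≤ q → 0 < ε →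
    ∃ w₀ : ℕ, ∀ w k n Δ : ℕ, w₀ ≤ w → w ^ (32 * q ^ 2) ≤ k → k ≤ 2 * w ^ (32 * q ^ 2) →
      k ^ 2 ≤ n → Δ = w ^ (32 * q ^ 2 - 32 * q) →
      2 ≤ k ∧ 2 * (C * k) ≤ n ∧ 2 * q < w ∧ 0 < Δ ∧
      2 * (C * k) * (3 * w) + Δ * (3 * w) ≤ Δ ^ 2 ∧ w ≤ Δ ∧
      2 * (w : ℝ) ^ (4 * (2 * q) + 1) * (1 + 8 * (2 * q : ℕ) * Δ) / (C * k : ℕ) ≤ ε ^ 2 ∧
      ∀ z : ℕ, z * Δ ≤ 2 * (C * k) →
        ((C * k : ℕ) : ℝ) * z / n ≤ ε ∧
        (2 * (w : ℝ)) ^ (4 * q) * ((z : ℝ) * k + k * (z : ℝ) ^ 2 * (3 * w : ℕ)) ≤ ε * n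

def StNumB : Prop :=
  ∀ (C D J : ℕ) (ε ε₀ : ℝ), 1 ≤ C → 2 ≤ D → 0 < ε → ε ≤ 1 / 2 → 0 < ε₀ →
    ∃ w₀ : ℕ, ∀ w k n : ℕ, w₀ ≤ w → w ^ D ≤ k → k ≤ 2 * w ^ D → k ^ 2 ≤ n → n ≤ 4 * k ^ 2 →
      patB n k 2 2 w ≤ ε₀ ∧ ∃ s : ℕ, 0 < s ∧ 2 * (C * k) ≤ s * w ∧
        (2 * J + 1) * ((C * k : ℕ) : ℝ) / (w * s) ≤ ε ∧
        ((n : ℝ) + 1) ^ (s * (2 * J + 2)) * Real.exp (-(ε ^ 2 * k / 4)) ≤ ε₀

def StNumQ : Prop :=
  ∀ (C : ℕ) (δ : ℝ), 0 < δ → ∃ q : ℕ, 3 ≤ q ∧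
    (48 : ℝ) ^ (4 * q) * (2 ^ (4 * q + 7) * (16 * (9 * C) ^ (4 * q) / (4 * q).factorial) +
      2 ^ (q + 7) * (16 * (9 * C) ^ q / q.factorial)) ≤ δ

def StRoot : Prop :=
  ∀ D w₀ : ℕ, 1 ≤ D → ∃ n₀ : ℕ, ∀ n, n₀ ≤ n → ∃ w, w₀ ≤ w ∧ w ^ D ≤ Nat.sqrt n ∧
    Nat.sqrt n ≤ 2 * w ^ D ∧ Nat.sqrt n ^ 2 ≤ n ∧ n ≤ 4 * Nat.sqrt n ^ 2

def StMain : Prop :=
  ∀ (C : ℕ) (ε₀ : ℝ), 1 ≤ C → 0 < ε₀ → ∃ n₀ : ℕ,
    ∀ (G : Type) [AddCommGroup G] [Fintype G] [DecidableEq G], n₀ ≤ Fintype.card G →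
      (av fun a : Fin (Nat.sqrt (Fintype.card G)) → G =>
        ind (∃ T : Finset G, T.card ≤ C * Nat.sqrt (Fintype.card G) ∧ unc (img a) T = ∅)) ≤ ε₀

end Pool.Agent.P.MP_cb22e8_co.AC
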