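import Pool.Agent.P.MP_cb22e8_co.AC.Main

/-! From the sequence model to the proportion of `k`-subsets of `ZMod n`. -/

open Finset Filter

namespace Pool.Agent.P.MP_cb22e8_co.AC

theorem final_of (hMain : StMain) (hT : StTransfer) (c : ℝ) :
    Tendsto (fun n : ℕ =>
      ({A : Finset (ZMod n) | A.card = Nat.sqrt n ∧ ∃ T : Finset (ZMod n),
        T.card ≤ ⌊c * Nat.sqrt n⌋₊ ∧ ∀ z, ∃ a ∈ A, ∃ t ∈ T, a + t = z}.ncard : ℝ) /
      n.choose (Nat.sqrt n)) atTop (nhds 0) := by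
  rw [Metric.tendsto_atTop]
  intro ε hε
  obtain ⟨n₀, hn₀⟩ := hMain (⌈c⌉₊ + 1) (ε / 8) (by omega) (by positivity)
  refine ⟨max n₀ 4, fun n hn => ?_⟩
  have hn4 : 4 ≤ n := le_trans (le_max_right _ _) hn
  have : NeZero n := ⟨by omega⟩
  have hcard : Fintype.card (ZMod n) = n := ZMod.card n
  have h1 := hn₀ (ZMod n) (by rw [hcard]; exact le_trans (le_max_left _ _) hn)
  have hk2 : 2 ≤ Nat.sqrt n := by rw [Nat.le_sqrt]; omega
  have hkn : Nat.sqrt n ^ 2 ≤ n := Nat.sqrt_le' n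
  classical
  have h2 := hT (ZMod n) (Nat.sqrt (Fintype.card (ZMod n)))
    (fun A => ∃ T : Finset (ZMod n), T.card ≤ (⌈c⌉₊ + 1) * Nat.sqrt (Fintype.card (ZMod n)) ∧
      unc A T = ∅) (by rw [hcard]; exact hk2) (by rw [hcard]; exact hkn)
  have hpos : (0 : ℝ) < n.choose (Nat.sqrt n) := by
    exact_mod_cast Nat.choose_pos (Nat.sqrt_le_self n)
  have h3 : ((univ.filter fun A : Finset (ZMod n) => A.card = Nat.sqrt (Fintype.card (ZMod n)) ∧
      ∃ T : Finset (ZMod n), T.card ≤ (⌈c⌉₊ + 1) * Nat.sqrt (Fintype.card (ZMod n)) ∧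
        unc A T = ∅).card : ℝ) ≤ 4 * (n.choose (Nat.sqrt n)) * (ε / 8) := by
    refine h2.trans ?_
    have e : ((Fintype.card (ZMod n)).choose (Nat.sqrt (Fintype.card (ZMod n))) : ℝ) =
        n.choose (Nat.sqrt n) := by rw [hcard]
    rw [e]
    exact mul_le_mul_of_nonneg_left h1 (by positivity)
  have h4 : {A : Finset (ZMod n) | A.card = Nat.sqrt n ∧ ∃ T : Finset (ZMod n),
        T.card ≤ ⌊c * Nat.sqrt n⌋₊ ∧ ∀ z, ∃ a ∈ A, ∃ t ∈ T, a + t = z}.ncard ≤
      (univ.filter fun A : Finset (ZMod n) => A.card = Nat.sqrt (Fintype.card (ZMod n)) ∧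
      ∃ T : Finset (ZMod n), T.card ≤ (⌈c⌉₊ + 1) * Nat.sqrt (Fintype.card (ZMod n)) ∧
        unc A T = ∅).card := by
    rw [← Set.ncard_coe_finset]
    refine Set.ncard_le_ncard ?_ (Set.toFinite _)
    rintro A ⟨hA, T, hT1, hT2⟩
    simp only [coe_filter, mem_univ, true_and, Set.mem_ofPred_eq]
    rw [hcard]
    refine ⟨hA, T, hT1.trans ?_, ?_⟩
    · refine Nat.floor_le_of_le ?_
      push_cast
      have := Nat.le_ceil c
      have h0 : (0 : ℝ) ≤ Nat.sqrt n := Nat.cast_nonneg _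
      nlinarith
    · rw [eq_empty_iff_forall_notMem]
      intro z hz
      obtain ⟨a, ha, t, ht, rfl⟩ := hT2 z
      simp only [unc, mem_filter, mem_univ, true_and] at hz
      have : t ∈ rep A T (a + t) := by
        simp only [rep, mem_filter]
        exact ⟨ht, by simpa using ha⟩
      rw [hz] at this
      exact notMem_empty _ this
  rw [Real.dist_eq, sub_zero, abs_of_nonneg (by positivity), div_lt_iff₀ hpos]
  have h5 : (({A : Finset (ZMod n) | A.card = Nat.sqrt n ∧ ∃ T : Finset (ZMod n),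
        T.card ≤ ⌊c * Nat.sqrt n⌋₊ ∧ ∀ z, ∃ a ∈ A, ∃ t ∈ T, a + t = z}.ncard : ℕ) : ℝ) ≤ _ :=
    (Nat.cast_le.2 h4).trans h3
  nlinarith [mul_pos hε hpos]

end Pool.Agent.P.MP_cb22e8_co.AC
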