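import Pool.Agent.P.MP_cb22e8_co.AC.Defs

/-! Assembly of the parts: the covering event has small probability. -/

open Finset

namespace Pool.Agent.P.MP_cb22e8_co.AC

namespace MainP

theorem ind_nonneg (P : Prop) : 0 ≤ ind P := by unfold ind; split_ifs <;> norm_num

theorem ind_pos {P : Prop} (h : P) : ind P = 1 := by unfold ind; simp [h]

theorem ind_neg {P : Prop} (h : ¬ P) : ind P = 0 := by unfold ind; simp [h]

theorem ind_le4 {E P1 P2 P3 P4 : Prop} (h : P1 → P2 → P3 → P4 → ¬ E) :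
    ind E ≤ ind (¬ P1) + ind (¬ P2) + ind (¬ P3) + ind (¬ P4) := by
  have a1 := ind_nonneg (¬ P1)
  have a2 := ind_nonneg (¬ P2)
  have a3 := ind_nonneg (¬ P3)
  have a4 := ind_nonneg (¬ P4)
  by_cases hE : E
  · rw [ind_pos hE]
    by_cases h1 : P1
    · by_cases h2 : P2
      · by_cases h3 : P3
        · by_cases h4 : P4
          · exact absurd hE (h h1 h2 h3 h4)
          · rw [ind_pos h4]; linarith
        · rw [ind_pos h3]; linarith
      · rw [ind_pos h2]; linarith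
    · rw [ind_pos h1]; linarith
  · rw [ind_neg hE]; linarith

theorem av_le4 {Ω : Type} [Fintype Ω] {f f1 f2 f3 f4 : Ω → ℝ}
    (h : ∀ ω, f ω ≤ f1 ω + f2 ω + f3 ω + f4 ω) : av f ≤ av f1 + av f2 + av f3 + av f4 := by
  unfold av
  rw [← add_div, ← add_div, ← add_div, ← sum_add_distrib, ← sum_add_distrib, ← sum_add_distrib]
  exact div_le_div_of_nonneg_right (sum_le_sum fun ω _ => h ω) (Nat.cast_nonneg _)

theorem exp_le_pow {x C : ℝ} (k : ℕ) (h0 : 0 ≤ x) (h1 : x ≤ 1 / 2) (h : x * k ≤ C) :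
    Real.exp (-(2 * C)) ≤ (1 - x) ^ k := by
  have e1 : Real.exp (-(2 * x)) ≤ 1 - x := by
    have h2 : 2 * x + 1 ≤ Real.exp (2 * x) := Real.add_one_le_exp _
    have h3 : 0 < Real.exp (2 * x) := Real.exp_pos _
    rw [Real.exp_neg, inv_le_iff_one_le_mul₀ h3]
    nlinarith [mul_nonneg h0 (sub_nonneg.2 h1)]
  calc Real.exp (-(2 * C)) ≤ Real.exp (k * (-(2 * x))) := Real.exp_le_exp.2 (by nlinarith)
    _ = Real.exp (-(2 * x)) ^ k := Real.exp_nat_mul _ _
    _ ≤ (1 - x) ^ k := pow_le_pow_left₀ (Real.exp_pos _).le e1 k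

variable {G : Type} [AddCommGroup G] [Fintype G] [DecidableEq G]

theorem unc_empty_mono {A T T' : Finset G} (h : T ⊆ T') (he : unc A T = ∅) : unc A T' = ∅ := by
  rw [eq_empty_iff_forall_notMem] at he ⊢
  intro x hx
  apply he x
  simp only [unc, mem_filter, mem_univ, true_and] at hx ⊢
  rw [← subset_empty, ← hx]
  exact filter_subset_filter _ h

omit [AddCommGroup G] [Fintype G] in
theorem card_img_le {k : ℕ} (a : Fin k → G) : (img a).card ≤ k := by
  unfold img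
  exact card_image_le.trans (by simp)

end MainP

open MainP in
theorem pMain (hPat : StPat) (hLam : StLam) (hZ : StZ) (hMom : StMom) (hMart : StMart)
    (hDet : StDet) (hNP : StNumPar) (hNA : StNumA) (hNB : StNumB) (hNQ : StNumQ)
    (hRoot : StRoot) : StMain := by
  intro C ε₀ hC hε₀
  have hC' : (1 : ℝ) ≤ C := by exact_mod_cast hC
  obtain ⟨ε, hε, hε2, hεC⟩ : ∃ ε : ℝ, 0 < ε ∧ ε ≤ 1 / 2 ∧ 8 * C * ε ≤ Real.exp (-(2 * C)) := by
    refine ⟨min (1 / 2) (Real.exp (-(2 * C)) / (8 * C)), lt_min (by norm_num) (by positivity),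
      min_le_left _ _, ?_⟩
    have h := min_le_right (1 / 2 : ℝ) (Real.exp (-(2 * C)) / (8 * C))
    rw [le_div_iff₀ (by positivity)] at h
    linarith
  obtain ⟨q, hq3, hq⟩ := hNQ C ε hε
  have hε4 : 0 < ε₀ / 4 := by positivity
  have e1 : q * (32 * q) = 32 * q ^ 2 := by ring
  have e2 : 4 * q * (8 * q) = 32 * q ^ 2 := by ring
  obtain ⟨w1, hw1⟩ := hNP C q (32 * q) (32 * q) (ε₀ / 4) hC (by omega) (by omega) le_rfl
    (by nlinarith) hε4
  obtain ⟨w2, hw2⟩ := hNP C (4 * q) (8 * q) (32 * q) (ε₀ / 4) hC (by omega) (by omega) (by omega)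
    (by nlinarith) hε4
  obtain ⟨wA, hwA⟩ := hNA C q ε hC hq3 hε
  obtain ⟨wB, hwB⟩ := hNB C (32 * q ^ 2) (2 * q) ε (ε₀ / 4) hC (by nlinarith) hε hε2 hε4
  obtain ⟨n₀, hn₀⟩ := hRoot (32 * q ^ 2) (max (max w1 w2) (max wA wB)) (by nlinarith)
  refine ⟨n₀, fun G _ _ _ hn => ?_⟩
  obtain ⟨w, hw, hk1, hk2, hk3, hk4⟩ := hn₀ _ hn
  generalize Nat.sqrt (Fintype.card G) = k at hk1 hk2 hk3 hk4 ⊢
  rw [e1] at hw1
  rw [e2] at hw2
  obtain ⟨s₁, M₁, hP1, hM1, hB1⟩ := hw1 w k _ (by omega) hk1 hk2 hk3 hk4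
  obtain ⟨s₂, M₂, hP2, hM2, hB2⟩ := hw2 w k _ (by omega) hk1 hk2 hk3 hk4
  obtain ⟨a1, a2, a3, a4, a5, a6, a7, a8⟩ := hwA w k _ _ (by omega) hk1 hk2 hk3 rfl
  obtain ⟨hB0, s, hs0, hs1, hs2, hB3⟩ := hwB w k _ (by omega) hk1 hk2 hk3 hk4
  generalize w ^ (32 * q ^ 2 - 32 * q) = Δ at hP1 hP2 a4 a5 a6 a7 a8
  have hnpos : (0 : ℝ) < Fintype.card G := by exact_mod_cast Fintype.card_pos
  have hN0 : 0 < C * k := Nat.mul_pos (by omega) (by omega)
  have hx0 : (0 : ℝ) ≤ ((C * k : ℕ) : ℝ) / Fintype.card G := by positivity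
  have hx1 : ((C * k : ℕ) : ℝ) / Fintype.card G ≤ 1 / 2 := by
    rw [div_le_iff₀ hnpos]
    have : ((2 * (C * k) : ℕ) : ℝ) ≤ Fintype.card G := by exact_mod_cast a2
    push_cast at this ⊢
    linarith
  have hx2 : ((C * k : ℕ) : ℝ) * k / Fintype.card G ≤ C := by
    rw [div_le_iff₀ hnpos]
    have : ((k ^ 2 : ℕ) : ℝ) ≤ Fintype.card G := by exact_mod_cast hk3
    push_cast at this ⊢
    nlinarith
  have hwt : ∀ i : Fin k, 0 ≤ (1 - ((C * k : ℕ) : ℝ) / Fintype.card G) ^ (k - 1 - i) ∧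
      (1 - ((C * k : ℕ) : ℝ) / Fintype.card G) ^ (k - 1 - i) ≤ 1 := fun i =>
    ⟨pow_nonneg (by linarith) _, pow_le_one₀ (by linarith) (by linarith)⟩
  have key : ∀ a : Fin k → G, NoPat (img a) 2 2 w → NoPat (img a) q s₁ M₁ →
      NoPat (img a) (4 * q) s₂ M₂ →
      Mart a w (2 * q) (C * k) s
        (fun i => (1 - ((C * k : ℕ) : ℝ) / Fintype.card G) ^ (k - 1 - i)) ε →
      ¬ ∃ T : Finset G, T.card ≤ C * k ∧ unc (img a) T = ∅ := by
    rintro a g0 g1 g2 g3 ⟨T0, hT0, hcov0⟩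
    obtain ⟨T, hT1, -, hT⟩ := exists_subsuperset_card_eq (subset_univ T0) hT0
      (by rw [card_univ]; omega)
    have hcov := unc_empty_mono hT1 hcov0
    have hL := hLam G _ _ g0
    have hz := hZ G (img a) T (C * k) Δ (3 * w) hL hT.le a4 a5
    obtain ⟨b1, b2⟩ := a8 _ hz
    have hzs : (Zs (img a) T Δ).card ≤ s := by
      have h1 : (Zs (img a) T Δ).card * Δ ≤ s * Δ :=
        hz.trans (hs1.trans (Nat.mul_le_mul_left _ a6))
      exact Nat.le_of_mul_le_mul_right h1 a4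
    have hcard : ((img a).card : ℝ) ≤ k := by exact_mod_cast card_img_le a
    have hmom : ∀ B ⊆ img a, ∑ x, Qf w (2 * q) (rep B T x).card ≤
        (unc B T).card + 2 * ε * Fintype.card G := by
      intro B hB
      refine (hMom G (img a) B T q w (C * k) Δ (3 * w) s₁ M₁ s₂ M₂ _ _ hB hL hT.le a3 hP1 g1 hP2
        g2).trans ?_
      have c1 : (48 : ℝ) ^ (4 * q) *
          (2 ^ (4 * q + 7) * M₂ / (1 / (w : ℝ) ^ (8 * q + 2)) ^ (4 * q) +
            2 ^ (q + 7) * M₁ / (1 / (w : ℝ) ^ (32 * q + 2)) ^ q) ≤ ε * Fintype.card G := by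
        refine le_trans ?_ (mul_le_mul_of_nonneg_right hq hnpos.le)
        rw [mul_assoc]
        refine mul_le_mul_of_nonneg_left ?_ (by positivity)
        rw [add_mul, mul_div_assoc, mul_div_assoc, mul_assoc, mul_assoc]
        exact add_le_add (mul_le_mul_of_nonneg_left hM2 (by positivity))
          (mul_le_mul_of_nonneg_left hM1 (by positivity))
      have c2 : (2 * (w : ℝ)) ^ (4 * q) * ((Zs (img a) T Δ).card * (img a).card +
          (img a).card * ((Zs (img a) T Δ).card : ℝ) ^ 2 * (3 * w : ℕ)) ≤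
            ε * Fintype.card G := by
        refine le_trans ?_ b2
        gcongr
      linarith
    have hd := hDet G k (2 * q) w (C * k) Δ s a T ε ε (2 * ε) hT hN0 (by omega) hs0 hε.le hε
      (by positivity) a7 hzs g3 hmom
    rw [hcov, card_empty, Nat.cast_zero, zero_div] at hd
    have h1 := exp_le_pow (C := C) k hx0 hx1 (by rw [div_mul_eq_mul_div]; exact hx2)
    have h2 : ((C * k : ℕ) : ℝ) * k / Fintype.card G *
        (ε + 2 * ε + 2 * ε + ((C * k : ℕ) : ℝ) * (Zs (img a) T Δ).card / Fintype.card G +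
          (2 * (2 * q : ℕ) + 1) * ((C * k : ℕ) : ℝ) / (w * s)) ≤ C * (7 * ε) :=
      mul_le_mul hx2 (by linarith) (by positivity) (by positivity)
    nlinarith [mul_pos (lt_of_lt_of_le one_pos hC') hε]
  refine (av_le4 fun a => ind_le4 (key a)).trans ?_
  have p0 := (hPat G k 2 2 w).trans hB0
  have p1 := (hPat G k q s₁ M₁).trans hB1
  have p2 := (hPat G k (4 * q) s₂ M₂).trans hB2
  have p3 := (hMart G k w (2 * q) (C * k) s _ ε hwt hε.le (by linarith)).trans hB3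
  linarith

end Pool.Agent.P.MP_cb22e8_co.AC
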