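import Pool.Agent.P.MP_cb22e8_co.AC.Defs

/-!
Independence of functions of disjoint sets of coordinates, and a variance bound.
-/

open Finset

namespace Pool.Agent.P.MP_cb22e8_co.AC

namespace Prod

theorem av_const {Ω : Type} [Fintype Ω] [Nonempty Ω] (x : ℝ) : av (fun _ : Ω => x) = x := by
  unfold av
  have : (Fintype.card Ω : ℝ) ≠ 0 := by exact_mod_cast Fintype.card_ne_zero
  simp only [sum_const, card_univ, nsmul_eq_mul]
  field_simp

theorem av_sum {Ω τ : Type} [Fintype Ω] (s : Finset τ) (f : τ → Ω → ℝ) :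
    av (fun c => ∑ t ∈ s, f t c) = ∑ t ∈ s, av (f t) := by
  unfold av
  rw [sum_comm, sum_div]

theorem av_sub {Ω : Type} [Fintype Ω] (f g : Ω → ℝ) :
    av (fun c => f c - g c) = av f - av g := by
  unfold av
  rw [sum_sub_distrib, sub_div]

theorem av_half {Ω : Type} [Fintype Ω] (f g : Ω → ℝ) :
    av (fun c => (f c + g c) / 2) = (av f + av g) / 2 := by
  unfold av
  rw [← sum_div, sum_add_distrib]; ring

theorem av_mono {Ω : Type} [Fintype Ω] {f g : Ω → ℝ} (h : ∀ c, f c ≤ g c) : av f ≤ av g :=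
  div_le_div_of_nonneg_right (sum_le_sum fun c _ => h c) (Nat.cast_nonneg _)

theorem av_two {ι κ : Type} [Fintype ι] [DecidableEq ι] [Fintype κ] [Nonempty κ]
    {X Y : (ι → κ) → ℝ} {D D' : Finset ι} (hX : DepOn X D) (hY : DepOn Y D')
    (h : Disjoint D D') : av (fun c => X c * Y c) = av X * av Y := by
  let f : (ι → κ) × (ι → κ) → (ι → κ) × (ι → κ) := fun p =>
    (D.piecewise p.1 p.2, D.piecewise p.2 p.1)
  have inv : Function.Involutive f := fun p => by
    ext i <;> by_cases hi : i ∈ D <;> simp [f, hi]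
  have e := inv.bijective.sum_comp (fun p => X p.1 * Y p.1)
  have e1 : ∀ p, X (f p).1 * Y (f p).1 = X p.1 * Y p.2 := fun p => by
    rw [hX (f p).1 p.1 fun i hi => by simp [f, hi],
      hY (f p).1 p.2 fun i hi => by simp [f, disjoint_right.mp h hi]]
  simp only [e1, Fintype.sum_prod_type, sum_const, card_univ, nsmul_eq_mul] at e
  rw [← sum_mul_sum, ← mul_sum] at e
  have : (Fintype.card (ι → κ) : ℝ) ≠ 0 := by exact_mod_cast Fintype.card_ne_zero
  unfold av
  rw [div_mul_div_comm, e]
  field_simp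

end Prod

open Pool.Agent.P.MP_cb22e8_co.AC.Prod

theorem pProd : StProd := by
  intro ι κ τ _ _ _ _ s X D
  classical
  induction s using Finset.induction_on with
  | empty => intro _ _; simpa using av_const (1 : ℝ)
  | insert a s ha ih =>
    intro h1 h2
    simp only [prod_insert ha]
    rw [av_two (D := D a) (D' := s.biUnion D) (h1 a (mem_insert_self _ _)) ?_ ?_,
      ih (fun l hl => h1 l (mem_insert_of_mem hl))
        (fun l hl l' hl' => h2 l (mem_insert_of_mem hl) l' (mem_insert_of_mem hl'))]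
    · intro c c' e
      exact prod_congr rfl fun l hl => h1 l (mem_insert_of_mem hl) c c' fun i hi =>
        e i (mem_biUnion.mpr ⟨l, hl, hi⟩)
    · rw [disjoint_biUnion_right]
      exact fun l hl => h2 a (mem_insert_self _ _) l (mem_insert_of_mem hl)
        fun e => ha (e ▸ hl)

theorem pCoord : StCoord := by
  intro ι κ _ _ _ _ i F
  have e := (Equiv.funSplitAt i κ).symm.sum_comp (fun c => F (c i))
  have c := Fintype.card_congr (Equiv.funSplitAt i κ)
  have n1 : (Fintype.card κ : ℝ) ≠ 0 := by exact_mod_cast Fintype.card_ne_zero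
  have n2 : (Fintype.card ({j // j ≠ i} → κ) : ℝ) ≠ 0 := by exact_mod_cast Fintype.card_ne_zero
  unfold av
  rw [← e, c, Fintype.card_prod]
  simp only [Fintype.sum_prod_type, Equiv.funSplitAt_symm_apply, dif_pos, sum_const, card_univ,
    nsmul_eq_mul, Nat.cast_mul]
  rw [← mul_sum]
  field_simp

theorem pVar : StVar := by
  intro ι κ τ _ _ _ _ s X D h
  set Y : τ → (ι → κ) → ℝ := fun t c => X t c - av (X t) with hY
  have dep : ∀ t ∈ s, DepOn (Y t) (D t) := fun t ht c c' e => by
    simp only [hY, h t ht c c' e]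
  have mean : ∀ t, av (Y t) = 0 := fun t => by
    simp only [hY]
    rw [av_sub, av_const, sub_self]
  have pair : ∀ t ∈ s, ∀ t' ∈ s, av (fun c => Y t c * Y t' c) ≤
      if ¬ Disjoint (D t) (D t') then
        (av (fun c => Y t c ^ 2) + av (fun c => Y t' c ^ 2)) / 2 else 0 := by
    intro t ht t' ht'
    split_ifs with d
    · rw [av_two (dep t ht) (dep t' ht') d, mean, zero_mul]
    · rw [← av_half]
      exact av_mono fun c => by nlinarith [sq_nonneg (Y t c - Y t' c)]
  have sym : ∑ t ∈ s, ∑ t' ∈ s, (if ¬ Disjoint (D t) (D t') then av (fun c => Y t' c ^ 2) else 0) =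
      ∑ t ∈ s, ∑ t' ∈ s, (if ¬ Disjoint (D t) (D t') then av (fun c => Y t c ^ 2) else 0) := by
    rw [sum_comm]
    simp only [disjoint_comm]
  calc (av fun c => (∑ t ∈ s, Y t c) ^ 2)
      = ∑ t ∈ s, ∑ t' ∈ s, av (fun c => Y t c * Y t' c) := by
        simp only [sq, sum_mul_sum]
        rw [av_sum]
        exact sum_congr rfl fun t _ => av_sum _ _
    _ ≤ ∑ t ∈ s, ∑ t' ∈ s, (if ¬ Disjoint (D t) (D t') then
          (av (fun c => Y t c ^ 2) + av (fun c => Y t' c ^ 2)) / 2 else 0) :=
        sum_le_sum fun t ht => sum_le_sum fun t' ht' => pair t ht t' ht'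
    _ = (∑ t ∈ s, ∑ t' ∈ s, (if ¬ Disjoint (D t) (D t') then av (fun c => Y t c ^ 2) else 0) +
          ∑ t ∈ s, ∑ t' ∈ s,
            (if ¬ Disjoint (D t) (D t') then av (fun c => Y t' c ^ 2) else 0)) / 2 := by
        rw [← sum_add_distrib, sum_div]
        refine sum_congr rfl fun t _ => ?_
        rw [← sum_add_distrib, sum_div]
        refine sum_congr rfl fun t' _ => ?_
        split_ifs <;> simp
    _ = _ := by
        rw [sym, add_self_div_two]
        refine sum_congr rfl fun t _ => ?_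
        rw [← sum_filter, sum_const, nsmul_eq_mul, mul_comm]

end Pool.Agent.P.MP_cb22e8_co.AC
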